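import Pool.Agent.MP_f0209c_nt.FF.Defs

/-! Definitions for primes in short intervals in characteristic two. -/

set_option autoImplicit false

open Polynomial Finset Filter
open scoped Classical BigOperators

noncomputable section
namespace Pool.Agent.MP_2033ac_nt.SI
open Pool.Agent.MP_a4a062_nt.C2 Pool.Agent.MP_f0209c_nt.FF

variable {k : Type} [Field k] [Fintype k]

/-- The von Mangoldt function of a monic polynomial. -/
def Lam (f : k[X]) : ℝ :=
  -∑ j ∈ range (f.natDegree + 1), (j : ℝ) * ∑ a ∈ mon k j, if a ∣ f then mu a else 0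

/-- The Moebius sum over the divisors of degree `j` of the members of the interval. -/
def SS (f₀ : k[X]) (h j : ℕ) : ℝ :=
  ∑ a ∈ mon k j, mu a * (#{t ∈ box k h | a ∣ f₀ + t} : ℝ)

/-- The exponent lost in the van der Corput steps. -/
def ex (c : ℕ) : ℕ := 2 ^ (19 * (c + 1) + 2)

/-- The weight: a free factor of degree `κ` times primes of degrees `e i`. -/
def WW {ι : Type} [Fintype ι] (κ : ℕ) (e : ι → ℕ) (x : k[X]) : ℝ :=
  ∑ y ∈ mon k κ, ∑ P ∈ Fintype.piFinset fun i => prs k (e i), if y * ∏ i, P i = x then 1 else 0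

variable (k) in
/-- The mean of the weight. -/
def DW {ι : Type} [Fintype ι] (e : ι → ℕ) : ℝ :=
  (∏ i, (#(prs k (e i)) : ℝ)) / qq k ^ (∑ i, e i)

/-- The variance of `W` in progressions modulo `d` inside the interval around `x₀`. -/
def VV (W : k[X] → ℝ) (D : ℝ) (L L' : ℕ) (d x₀ : k[X]) : ℝ :=
  𝔼 x ∈ box k L, (𝔼 s ∈ box k L', W (x₀ + x + d * s) - D) ^ 2

/-- The homogenised polynomial evaluated at `(α, β)`. -/
def hm {A : Type} [CommRing A] [Algebra k A] (α β : A) (f : k[X]) : A :=
  ∑ i ∈ range (f.natDegree + 1), algebraMap k A (f.coeff i) * α ^ i * β ^ (f.natDegree - i)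

end Pool.Agent.MP_2033ac_nt.SI
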