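import Pool.Agent.MP_1609a8_nt.H76.Step

/-!
Linear algebra of the equation `Y^(q) = m * Y` in `S ⊗ A`: one additive polynomial whose roots
correspond to the solutions.
-/

set_option autoImplicit false

noncomputable section
namespace Pool.Agent.MP_2033ac_nt.SI.L5

open Polynomial Finset Module Matrix
open scoped TensorProduct

variable {k A : Type} [Field k] [Fintype k] [CommRing A] [Algebra k A] {n : ℕ}
  (b : Basis (Fin n) k A) {S S' : Type} [CommRing S] [Algebra k S] [CommRing S'] [Algebra k S']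

/-- Change of the coefficient ring. -/
def mp (A : Type) [CommRing A] [Algebra k A] (P : S →ₐ[k] S') : S ⊗[k] A →ₐ[k] S' ⊗[k] A :=
  Algebra.TensorProduct.map P (AlgHom.id k A)

omit [Fintype k] in
theorem mp_tmul (P : S →ₐ[k] S') (s : S) (a : A) : mp A P (s ⊗ₜ a) = P s ⊗ₜ a := rfl

omit [Fintype k] in
theorem mp_comp {S'' : Type} [CommRing S''] [Algebra k S''] (P : S →ₐ[k] S') (P' : S' →ₐ[k] S'')
    (Y : S ⊗[k] A) : mp A P' (mp A P Y) = mp A (P'.comp P) Y := by
  induction Y with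
  | zero => simp
  | tmul s a => rfl
  | add x y h1 h2 => simp [h1, h2]

omit [Fintype k] in
theorem co_mp (P : S →ₐ[k] S') (Y : S ⊗[k] A) (j : Fin n) :
    (Algebra.TensorProduct.basis S' b).repr (mp A P Y) j =
      P ((Algebra.TensorProduct.basis S b).repr Y j) := by
  induction Y with
  | zero => simp
  | tmul s a => simp [mp_tmul, Algebra.TensorProduct.basis_repr_tmul]
  | add x y h1 h2 => simp [h1, h2]

/-- The linear form with coefficients `v`. -/
def pr (v : Fin n → S) : S ⊗[k] A →ₗ[S] S := (Algebra.TensorProduct.basis S b).constr S v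

omit [Fintype k] in
theorem pr_apply (v : Fin n → S) (Y : S ⊗[k] A) :
    pr b v Y = ∑ j, v j * (Algebra.TensorProduct.basis S b).repr Y j := by
  simp [pr, Basis.constr_apply_fintype, mul_comm]

omit [Fintype k] in
theorem pr_map (P : S →ₐ[k] S') (v : Fin n → S) (Y : S ⊗[k] A) :
    P (pr b v Y) = pr b (fun j => P (v j)) (mp A P Y) := by
  simp [pr_apply, co_mp]

/-- The `q`-power map on the coefficients. -/
def fr (k : Type) [Field k] [Fintype k] (S : Type) [CommRing S] [Algebra k S] : S →ₐ[k] S :=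
  FiniteField.frobeniusAlgHom k S

theorem fr_apply (s : S) : fr k S s = s ^ Fintype.card k := rfl

theorem fr_comm (P : S →ₐ[k] S') : (fr k S').comp P = P.comp (fr k S) :=
  AlgHom.ext fun s => by simp [fr_apply]

/-- The coefficient vectors of the powers `z ^ q ^ i`. -/
def vv (m : S ⊗[k] A) (v : Fin n → S) : ℕ → Fin n → S
  | 0 => v
  | i + 1 => fun j => pr b (fun l => vv m v i l ^ Fintype.card k)
      (m * Algebra.TensorProduct.basis S b j)

theorem pr_succ (m : S ⊗[k] A) (v : Fin n → S) (i : ℕ) (Y : S ⊗[k] A) :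
    pr b (vv b m v (i + 1)) Y = pr b (fun l => vv b m v i l ^ Fintype.card k) (m * Y) := by
  have : pr b (vv b m v (i + 1)) =
      pr b (fun l => vv b m v i l ^ Fintype.card k) ∘ₗ LinearMap.mul S _ m :=
    (Algebra.TensorProduct.basis S b).ext fun j => by
      rw [pr, Basis.constr_basis]; rfl
  rw [this]; rfl

theorem vv_map (P : S →ₐ[k] S') (m : S ⊗[k] A) (v : Fin n → S) (i : ℕ) (j : Fin n) :
    P (vv b m v i j) = vv b (mp A P m) (fun l => P (v l)) i j := by
  induction i generalizing j with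
  | zero => rfl
  | succ i ih =>
    simp only [vv, pr_map, map_pow, ih, map_mul, Algebra.TensorProduct.basis_apply, mp_tmul,
      map_one]

/-- Solutions of the Lang equation. -/
def Sol (m Y : S ⊗[k] A) : Prop := mp A (fr k S) Y = m * Y

theorem Sol.map {m Y : S ⊗[k] A} (h : Sol m Y) (P : S →ₐ[k] S') : Sol (mp A P m) (mp A P Y) := by
  unfold Sol at *
  rw [mp_comp, fr_comm, ← mp_comp, h, map_mul]

theorem Sol.mul {m Y : S ⊗[k] A} (h : Sol m Y) (a : A) : Sol m (1 ⊗ₜ a * Y) := by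
  unfold Sol at *
  rw [map_mul, h, mp_tmul, map_one, mul_left_comm]

theorem Sol.sub {m Y Y' : S ⊗[k] A} (h : Sol m Y) (h' : Sol m Y') : Sol m (Y - Y') := by
  unfold Sol at *
  rw [map_sub, h, h', mul_sub]

theorem Sol.pow {m Y : S ⊗[k] A} (h : Sol m Y) (v : Fin n → S) (i : ℕ) :
    pr b v Y ^ Fintype.card k ^ i = pr b (vv b m v i) Y := by
  induction i with
  | zero => simp [vv]
  | succ i ih => rw [pow_succ, pow_mul, ih, ← fr_apply, pr_map, h, pr_succ]; rfl

/-- The matrix of the first `n` coefficient vectors. -/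
def VM (m : S ⊗[k] A) (v : Fin n → S) : Matrix (Fin n) (Fin n) S := of fun i j => vv b m v i j

/-- The Cramer coefficients. -/
def bc (m : S ⊗[k] A) (v : Fin n → S) (i : Fin n) : S :=
  ((VM b m v).updateRow i (vv b m v n)).det

theorem VM_map (P : S →ₐ[k] S') (m : S ⊗[k] A) (v : Fin n → S) :
    P (VM b m v).det = (VM b (mp A P m) fun l => P (v l)).det := by
  rw [AlgHom.map_det]
  congr 1
  ext i j
  simp [VM, vv_map]

theorem bc_map (P : S →ₐ[k] S') (m : S ⊗[k] A) (v : Fin n → S) (i : Fin n) :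
    P (bc b m v i) = bc b (mp A P m) (fun l => P (v l)) i := by
  rw [bc, bc, AlgHom.map_det]
  congr 1
  ext r j
  simp only [AlgHom.mapMatrix_apply, map_apply, updateRow_apply, VM, of_apply]
  split_ifs <;> exact vv_map b P m v _ _

theorem cramer_pr (m : S ⊗[k] A) (v : Fin n → S) (Y : S ⊗[k] A) :
    (VM b m v).det * pr b (vv b m v n) Y = ∑ i, bc b m v i * pr b (vv b m v i) Y := by
  have h := mulVec_cramer (VM b m v)ᵀ (vv b m v n)
  simp only [pr_apply, mul_sum]
  rw [sum_comm]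
  refine sum_congr rfl fun j _ => ?_
  have := congrFun h j
  simp only [mulVec, dotProduct, transpose_apply, cramer_transpose_apply, det_transpose,
    Pi.smul_apply, smul_eq_mul] at this
  rw [← mul_assoc, ← this, sum_mul]
  refine sum_congr rfl fun i _ => ?_
  simp only [bc, VM, of_apply]
  ring

/-- The monic additive polynomial. -/
def Psi (m : S ⊗[k] A) (v : Fin n → S) : S[X] := X ^ Fintype.card k ^ n -
  ∑ i : Fin n, C (bc b m v i * (VM b m v).det ^ (Fintype.card k ^ n - 1 - Fintype.card k ^ (i : ℕ))) *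
    X ^ Fintype.card k ^ (i : ℕ)

theorem Psi_map (P : S →ₐ[k] S') (m : S ⊗[k] A) (v : Fin n → S) :
    (Psi b m v).map (P : S →+* S') = Psi b (mp A P m) fun l => P (v l) := by
  simp [Psi, Polynomial.map_sum, ← bc_map, ← VM_map]

theorem pow_lt (i : Fin n) : Fintype.card k ^ (i : ℕ) < Fintype.card k ^ n :=
  Nat.pow_lt_pow_right Fintype.one_lt_card i.2

theorem Psi_monic [Nontrivial S] (m : S ⊗[k] A) (v : Fin n → S) :
    (Psi b m v).Monic ∧ (Psi b m v).natDegree = Fintype.card k ^ n := by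
  have h : (∑ i : Fin n, C (bc b m v i * (VM b m v).det ^ (Fintype.card k ^ n - 1 -
      Fintype.card k ^ (i : ℕ))) * X ^ Fintype.card k ^ (i : ℕ) : S[X]).degree <
      (Fintype.card k ^ n : ℕ) := by
    refine (degree_sum_le _ _).trans_lt ((Finset.sup_lt_iff (WithBot.bot_lt_coe _)).2 fun i _ => ?_)
    exact (degree_C_mul_X_pow_le _ _).trans_lt (by exact_mod_cast pow_lt i)
  exact ⟨monic_X_pow_sub h, natDegree_eq_of_degree_eq_some (by
    rw [Psi, degree_sub_eq_left_of_degree_lt (by rwa [degree_X_pow]), degree_X_pow])⟩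

theorem Psi_eval (m : S ⊗[k] A) (v : Fin n → S) (z : S) :
    (Psi b m v).eval ((VM b m v).det * z) = (VM b m v).det ^ (Fintype.card k ^ n - 1) *
      ((VM b m v).det * z ^ Fintype.card k ^ n -
        ∑ i, bc b m v i * z ^ Fintype.card k ^ (i : ℕ)) := by
  have h0 : 0 < Fintype.card k ^ n := pow_pos Fintype.card_pos _
  simp only [Psi, eval_sub, eval_pow, eval_X, eval_finsetSum, eval_mul, eval_C, mul_sub, mul_sum,
    mul_pow]
  congr 1
  · rw [← mul_assoc, ← pow_succ, Nat.sub_add_cancel h0]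
  · refine sum_congr rfl fun i _ => ?_
    have := pow_lt (k := k) i
    obtain ⟨r, hr⟩ : ∃ r, Fintype.card k ^ n - 1 = r + Fintype.card k ^ (i : ℕ) :=
      ⟨Fintype.card k ^ n - 1 - Fintype.card k ^ (i : ℕ), by omega⟩
    rw [hr, Nat.add_sub_cancel, pow_add]
    ring

theorem Sol.root {m Y : S ⊗[k] A} (h : Sol m Y) (v : Fin n → S) :
    (Psi b m v).eval ((VM b m v).det * pr b v Y) = 0 := by
  simp only [Psi_eval, h.pow, cramer_pr, sub_self, mul_zero]

omit [Fintype k] in
theorem eq_zero_of_pr {V : Matrix (Fin n) (Fin n) S} (hc : IsUnit V.det) {Y : S ⊗[k] A}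
    (h : ∀ i, pr b (V i) Y = 0) : Y = 0 := by
  have h1 : V *ᵥ (fun j => (Algebra.TensorProduct.basis S b).repr Y j) = 0 := by
    ext i
    simpa [mulVec, dotProduct, pr_apply] using h i
  have h2 := congrArg (V⁻¹ *ᵥ ·) h1
  simp only [mulVec_mulVec, nonsing_inv_mul V hc, one_mulVec, mulVec_zero] at h2
  exact (Algebra.TensorProduct.basis S b).ext_elem fun j => by simpa using congrFun h2 j

theorem Sol.uniq {m Y Y' : S ⊗[k] A} (h : Sol m Y) (h' : Sol m Y') {v : Fin n → S}
    (hc : IsUnit (VM b m v).det) (e : pr b v Y = pr b v Y') : Y = Y' := by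
  refine sub_eq_zero.1 (eq_zero_of_pr b hc fun i => ?_)
  change pr b (vv b m v i) _ = 0
  rw [← (h.sub h').pow, map_sub, e, sub_self, zero_pow (pow_pos Fintype.card_pos _).ne']

theorem exists_sol (hn : 0 < n) {m : S ⊗[k] A} {v : Fin n → S} (hc : IsUnit (VM b m v).det) {y : S}
    (hy : (Psi b m v).eval y = 0) : ∃ Y, Sol m Y ∧ (VM b m v).det * pr b v Y = y := by
  obtain ⟨z, rfl⟩ : ∃ z, y = (VM b m v).det * z := ⟨hc.unit⁻¹ * y, by
    rw [← mul_assoc, IsUnit.mul_val_inv, one_mul]⟩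
  rw [Psi_eval, (hc.pow _).mul_right_eq_zero, sub_eq_zero] at hy
  set Y := (Algebra.TensorProduct.basis S b).equivFun.symm
    ((VM b m v)⁻¹ *ᵥ fun i => z ^ Fintype.card k ^ (i : ℕ)) with hY
  have h1 : ∀ i : Fin n, pr b (vv b m v i) Y = z ^ Fintype.card k ^ (i : ℕ) := fun i => by
    have e := congrFun (mulVec_mulVec (fun i : Fin n => z ^ Fintype.card k ^ (i : ℕ)) (VM b m v)
      (VM b m v)⁻¹) i
    rw [mul_nonsing_inv _ hc, one_mulVec] at e
    rw [← e, pr_apply]
    simp only [hY, ← Basis.equivFun_apply, LinearEquiv.apply_symm_apply]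
    rfl
  have h2 : ∀ i ≤ n, pr b (vv b m v i) Y = z ^ Fintype.card k ^ i := fun i hi => by
    rcases hi.eq_or_lt with rfl | hi
    · refine hc.mul_left_cancel ?_
      rw [cramer_pr, hy]
      simp only [h1]
    · exact h1 ⟨i, hi⟩
  refine ⟨Y, sub_eq_zero.1 (eq_zero_of_pr b (V := (fr k S).mapMatrix (VM b m v))
    (by rw [← AlgHom.map_det]; exact hc.map _) fun i => ?_), ?_⟩
  · have e1 := pr_map b (fr k S) (vv b m v i) Y
    have e2 := pr_succ b m v i Y
    rw [h2 _ i.2.le, fr_apply, ← pow_mul, ← pow_succ] at e1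
    rw [h2 _ i.2] at e2
    rw [map_sub]
    exact sub_eq_zero.2 (e1.symm.trans e2)
  · have := h2 0 hn.le
    rw [pow_zero, pow_one] at this
    exact congrArg _ this

theorem Psi_deriv (hn : 0 < n) (m : S ⊗[k] A) (v : Fin n → S) : derivative (Psi b m v) =
    C (-(bc b m v ⟨0, hn⟩ * (VM b m v).det ^ (Fintype.card k ^ n - 1 - 1))) := by
  have hq : (Fintype.card k : S) = 0 := by
    rw [← map_natCast (algebraMap k S), FiniteField.cast_card_eq_zero, map_zero]
  have h : ∀ i, i ≠ 0 → derivative (X ^ Fintype.card k ^ i : S[X]) = 0 := fun i hi => by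
    rw [derivative_X_pow, Nat.cast_pow, hq, zero_pow hi, C_0, zero_mul]
  rw [Psi, derivative_sub, h n hn.ne', derivative_sum, sum_eq_single ⟨0, hn⟩ (fun i _ hi => by
    rw [derivative_C_mul, h _ fun e => hi (Fin.ext e), mul_zero]) (by simp),
    derivative_C_mul, pow_zero, pow_one, derivative_X, mul_one, zero_sub, C_neg]

/-- All roots come from one solution. -/
theorem Psi_prod [IsDomain S] [Fintype A] {m W : S ⊗[k] A} (h : Sol m W) (v : Fin n → S)
    (hi : Function.Injective fun a : A => (VM b m v).det * pr b v (1 ⊗ₜ a * W)) :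
    Psi b m v = ∏ a : A, (X - C ((VM b m v).det * pr b v (1 ⊗ₜ a * W))) := by
  classical
  obtain ⟨m1, m2⟩ := Psi_monic b m v
  have hA : Fintype.card A = Fintype.card k ^ n := by rw [Module.card_fintype b, Fintype.card_fin]
  have m3 : (∏ a : A, (X - C ((VM b m v).det * pr b v (1 ⊗ₜ a * W)))).Monic :=
    monic_prod_of_monic _ _ fun a _ => monic_X_sub_C _
  refine eq_of_monic_of_dvd_of_natDegree_le m3 m1 ?_ ?_
  · rw [Finset.prod_eq_multiset_prod, ← Function.comp_def (fun r => X - C r), ← Multiset.map_map,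
      Multiset.prod_X_sub_C_dvd_iff_le_roots m1.ne_zero,
      Multiset.le_iff_subset (univ.nodup.map hi)]
    intro r hr
    obtain ⟨a, -, rfl⟩ := Multiset.mem_map.1 hr
    exact (mem_roots m1.ne_zero).2 ((h.mul a).root b v)
  · rw [m2, natDegree_prod_of_monic _ _ fun a _ => monic_X_sub_C _]
    simp only [natDegree_X_sub_C, sum_const, card_univ, hA, smul_eq_mul, mul_one, le_refl]

omit [Fintype k] in
theorem pr_inj {E : Type} [Field E] [Algebra k E] {v : Fin n → E} (hv : LinearIndependent k v) :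
    Function.Injective fun a : A => pr b v (1 ⊗ₜ a * 1 : E ⊗[k] A) := by
  intro a a' e
  simp only [mul_one] at e
  rw [← sub_eq_zero, ← map_sub, ← TensorProduct.tmul_sub, pr_apply] at e
  have := Fintype.linearIndependent_iff.1 hv (fun j => b.repr (a - a') j) (by
    rw [← e]
    refine sum_congr rfl fun j _ => ?_
    simp [Algebra.TensorProduct.basis_repr_tmul, Algebra.smul_def, mul_comm])
  exact sub_eq_zero.1 (b.ext_elem fun j => by simpa using this j)

theorem sol_one : Sol (1 : S ⊗[k] A) 1 := by simp [Sol]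

/-- Moore's determinant. -/
theorem moore {E : Type} [Field E] [Algebra k E] [Fintype A] {v : Fin n → E}
    (hv : LinearIndependent k v) : (VM b (1 : E ⊗[k] A) v).det ≠ 0 := by
  classical
  intro h
  obtain ⟨w, w0, hw⟩ := exists_vecMul_eq_zero_iff.2 h
  set p : E[X] := ∑ i : Fin n, C (w i) * X ^ Fintype.card k ^ (i : ℕ) with hp
  have hA : Fintype.card A = Fintype.card k ^ n := by rw [Module.card_fintype b, Fintype.card_fin]
  have p0 : p = 0 := by
    refine eq_zero_of_degree_lt_of_eval_index_eq_zero univ (pr_inj b hv).injOn ?_ fun a _ => ?_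
    · rw [card_univ, hA]
      refine (degree_sum_le _ _).trans_lt ((Finset.sup_lt_iff (WithBot.bot_lt_coe _)).2 fun i _ => ?_)
      exact (degree_C_mul_X_pow_le _ _).trans_lt (by exact_mod_cast pow_lt i)
    · simp only [hp, eval_finsetSum, eval_mul, eval_C, eval_pow, eval_X, (sol_one.mul a).pow b v,
        pr_apply b (vv b 1 v _), mul_sum]
      rw [sum_comm]
      refine sum_eq_zero fun j _ => ?_
      have := congrFun hw j
      simp only [vecMul, dotProduct, VM, of_apply, Pi.zero_apply] at this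
      simp only [← mul_assoc]
      rw [← sum_mul, this, zero_mul]
  refine w0 (_root_.funext fun i => ?_)
  have := congrArg (coeff · (Fintype.card k ^ (i : ℕ))) p0
  simp only [hp, finsetSum_coeff, coeff_C_mul, coeff_X_pow, coeff_zero] at this
  rw [sum_eq_single i (fun j _ hj => by
    rw [if_neg fun e => hj (Fin.ext (Nat.pow_right_injective Fintype.one_lt_card e)).symm,
      mul_zero]) (by simp)] at this
  simpa using this

end Pool.Agent.MP_2033ac_nt.SI.L5
end

/-!
The Lang cover of the affine line attached to `x ↦ α - x β`: an upper bound for the fibres of the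
norm map and the Frobenius classes on the component through a given point.
-/

set_option autoImplicit false

noncomputable section
namespace Pool.Agent.MP_2033ac_nt.SI

open Polynomial Finset Module Matrix
open scoped TensorProduct Classical

/-- The norm of `α - x β` from `E ⊗ A`. -/
def Nm (k : Type) [Field k] [Fintype k] {A : Type} [CommRing A] [Algebra k A] (α β : A) (E : Type)
    [Field E] [Algebra k E] (x : E) : E ⊗[k] A :=
  ∏ i ∈ range (finrank k E), ((1 : E) ⊗ₜ[k] α - (x ^ Fintype.card k ^ i) ⊗ₜ[k] β)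

namespace L5

section Gen

variable {k : Type} [Field k]

theorem exists_gen {S : Type} [CommRing S] [Algebra k S] {M : S[X]} (hM : Prime M) {c : S}
    (hc : AdjoinRoot.of M c ≠ 0) :
    ∃ (R : Type) (_ : CommRing R) (_ : IsDomain R) (_ : Algebra k R) (ι : S →ₐ[k] R) (y : R),
      IsUnit (ι c) ∧ M.eval₂ (ι : S →+* R) y = 0 ∧
      ∀ (Ω : Type) [CommRing Ω] [Algebra k Ω] (j : S →ₐ[k] Ω) (z : Ω), IsUnit (j c) →
        M.eval₂ (j : S →+* Ω) z = 0 → ∃ P : R →ₐ[k] Ω, P.comp ι = j ∧ P y = z := by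
  have := AdjoinRoot.isDomain_of_prime hM
  let R := Localization.Away (AdjoinRoot.of M c)
  let i : S →+* R := (algebraMap (AdjoinRoot M) R).comp (AdjoinRoot.of M)
  let al : Algebra k R := (i.comp (algebraMap k S)).toAlgebra
  refine ⟨R, inferInstance,
    IsLocalization.isDomain_localization (powers_le_nonZeroDivisors_of_noZeroDivisors hc), al,
    @AlgHom.mk k S R _ _ _ _ al i fun _ => rfl, algebraMap (AdjoinRoot M) R (AdjoinRoot.root M),
    IsLocalization.Away.algebraMap_isUnit (AdjoinRoot.of M c), ?_, fun Ω _ _ j z h1 h2 => ?_⟩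
  · change M.eval₂ i _ = 0
    rw [← hom_eval₂, AdjoinRoot.eval₂_root, map_zero]
  · have h3 : IsUnit (AdjoinRoot.lift (j : S →+* Ω) z h2 (AdjoinRoot.of M c)) := by
      rwa [AdjoinRoot.lift_of]
    have h4 : ∀ s, IsLocalization.Away.lift (S := R) _ h3 (i s) = j s := fun s => by
      simp only [i, RingHom.comp_apply, IsLocalization.Away.lift_eq, AdjoinRoot.lift_of]
      rfl
    refine ⟨@AlgHom.mk k R Ω _ _ _ al _ (IsLocalization.Away.lift _ h3) fun a =>
      (h4 _).trans (j.commutes a), @AlgHom.ext k S Ω _ _ _ _ _ _ _ h4, ?_⟩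
    change IsLocalization.Away.lift (S := R) _ h3 _ = z
    rw [IsLocalization.Away.lift_eq, AdjoinRoot.lift_root]

theorem dvd_prod_eq {R A : Type} [CommRing R] [IsDomain R] [Fintype A] {r : A → R}
    (hr : Function.Injective r) {p : R[X]} (hp : p.Monic) (h : p ∣ ∏ a, (X - C (r a))) :
    p = ∏ a with p.eval (r a) = 0, (X - C (r a)) := by
  have m : (∏ a, (X - C (r a))).Monic := monic_prod_of_monic _ _ fun a _ => monic_X_sub_C _
  have hr1 : (∏ a, (X - C (r a))).roots = univ.val.map r := by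
    rw [Finset.prod_eq_multiset_prod, ← Function.comp_def (fun r => X - C r), ← Multiset.map_map,
      roots_multiset_prod_X_sub_C]
  obtain ⟨N, hN⟩ := h
  have mN : N.Monic := hp.of_mul_monic_left (hN ▸ m)
  have e1 : p.roots + N.roots = univ.val.map r := by rw [← roots_mul (hN ▸ m.ne_zero), ← hN, hr1]
  have e2 : p.natDegree + N.natDegree = Fintype.card A := by
    rw [← hp.natDegree_mul mN, ← hN, natDegree_prod_of_monic _ _ fun a _ => monic_X_sub_C _]
    simp only [natDegree_X_sub_C, sum_const, card_univ, smul_eq_mul, mul_one]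
  have e3 := congrArg Multiset.card e1
  rw [Multiset.card_add, Multiset.card_map, card_val, card_univ] at e3
  have e4 : p.roots.card = p.natDegree := by
    have := card_roots' p
    have := card_roots' N
    omega
  have e5 : p.roots = (univ.filter fun a => p.eval (r a) = 0).val.map r := by
    have le : p.roots ≤ univ.val.map r := e1 ▸ Multiset.le_add_right _ _
    refine (Multiset.Nodup.ext (Multiset.nodup_of_le le (univ.nodup.map hr))
      ((Finset.nodup _).map hr)).2 fun x => ⟨fun hx => ?_, fun hx => ?_⟩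
    · obtain ⟨a, -, rfl⟩ := Multiset.mem_map.1 (Multiset.mem_of_le le hx)
      exact Multiset.mem_map.2 ⟨a, mem_filter.2 ⟨mem_univ _, isRoot_of_mem_roots hx⟩, rfl⟩
    · obtain ⟨a, ha, rfl⟩ := Multiset.mem_map.1 hx
      exact (mem_roots hp.ne_zero).2 (mem_filter.1 ha).2
  conv_lhs => rw [← prod_multiset_X_sub_C_of_monic_of_roots_card_eq hp e4, e5, Multiset.map_map]
  rfl

theorem coeff_swap {E : Type} [Field E] (p : E[X][X]) (i j : ℕ) :
    ((Bivariate.swap p).coeff i).coeff j = (p.coeff j).coeff i := by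
  induction p using Polynomial.induction_on' with
  | add p q h1 h2 => simp only [map_add, coeff_add, h1, h2]
  | monomial n f =>
    induction f using Polynomial.induction_on' with
    | add p q h1 h2 => simp only [map_add, coeff_add, h1, h2]
    | monomial m r =>
      rw [Bivariate.swap_monomial_monomial]
      simp only [coeff_monomial]
      split_ifs <;> simp_all [coeff_monomial]

theorem coeff_deg_of_dvd {E : Type} [Field E] {M P : E[X][X]} (h : M ∣ P) (h0 : P ≠ 0) {δ : ℕ}
    (hP : ∀ i, (P.coeff i).natDegree ≤ δ) (i : ℕ) : (M.coeff i).natDegree ≤ δ := by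
  have h1 : (Bivariate.swap P).natDegree ≤ δ := natDegree_le_iff_coeff_eq_zero.2 fun N hN => by
    ext j
    rw [coeff_swap, coeff_zero]
    exact coeff_eq_zero_of_natDegree_lt ((hP j).trans_lt hN)
  have h2 := (natDegree_le_of_dvd (map_dvd Bivariate.swap h)
    (by rwa [Ne, EmbeddingLike.map_eq_zero_iff])).trans h1
  refine natDegree_le_iff_coeff_eq_zero.2 fun N hN => ?_
  rw [← coeff_swap, coeff_eq_zero_of_natDegree_lt (h2.trans_lt hN), coeff_zero]

theorem exists_factor {S E : Type} [CommRing S] [IsDomain S] [UniqueFactorizationMonoid S]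
    [Field E] (ev : S[X] →+* E) {P : S[X]} (hP : P.Monic) (h : ev P = 0) :
    ∃ M : S[X], M.Monic ∧ Prime M ∧ M ∣ P ∧ ev M = 0 := by
  obtain ⟨u, hu⟩ := UniqueFactorizationMonoid.factors_prod hP.ne_zero
  rw [← hu, map_mul, (u.isUnit.map ev).mul_left_eq_zero, map_multiset_prod,
    Multiset.prod_eq_zero_iff] at h
  obtain ⟨f, hf, h1⟩ := Multiset.mem_map.1 h
  have h2 : f ∣ P := UniqueFactorizationMonoid.dvd_of_mem_factors hf
  obtain ⟨w, hw⟩ := hP.isUnit_leadingCoeff_of_dvd h2
  have h3 : Associated f (C (w⁻¹ : Sˣ).1 * f) :=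
    (associated_unit_mul_left _ _ (isUnit_C.2 (Units.isUnit _))).symm
  exact ⟨C (w⁻¹ : Sˣ).1 * f, monic_C_mul_of_mul_leadingCoeff_eq_one (by rw [← hw]; simp),
    h3.prime (UniqueFactorizationMonoid.prime_of_factor f hf), h3.symm.dvd.trans h2,
    by rw [map_mul, h1, mul_zero]⟩

theorem det_deg {E : Type} [Field E] {n D : ℕ} (V : Matrix (Fin n) (Fin n) E[X])
    (h : ∀ i j, (V i j).natDegree ≤ D) : V.det.natDegree ≤ n * D := by
  rw [det_apply']
  refine natDegree_sum_le_of_forall_le _ _ fun σ _ => natDegree_mul_le.trans ?_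
  rw [natDegree_intCast, zero_add]
  refine (natDegree_prod_le _ _).trans ((sum_le_card_nsmul _ _ D fun i _ => h _ _).trans ?_)
  simp

theorem prod_per {M : Type} [CommMonoid M] (f : ℕ → M) (t : ℕ) (h : ∀ i, f (i + t) = f i) (s : ℕ) :
    ∏ i ∈ range (t * s), f i = (∏ i ∈ range t, f i) ^ s := by
  have h1 : ∀ s i, f (t * s + i) = f i := fun s i => by
    induction s with
    | zero => simp
    | succ s ih => rw [show t * (s + 1) + i = t * s + i + t by ring, h, ih]
  induction s with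
  | zero => simp
  | succ s ih => rw [mul_add_one, prod_range_add, ih, pow_succ]; simp only [h1]

theorem mem_range_of_pow {E Ω : Type} [Field E] [Fintype E] [Field Ω] [Algebra E Ω] {z : Ω}
    (h : z ^ Fintype.card E = z) : ∃ w : E, algebraMap E Ω w = z := by
  have h0 := FiniteField.X_pow_card_sub_X_ne_zero E (Fintype.one_lt_card (α := E))
  have hs : (X ^ Fintype.card E - X : E[X]).Splits := splits_iff_card_roots.2 (by
    rw [FiniteField.roots_X_pow_card_sub_X,
      FiniteField.X_pow_card_sub_X_natDegree_eq E Fintype.one_lt_card]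
    simp)
  exact hs.mem_range_of_isRoot h0 (by simp [h])

end Gen

variable {k A : Type} [Field k] [Fintype k] [CommRing A] [Algebra k A]

theorem fr_pow {S : Type} [CommRing S] [Algebra k S] (i : ℕ) (s : S) :
    (fr k S ^ i) s = s ^ Fintype.card k ^ i := by
  rw [AlgHom.coe_pow, fr, FiniteField.coe_frobeniusAlgHom, pow_iterate]

theorem Sol.iter {S : Type} [CommRing S] [Algebra k S] {m Y : S ⊗[k] A} (h : Sol m Y) (i : ℕ) :
    mp A (fr k S ^ i) Y = (∏ l ∈ range i, mp A (fr k S ^ l) m) * Y := by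
  induction i with
  | zero =>
    rw [pow_zero, prod_range_zero, one_mul]
    exact DFunLike.congr_fun (Algebra.TensorProduct.map_id (R := k) (S := k) (A := S) (B := A)) Y
  | succ i ih =>
    rw [pow_succ, show fr k S ^ i * fr k S = (fr k S ^ i).comp (fr k S) from rfl, ← mp_comp, h, map_mul, ih, prod_range_succ]
    ring

theorem Nm_tower (α β : A) {E E' : Type} [Field E] [Fintype E] [Algebra k E] [Field E'] [Fintype E']
    [Algebra k E'] [Algebra E E'] [IsScalarTower k E E'] (x : E) :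
    Nm k α β E' (algebraMap E E' x) =
      mp A (IsScalarTower.toAlgHom k E E') (Nm k α β E x) ^ finrank E E' := by
  rw [Nm, Nm, ← finrank_mul_finrank k E E', prod_per _ _ fun i => ?_, map_prod]
  · simp [mp_tmul]
  · rw [pow_add, pow_mul, ← card_eq_pow_finrank, ← map_pow, ← map_pow, FiniteField.pow_card,
      map_pow]

theorem Nm_map (α β : A) {E Ω : Type} [Field E] [Algebra k E] [CommRing Ω] [Algebra k Ω]
    (s : E →ₐ[k] Ω) (x : E) : mp A s (Nm k α β E x) =
      ∏ l ∈ range (finrank k E), mp A (fr k Ω ^ l) (1 ⊗ₜ α - s x ⊗ₜ β) := by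
  simp [Nm, mp_tmul, fr_pow]

/-- Degrees of the coefficient vectors. -/
def DD (q : ℕ) : ℕ → ℕ
  | 0 => 0
  | i + 1 => q * DD q i + 1

theorem DD_mono {q : ℕ} (hq : 1 ≤ q) : Monotone (DD q) :=
  monotone_nat_of_le_succ fun i => by
    have := Nat.le_mul_of_pos_left (DD q i) hq
    simp only [DD]
    omega

theorem vv_deg {n : ℕ} (b : Basis (Fin n) k A) {E : Type} [Field E] [Algebra k E]
    (m₀ m₁ : E ⊗[k] A) (v : Fin n → E) (i : ℕ) (j : Fin n) :
    (vv b (mp A CAlgHom m₀ - (X : E[X]) • mp A CAlgHom m₁) (fun l => C (v l)) i j).natDegree ≤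
      DD (Fintype.card k) i := by
  induction i generalizing j with
  | zero => simp [vv]
  | succ i ih =>
    simp only [vv, pr_apply, DD]
    refine natDegree_sum_le_of_forall_le _ _ fun l _ => natDegree_mul_le.trans
      (add_le_add (natDegree_pow_le.trans (Nat.mul_le_mul_left _ (ih l))) ?_)
    have e : (Algebra.TensorProduct.basis E[X] b j) = mp A CAlgHom ((1 : E) ⊗ₜ b j) := by
      simp [mp_tmul]
    rw [e, sub_mul, smul_mul_assoc, ← map_mul, ← map_mul, map_sub, map_smul, Finsupp.sub_apply,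
      Finsupp.smul_apply, co_mp, co_mp]
    refine (natDegree_sub_le _ _).trans (max_le (by simp) (natDegree_mul_le.trans (by simp)))

/-- The component of the cover through a given point. -/
theorem comp {n : ℕ} (hn : 0 < n) (b : Basis (Fin n) k A) [Fintype A] (α β : A) {E : Type}
    [Field E] [Fintype E] [Algebra k E] (hE : n ≤ finrank k E) (x₀ : E) (σ : Aˣ)
    (h₀ : Nm k α β E x₀ = 1 ⊗ₜ (σ : A)) :
    ∃ (M : E[X][X]) (κ : E[X]) (H : Submonoid A), M.Monic ∧ Prime M ∧ M.natDegree = Nat.card H ∧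
      (∀ i, (M.coeff i).natDegree ≤ (Fintype.card k ^ n + 2) * (n * DD (Fintype.card k) n)) ∧
      κ ≠ 0 ∧ κ.natDegree ≤ (Fintype.card k ^ n + 2) * (n * DD (Fintype.card k) n) ∧
      ∀ (E' : Type) [Field E'] [Fintype E'] [Algebra k E'] [Algebra E E'] [IsScalarTower k E E']
        (x : E') (a : A), aeval x κ ≠ 0 → Nm k α β E' x = 1 ⊗ₜ a →
        a * ((σ⁻¹ : Aˣ) : A) ^ finrank E E' ∈ H ∧
        ∃ ρ : A → AlgebraicClosure E', Function.Injective ρ ∧
          (∀ h, ρ h ^ Fintype.card E' = ρ (h * (a * ((σ⁻¹ : Aˣ) : A) ^ finrank E E'))) ∧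
          ∀ h ∈ H, M.eval₂ ((algebraMap E' _).comp (aeval x : E[X] →ₐ[E] E')) (ρ h) = 0 ∧
            (derivative M).eval₂ ((algebraMap E' _).comp (aeval x : E[X] →ₐ[E] E')) (ρ h) ≠ 0 := by
  obtain ⟨v₀, hv₀⟩ := exists_linearIndependent_of_le_finrank hE
  have hσ : ((1 : E) ⊗ₜ[k] (σ : A)) * 1 ⊗ₜ ((σ⁻¹ : Aˣ) : A) = 1 := by
    rw [Algebra.TensorProduct.tmul_mul_tmul, one_mul, Units.mul_inv]; rfl
  obtain ⟨u, hu⟩ : ∃ u : E ⊗[k] A, (1 ⊗ₜ α - x₀ ⊗ₜ β) * u = 1 := by
    have h1 : ((1 : E) ⊗ₜ[k] α - x₀ ⊗ₜ[k] β) ∣ Nm k α β E x₀ := by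
      simpa [Nm] using dvd_prod_of_mem (fun i => (1 : E) ⊗ₜ[k] α -
        (x₀ ^ Fintype.card k ^ i) ⊗ₜ[k] β) (mem_range.2 (hn.trans_le hE))
    exact (isUnit_of_dvd_unit h1 (h₀ ▸ IsUnit.of_mul_eq_one _ hσ)).exists_right_inv
  set m : E[X] ⊗[k] A := mp A CAlgHom (1 ⊗ₜ α * u) - (X : E[X]) • mp A CAlgHom (1 ⊗ₜ β * u)
    with hm
  set v : Fin n → E[X] := fun l => C (v₀ l) with hv
  set c := (VM b m v).det with hc
  set q := Fintype.card k with hq
  have q1 : 1 ≤ q := Fintype.card_pos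
  have mj : ∀ (Ω : Type) [CommRing Ω] [Algebra k Ω] (j : E[X] →ₐ[k] Ω),
      mp A j m = (1 ⊗ₜ α - j X ⊗ₜ β) * mp A (j.comp CAlgHom) u := fun Ω _ _ j => by
    rw [hm, Algebra.smul_def, Algebra.TensorProduct.algebraMap_apply, map_sub, map_mul (mp A j),
      mp_comp, mp_comp, map_mul, map_mul, mp_tmul, mp_tmul, mp_tmul, map_one, sub_mul, ← mul_assoc,
      Algebra.TensorProduct.tmul_mul_tmul]
    simp
  -- degrees
  have d1 : ∀ i ≤ n, ∀ j, (vv b m v i j).natDegree ≤ DD q n := fun i hi j =>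
    (vv_deg b _ _ v₀ i j).trans (DD_mono q1 hi)
  have d2 : c.natDegree ≤ n * DD q n := det_deg _ fun i j => d1 i i.2.le j
  have d3 : ∀ i, (bc b m v i).natDegree ≤ n * DD q n := fun i => det_deg _ fun r j => by
    rw [updateRow_apply]
    split_ifs
    exacts [d1 n le_rfl j, d1 r r.2.le j]
  have d4 : ∀ i e, e ≤ q ^ n → (bc b m v i * c ^ e).natDegree ≤ (q ^ n + 1) * (n * DD q n) :=
    fun i e he => natDegree_mul_le.trans (by
      have := (natDegree_pow_le (p := c) (n := e)).trans (Nat.mul_le_mul he d2)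
      have := d3 i
      rw [add_one_mul]
      omega)
  have d5 : ∀ i, ((Psi b m v).coeff i).natDegree ≤ (q ^ n + 2) * (n * DD q n) := fun i => by
    rw [Psi, coeff_sub, finsetSum_coeff]
    refine (natDegree_sub_le _ _).trans (max_le ?_ (natDegree_sum_le_of_forall_le _ _ fun l _ => ?_))
    · rw [coeff_X_pow]; split_ifs <;> simp
    · rw [coeff_C_mul, coeff_X_pow]
      split_ifs
      · rw [mul_one]
        exact (d4 l _ ((Nat.sub_le _ _).trans (Nat.sub_le _ _))).trans (Nat.mul_le_mul_right _ (by omega))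
      · simp
  -- the base point
  let j₀ : E[X] →ₐ[k] E := (aeval x₀ : E[X] →ₐ[E] E).restrictScalars k
  have m0 : mp A j₀ m = 1 := by
    have : j₀.comp CAlgHom = AlgHom.id k E := AlgHom.ext fun a => by simp [j₀]
    rw [mj, this, show mp A (AlgHom.id k E) u = u from
      DFunLike.congr_fun (Algebra.TensorProduct.map_id (R := k) (S := k) (A := E) (B := A)) u]
    simpa [j₀] using hu
  have v0 : (fun l => j₀ (v l)) = v₀ := _root_.funext fun l => by simp [j₀, hv]
  have c0 : j₀ c = (VM b 1 v₀).det := by rw [hc, VM_map, m0, v0]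
  have c1 : j₀ c ≠ 0 := c0 ▸ moore b hv₀
  obtain ⟨P1, P2⟩ := Psi_monic b m v
  obtain ⟨M, M1, M2, M3, M4⟩ := exists_factor
    (eval₂RingHom (j₀ : E[X] →+* E) (j₀ c * pr b v₀ 1)) P1 (by
      rw [coe_eval₂RingHom, ← eval_map, Psi_map, m0, v0, c0]
      exact sol_one.root b v₀)
  rw [coe_eval₂RingHom] at M4
  obtain ⟨R, _, _, _, ι, y, r1, r2, r3⟩ := exists_gen (k := k) M2 (c := c) fun e => c1 (by
    have := congrArg (AdjoinRoot.lift _ _ M4) e
    rwa [AdjoinRoot.lift_of, map_zero] at this)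
  have cR : ι c = (VM b (mp A ι m) fun l => ι (v l)).det := VM_map b ι m v
  obtain ⟨W, w1, w2⟩ := exists_sol b hn (cR ▸ r1) (y := y) (by
    obtain ⟨N, hN⟩ := M3
    rw [← Psi_map, eval_map, hN, eval₂_mul, r2, zero_mul])
  rw [← cR] at w2
  set r : A → R := fun a => ι c * pr b (fun l => ι (v l)) (1 ⊗ₜ a * W) with hr
  have r4 : r 1 = y := by rw [← w2, hr]; simp only; rw [← Algebra.TensorProduct.one_def, one_mul]
  have Pr : ∀ (Ω : Type) [CommRing Ω] [Algebra k Ω] (P : R →ₐ[k] Ω) (j : E[X] →ₐ[k] Ω),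
      P.comp ι = j → Sol (mp A j m) (mp A P W) ∧
        ∀ a, P (r a) = j c * pr b (fun l => j (v l)) (1 ⊗ₜ a * mp A P W) := by
    rintro Ω _ _ P _ rfl
    refine ⟨mp_comp ι P m ▸ w1.map P, fun a => ?_⟩
    simp only [hr, map_mul, pr_map, mp_tmul, map_one, AlgHom.comp_apply]
  have one1 : ∀ (Ω : Type) [CommRing Ω] [Algebra k Ω] (Y : Ω ⊗[k] A), 1 ⊗ₜ 1 * Y = Y :=
    fun Ω _ _ Y => by rw [← Algebra.TensorProduct.one_def, one_mul]
  obtain ⟨P₀, p1, p2⟩ := r3 E j₀ _ c1.isUnit M4
  obtain ⟨p3, p4⟩ := Pr E P₀ j₀ p1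
  rw [m0] at p3
  simp only [v0] at p4
  have p5 : mp A P₀ W = 1 := p3.uniq b sol_one (v := v₀) (c0 ▸ c1.isUnit)
    (mul_left_cancel₀ c1 (by rw [← p2, ← r4, p4, one1]))
  have p6 : Function.Injective fun a => P₀ (r a) := fun a a' e => pr_inj b hv₀ (by
    simp only [p4, p5] at e
    exact mul_left_cancel₀ c1 e)
  have ri : Function.Injective r := fun a a' e => p6 (congrArg P₀ e)
  have F1 : (Psi b m v).map (ι : E[X] →+* R) = ∏ a, (X - C (r a)) := by
    rw [Psi_map, Psi_prod b w1 _ (by rw [← cR]; exact ri), ← cR]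
  have F2 := dvd_prod_eq ri (M1.map (ι : E[X] →+* R)) (F1 ▸ Polynomial.map_dvd _ M3)
  simp only [eval_map] at F2
  have hom : ∀ (Ω : Type) [CommRing Ω] [Algebra k Ω] (P : R →ₐ[k] Ω) (j : E[X] →ₐ[k] Ω),
      P.comp ι = j → ∀ (N : E[X][X]), (N.map (ι : E[X] →+* R)).map (P : R →+* Ω) =
        N.map (j : E[X] →+* Ω) := by
    rintro Ω _ _ P _ rfl N
    rw [Polynomial.map_map]; rfl
  have hev : ∀ (Ω : Type) [CommRing Ω] [Algebra k Ω] (P : R →ₐ[k] Ω) (j : E[X] →ₐ[k] Ω),
      P.comp ι = j → ∀ z, M.eval₂ (ι : E[X] →+* R) z = 0 →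
        M.eval₂ (j : E[X] →+* Ω) (P z) = 0 := by
    rintro Ω _ _ P _ rfl z hz
    have := hom_eval₂ M (ι : E[X] →+* R) (P : R →+* Ω) z
    rw [hz, map_zero] at this
    exact this.symm
  let H : Submonoid A :=
    { carrier := {a | M.eval₂ (ι : E[X] →+* R) (r a) = 0}
      one_mem' := by rw [Set.mem_ofPred_eq, r4, r2]
      mul_mem' := fun {a a'} ha ha' => by
        obtain ⟨P, e1, e2⟩ := r3 R ι (r a') r1 ha'
        obtain ⟨e3, e4⟩ := Pr R P ι e1
        have e5 : mp A P W = 1 ⊗ₜ a' * W := e3.uniq b (w1.mul a') (cR ▸ r1)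
          (r1.mul_left_cancel (by rw [← one1 R (mp A P W), ← e4, r4, e2]))
        have e6 : P (r a) = r (a * a') := by
          rw [e4, e5, ← mul_assoc, Algebra.TensorProduct.tmul_mul_tmul, one_mul]
        rw [Set.mem_ofPred_eq, ← e6]
        exact hev R P ι e1 _ ha }
  set κ₀ := -(bc b m v ⟨0, hn⟩ * c ^ (q ^ n - 1 - 1)) with hκ₀
  have D1 : derivative (Psi b m v) = C κ₀ := Psi_deriv b hn m v
  have F3 : ∀ (Ω : Type) [CommRing Ω] [Algebra k Ω] (P : R →ₐ[k] Ω) (j : E[X] →ₐ[k] Ω),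
      P.comp ι = j → (Psi b m v).map (j : E[X] →+* Ω) = ∏ a, (X - C (P (r a))) :=
    fun Ω _ _ P j e => by
      rw [← hom Ω P j e, F1, Polynomial.map_prod]
      simp
  have k0 : j₀ κ₀ ≠ 0 := fun e => by
    have h1 := separable_prod_X_sub_C_iff.2 p6
    rw [← F3 E P₀ j₀ p1, separable_def, derivative_map, D1, map_C, RingHom.coe_coe, e, C_0,
      isCoprime_zero_right] at h1
    have h2 := natDegree_eq_zero_of_isUnit h1
    rw [P1.natDegree_map, P2] at h2
    exact (pow_pos q1 n).ne' h2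
  refine ⟨M, c * κ₀, H, M1, M2, ?_, coeff_deg_of_dvd M3 P1.ne_zero d5,
    fun e => mul_ne_zero c1 k0 (by rw [← map_mul, e, map_zero]), ?_, ?_⟩
  · rw [← M1.natDegree_map (ι : E[X] →+* R), F2,
      natDegree_prod_of_monic _ _ fun a _ => monic_X_sub_C _, Nat.card_eq_fintype_card,
      Fintype.card_subtype]
    simp only [natDegree_X_sub_C, sum_const, smul_eq_mul, mul_one]
    congr
  · refine natDegree_mul_le.trans ?_
    have := d4 ⟨0, hn⟩ (q ^ n - 1 - 1) (by omega)
    rw [hκ₀, natDegree_neg, show q ^ n + 2 = q ^ n + 1 + 1 by ring, add_one_mul (q ^ n + 1)]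
    omega
  intro E' _ _ _ _ _ x a hx ha
  let Ω := AlgebraicClosure E'
  let s : E' →ₐ[k] Ω := IsScalarTower.toAlgHom k E' Ω
  let t : E →ₐ[k] E' := IsScalarTower.toAlgHom k E E'
  let j : E[X] →ₐ[k] Ω := s.comp ((aeval x : E[X] →ₐ[E] E').restrictScalars k)
  have hj : ∀ f, j f = algebraMap E' Ω (aeval x f) := fun f => rfl
  have x1 : j c ≠ 0 ∧ j κ₀ ≠ 0 := by
    rw [← mul_ne_zero_iff, ← map_mul, hj]
    exact (_root_.map_ne_zero _).2 hx
  obtain ⟨z, hz⟩ := IsAlgClosed.exists_root (M.map (j : E[X] →+* Ω)) (by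
    rw [M1.degree_map]
    exact fun e => M2.not_isUnit (M1.degree_le_zero_iff_eq_one.1 e.le ▸ isUnit_one))
  rw [IsRoot, eval_map] at hz
  obtain ⟨P, e1, e2⟩ := r3 Ω j z x1.1.isUnit hz
  obtain ⟨e3, -⟩ := Pr Ω P j e1
  have inj : Function.Injective fun h => P (r h) := separable_prod_X_sub_C_iff.1 (by
    rw [← F3 Ω P j e1, separable_def, derivative_map, D1, map_C]
    exact (isCoprime_one_right).of_isCoprime_of_dvd_right (isUnit_C.2 x1.2.isUnit).dvd)
  set F := fr k Ω ^ finrank k E' with hF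
  have f1 : ∀ w, F w = w ^ Fintype.card E' := fun w => by
    rw [hF, fr_pow, ← card_eq_pow_finrank]
  have f2 : (F.comp P).comp ι = j := by
    rw [AlgHom.comp_assoc, e1]
    exact AlgHom.ext fun f => by
      rw [AlgHom.comp_apply, f1, hj, ← map_pow, FiniteField.pow_card]
  set a' := a * ((σ⁻¹ : Aˣ) : A) ^ finrank E E' with ha'
  have f3 : mp A F (mp A P W) = 1 ⊗ₜ a' * mp A P W := by
    rw [hF, e3.iter, mj]
    congr 1
    have g1 := Nm_map α β s x
    have g2 := Nm_map α β s (algebraMap E E' x₀)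
    rw [ha, mp_tmul, map_one] at g1
    rw [Nm_tower, h₀, mp_tmul, map_pow, mp_tmul, map_one, map_one,
      Algebra.TensorProduct.tmul_pow, one_pow] at g2
    have g3 : j.comp CAlgHom = s.comp t := AlgHom.ext fun e => by simp [j, s, t]
    have g4 : (1 ⊗ₜ α - s (algebraMap E E' x₀) ⊗ₜ β) * mp A (s.comp t) u = 1 := by
      simpa [mp_tmul, t] using congrArg (mp A (s.comp t)) hu
    have g5 : (1 : Ω) ⊗ₜ[k] ((σ : A) ^ finrank E E') *
        ∏ l ∈ range (finrank k E'), mp A (fr k Ω ^ l) (mp A (s.comp t) u) = 1 := by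
      rw [g2, ← prod_mul_distrib]
      exact prod_eq_one fun l _ => by rw [← map_mul, g4, map_one]
    have g6 : j X = s x := by simp [j]
    simp only [map_mul, prod_mul_distrib, g3, g6]
    rw [← g1, ← mul_one (_ ⊗ₜ a'), ← g5, ← mul_assoc, Algebra.TensorProduct.tmul_mul_tmul, ha',
      mul_assoc a, ← mul_pow, Units.inv_mul, one_pow, mul_one, mul_one]
  have f4 : ∀ h, P (r h) ^ Fintype.card E' = P (r (h * a')) := fun h => by
    rw [← f1, ← AlgHom.comp_apply, (Pr Ω _ j f2).2, (Pr Ω P j e1).2, ← mp_comp, f3, ← mul_assoc,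
      Algebra.TensorProduct.tmul_mul_tmul, one_mul]
  refine ⟨?_, fun h => P (r h), inj, f4, fun h hh => ⟨hev Ω P j e1 _ hh, fun e => x1.2 ?_⟩⟩
  · have g1 := hev Ω _ j f2 y r2
    rw [AlgHom.comp_apply, f1, ← r4, f4, one_mul, ← eval_map, ← hom Ω P j e1, F2,
      Polynomial.map_prod, eval_prod, prod_eq_zero_iff] at g1
    obtain ⟨h, h1, h2⟩ := g1
    simp only [Polynomial.map_sub, map_X, map_C, eval_sub, eval_X, eval_C, sub_eq_zero] at h2
    rw [inj h2]
    exact (mem_filter.1 h1).2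
  · obtain ⟨N, hN⟩ := M3
    have g1 := congrArg (eval₂ (j : E[X] →+* Ω) (P (r h))) D1
    rw [hN, derivative_mul, eval₂_add, eval₂_mul, eval₂_mul, hev Ω P j e1 _ hh, zero_mul, add_zero,
      eval₂_C] at g1
    exact g1.symm.trans (mul_eq_zero_of_left e _)

end L5

variable {k A : Type} [Field k] [Fintype k] [CommRing A] [Algebra k A]

open L5 in
/-- **Core estimate.** -/
theorem core5 (α β : A) [Module.Finite k A] [Nontrivial A] : ∃ C : ℕ,
    ∀ (E : Type) [Field E] [Fintype E] [Algebra k E] (p μ ν : ℕ) [Fact p.Prime] [CharP E p],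
      ν = p ^ μ → Fintype.card E = ν * ν → finrank k A ≤ finrank k E →
      ∀ (x₀ : E) (σ : Aˣ), Nm k α β E x₀ = 1 ⊗ₜ (σ : A) →
      ∃ H : Submonoid A,
        Nat.card H * #{x : E | Nm k α β E x = 1 ⊗ₜ (σ : A)} ≤ ν * ν + C * ν ∧
        ∀ (E' : Type) [Field E'] [Fintype E'] [Algebra k E'] [Algebra E E'] [IsScalarTower k E E'],
          #{x : E' | ∃ a : A, Nm k α β E' x = 1 ⊗ₜ a ∧
            a * ((σ⁻¹ : Aˣ) : A) ^ finrank E E' ∉ H} ≤ C := by
  have : Finite A := Module.finite_of_finite k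
  let _ : Fintype A := Fintype.ofFinite A
  set n := finrank k A with hn
  set δ := (Fintype.card k ^ n + 2) * (n * DD (Fintype.card k) n) with hδ
  choose B hB using fun e => MP_1609a8_nt.H76.count (e + 1) 1 δ e.succ_pos one_pos
    (Nat.coprime_one_left _)
  refine ⟨∑ e ∈ range (Fintype.card A), B e + Fintype.card A * δ + δ, ?_⟩
  intro E _ _ _ p μ ν _ _ hν hQ hE x₀ σ h₀
  obtain ⟨M, κ, H, M1, M2, M3, M4, k1, k2, h⟩ :=
    comp (finrank_pos (R := k) (M := A)) (Module.finBasis k A) α β hE x₀ σ h₀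
  have bad : ∀ (E' : Type) [Field E'] [Fintype E'] [Algebra E E'],
      #{x : E' | aeval x κ = 0} ≤ δ := fun E' _ _ _ => by
    refine le_trans (card_le_card (t := (κ.aroots E').toFinset) fun x hx => ?_)
      ((Multiset.toFinset_card_le _).trans ((card_roots' _).trans (natDegree_map_le.trans k2)))
    rw [Multiset.mem_toFinset, mem_aroots]
    exact ⟨k1, (mem_filter.1 hx).2⟩
  refine ⟨H, ?_, fun E' _ _ _ _ _ => le_trans (card_le_card fun x hx => ?_)
    ((bad E').trans (Nat.le_add_left _ _))⟩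
  swap
  · obtain ⟨a, h1, h2⟩ := ((@mem_filter _ _ (_) _ _).1 hx).2
    exact mem_filter.2 ⟨mem_univ _, by_contra fun e => h2 (h E' x a e h1).1⟩
  obtain ⟨e, he⟩ : ∃ e, Nat.card H = e + 1 := ⟨Nat.card H - 1, by
    have : 0 < Nat.card H := Nat.card_pos
    omega⟩
  have he2 : e + 1 ≤ Fintype.card A := by
    rw [← he, ← Nat.card_eq_fintype_card]
    exact Nat.card_le_card_of_injective _ Subtype.val_injective
  set T := ({x : E | Nm k α β E x = 1 ⊗ₜ (σ : A)} : Finset E) with hT
  have h1 := hB e E p μ ν M 1 1 (T.filter fun x => aeval x κ ≠ 0) hν hQ M1 (M3.trans he) M4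
    (by simp) (fun g g1 g2 g3 => ?_) (fun _ _ _ => one_dvd _) IsPrimitiveRoot.one
    (fun x hx => ?_) fun x _ => ⟨1, one_ne_zero, by simp⟩
  · have h2 : #T ≤ #(T.filter fun x => aeval x κ ≠ 0) + δ := by
      rw [← card_filter_add_card_filter_not (s := T) fun x => aeval x κ ≠ 0]
      refine Nat.add_le_add_left (le_trans (card_le_card fun x hx => ?_) (bad E)) _
      exact mem_filter.2 ⟨mem_univ _, not_not.1 (mem_filter.1 hx).2⟩
    have h3 : B e ≤ ∑ e ∈ range (Fintype.card A), B e :=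
      single_le_sum (fun _ _ => Nat.zero_le _) (mem_range.2 he2)
    have h4 : 1 ≤ ν := hν ▸ Nat.one_le_pow _ _ (Fact.out : p.Prime).pos
    have h5 := Nat.mul_le_mul_left (e + 1) h2
    have h6 : (e + 1) * δ ≤ Fintype.card A * δ * ν :=
      (Nat.mul_le_mul_right _ he2).trans (Nat.le_mul_of_pos_right _ h4)
    have h7 := Nat.mul_le_mul_right ν h3
    rw [he, add_mul _ δ, add_mul _ (_ * δ)]
    rw [mul_one] at h1
    rw [mul_add] at h5
    omega
  · have hi := (M1.irreducible_iff_irreducible_map_fraction_map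
      (K := FractionRing E[X])).1 M2.irreducible
    have := natDegree_le_of_dvd (((hi.dvd_iff.1 g2).resolve_left
      (not_isUnit_of_natDegree_pos g g3)).dvd) g1.ne_zero
    rwa [M1.natDegree_map, M3, he] at this
  · obtain ⟨x1, x2⟩ := mem_filter.1 hx
    obtain ⟨-, ρ, r1, r2, r3⟩ := h E x σ x2 (mem_filter.1 x1).2
    simp only [finrank_self, pow_one, Units.mul_inv, mul_one] at r2
    choose w hw using fun h => mem_range_of_pow (r2 h)
    have ev : ∀ (N : E[X][X]) (z : E), N.eval₂ ((algebraMap E (AlgebraicClosure E)).comp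
        (aeval x : E[X] →ₐ[E] E)) (algebraMap E _ z) =
        algebraMap E _ (N.eval₂ (evalRingHom x) z) := fun N z => by
      rw [hom_eval₂]
      congr 2
    refine ⟨(univ.filter (· ∈ H)).image w, ?_, fun y hy => ?_⟩
    · rw [card_image_of_injective _ fun a a' e => r1 (by rw [← hw, ← hw, e]), ← he,
        Nat.card_eq_fintype_card, Fintype.card_subtype]
    · obtain ⟨a, ha, rfl⟩ := mem_image.1 hy
      obtain ⟨s1, s2⟩ := r3 a (mem_filter.1 ha).2
      rw [← hw, ev] at s1 s2
      exact ⟨(_root_.map_eq_zero _).1 s1, fun e => s2 (by rw [e, map_zero])⟩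

end Pool.Agent.MP_2033ac_nt.SI
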