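import Pool.Agent.MP_2033ac_nt.SI.Defs
import Pool.Agent.MP_f0209c_nt.FF.P3
import Pool.Agent.MP_2033ac_nt.SI.P1

/-! The Riemann hypothesis for Hayes characters and the variance of the weight. -/

set_option autoImplicit false

open Polynomial Finset Filter
open scoped Classical BigOperators

noncomputable section
namespace Pool.Agent.MP_2033ac_nt.SI
open Pool.Agent.MP_a4a062_nt.C2 Pool.Agent.MP_f0209c_nt.FF
open Pool.Agent.MP_1609a8_nt.H76 (ch)

section RowHM_
variable {k : Type} [Field k] [Fintype k]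

section RowHM

theorem hm_ev {R S : Type} [CommRing R] [CommRing S] (φ : R →+* S) (a b : S) (f : R[X]) (n : ℕ) :
    MvPolynomial.eval₂Hom φ ![a, b] (f.homogenize n) =
      ∑ i ∈ range (n + 1), φ (f.coeff i) * a ^ i * b ^ (n - i) := by
  rw [homogenize, map_sum, Finset.Nat.sum_antidiagonal_eq_sum_range_succ_mk]
  refine sum_congr rfl fun i _ => ?_
  rw [MvPolynomial.eval₂Hom_monomial, Finsupp.prod_fintype _ _ (by simp), Fin.prod_univ_two]
  simp [mul_assoc]

omit [Fintype k] in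
theorem hm_eq {A : Type} [CommRing A] [Algebra k A] (α β : A) (f : k[X]) :
    hm α β f = MvPolynomial.eval₂Hom (algebraMap k A) ![α, β] (f.homogenize f.natDegree) := by
  rw [hm_ev, hm]

theorem hm_mul {A : Type} [CommRing A] [Algebra k A] (α β : A) {f g : k[X]} (hf : f.Monic)
    (hg : g.Monic) : hm α β (f * g) = hm α β f * hm α β g := by
  rw [hm_eq, hm_eq, hm_eq, hf.natDegree_mul hg, homogenize_mul _ _ le_rfl le_rfl, map_mul]

theorem hm_one {A : Type} [CommRing A] [Algebra k A] (α β : A) : hm α β (1 : k[X]) = 1 := by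
  simp [hm]

theorem hm_pow {A : Type} [CommRing A] [Algebra k A] (α β : A) {f : k[X]} (hf : f.Monic) (n : ℕ) :
    hm α β (f ^ n) = hm α β f ^ n := by
  induction n with
  | zero => rw [pow_zero, pow_zero, hm_one]
  | succ n ih => rw [pow_succ, pow_succ, hm_mul α β (hf.pow n) hf, ih]

theorem hm_ch {A S E : Type} [CommRing A] [Algebra k A] [CommRing S] [Algebra k S] [Field E]
    [Fintype E] [Algebra k E] (i : A →ₐ[k] S) (j : E →ₐ[k] S) (α β : A) (x : E) :
    i (hm α β (ch k x)) =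
      ∏ n ∈ range (Module.finrank k E), (i α - j (x ^ Fintype.card k ^ n) * i β) := by
  have hd := (Pool.Agent.MP_1609a8_nt.H76.mem_Mon.1
    (Pool.Agent.MP_1609a8_nt.H76.ch_mem (K := k) x)).2
  have e : i (hm α β (ch k x)) = MvPolynomial.eval₂Hom (j : E →+* S) ![i α, i β]
      (((ch k x).map (algebraMap k E)).homogenize (Module.finrank k E)) := by
    rw [hm_ev, hm, hd, map_sum]
    refine sum_congr rfl fun n _ => ?_
    simp [coeff_map]
  rw [e, Pool.Agent.MP_1609a8_nt.H76.ch_map]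
  have h := homogenize_finsetProd (s := range (Module.finrank k E))
    (p := fun n => X - C (x ^ Fintype.card k ^ n)) (n := fun _ => 1)
    (fun n _ => (natDegree_X_sub_C _).le)
  rw [sum_const, card_range, smul_eq_mul, mul_one] at h
  rw [h, map_prod]
  refine prod_congr rfl fun n _ => ?_
  rw [homogenize_sub, homogenize_X one_ne_zero, homogenize_C]
  simp

theorem hm_tower {A E E' : Type} [CommRing A] [Algebra k A] [Field E] [Fintype E] [Algebra k E]
    [Field E'] [Fintype E'] [Algebra k E'] [Algebra E E'] [IsScalarTower k E E'] (α β : A) (x : E) :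
    hm α β (ch k (algebraMap E E' x)) = hm α β (ch k x) ^ Module.finrank E E' := by
  have hi := Pool.Agent.MP_1609a8_nt.H76.mp_int (K := k) x
  have hm1 := (Pool.Agent.MP_1609a8_nt.H76.mem_Mon.1
    (Pool.Agent.MP_1609a8_nt.H76.ch_mem (K := k) x)).1
  rw [← hm_pow α β hm1]
  congr 1
  unfold Pool.Agent.MP_1609a8_nt.H76.ch
  rw [minpoly.algebraMap_eq (algebraMap E E').injective, ← pow_mul,
    ← Module.finrank_mul_finrank k E E', mul_comm, mul_comm _ (Module.finrank E E'),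
    Nat.mul_div_assoc _ (minpoly.degree_dvd hi)]

end RowHM

end RowHM_

section RowLFN_
variable {k : Type} [Field k] [Fintype k]

section LFN
open Pool.Agent.MP_1609a8_nt.H76 (Mon mem_Mon newton' recur powsum' fib mp_int)

theorem lfn_mon (n : ℕ) : mon k n = Mon k n := by
  ext f; rw [mem_mon, mem_Mon]

theorem lfn_congr {E E' : Type} [Field E] [Fintype E] [Algebra k E] [Field E'] [Fintype E']
    [Algebra k E'] (h : Module.finrank k E = Module.finrank k E') (l : k[X] → ℂ) :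
    ∑ x : E, l (ch k x) = ∑ x : E', l (ch k x) := by
  obtain ⟨φ⟩ := FiniteField.nonempty_algHom_of_finrank_dvd (F := k) (K := E) (L := E') h.dvd
  have hi : Function.Injective φ := φ.toRingHom.injective
  have hb : Function.Bijective φ := (Fintype.bijective_iff_injective_and_card φ).2 ⟨hi, by
    rw [Module.card_eq_pow_finrank (K := k), Module.card_eq_pow_finrank (K := k) (V := E'), h]⟩
  refine Fintype.sum_bijective φ hb _ _ fun x => ?_
  rw [ch, ch, minpoly.algHom_eq φ hi, h]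

theorem lfn (l : k[X] →* ℂ) (N₀ : ℕ) (hz : ∀ N, N₀ ≤ N → ∑ f ∈ mon k N, l f = 0) :
    ∃ ω : Multiset ℂ, ω.card ≤ N₀ - 1 ∧ ∀ (E : Type) [Field E] [Fintype E] [Algebra k E],
      ∑ x : E, l (ch k x) = -(ω.map (· ^ Module.finrank k E)).sum := by
  simp only [lfn_mon] at hz
  obtain ⟨p, hp⟩ := CharP.exists k
  have : Fact p.Prime := ⟨CharP.char_is_prime k p⟩
  obtain ⟨F, _, _, _, hF⟩ : ∃ (F : ℕ → Type) (_ : ∀ r, Field (F r)) (_ : ∀ r, Fintype (F r))
      (_ : ∀ r, Algebra k (F r)), ∀ r, Module.finrank k (F r) = r + 1 :=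
    ⟨fun r => FiniteField.Extension k p (r + 1), inferInstance, fun _ => Fintype.ofFinite _,
      inferInstance, fun r => FiniteField.finrank_extension k p (r + 1)⟩
  have a0 : Mon k 0 = {1} := by
    ext g
    simp +contextual [mem_Mon, iff_def, Monic.natDegree_eq_zero]
  obtain ⟨ω, w1, w2⟩ := newton' (fun n => ∑ g ∈ Mon k n, l g) (fun r => ∑ x : F r, l (ch k x))
    N₀ (by simp [a0]) hz (recur hF l)
  refine ⟨ω, w1, fun E _ _ _ => ?_⟩
  have h0 : 0 < Module.finrank k E := Module.finrank_pos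
  obtain ⟨r, hr⟩ : ∃ r, Module.finrank k E = r + 1 := ⟨_, (Nat.succ_pred_eq_of_pos h0).symm⟩
  rw [lfn_congr (E' := F r) (hr.trans (hF r).symm), hr]
  exact w2 r

theorem contra (ω : Multiset ℂ) (z : ℂ) (B : ℝ)
    (h : ∀ s : ℕ, ‖-(ω.map (· ^ (s + 1))).sum - z ^ (s + 1)‖ ≤ B) : ‖z‖ ≤ 1 := by
  refine powsum' (z ::ₘ ω) B (fun s => ?_) _ (Multiset.mem_cons_self _ _)
  rw [Multiset.map_cons, Multiset.sum_cons, ← norm_neg, neg_add_rev, ← sub_eq_add_neg]
  exact h s

theorem lfn_ext0 (s : ℕ) : ∃ (E : Type) (_ : Field E) (_ : Fintype E) (_ : Algebra k E),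
    Module.finrank k E = s + 1 := by
  obtain ⟨p, hp⟩ := CharP.exists k
  have : Fact p.Prime := ⟨CharP.char_is_prime k p⟩
  exact ⟨FiniteField.Extension k p (s + 1), inferInstance, Fintype.ofFinite _, inferInstance,
    FiniteField.finrank_extension k p (s + 1)⟩

theorem lfn_prs (l : k[X] → ℂ) (hl : ∀ f, ‖l f‖ ≤ 1) {e : ℕ} (he : 0 < e) {B : ℝ}
    (H : ∀ (E : Type) [Field E] [Fintype E] [Algebra k E], Module.finrank k E = e →
      ‖∑ x : E, l (ch k x)‖ ≤ B * √(Fintype.card k) ^ e) :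
    (e : ℝ) * ‖∑ P ∈ Mon k e with Irreducible P, l P‖ ≤ (B + e) * √(Fintype.card k) ^ e := by
  obtain ⟨E, _, _, _, hE⟩ := lfn_ext0 (k := k) (e - 1)
  rw [Nat.sub_add_cancel he] at hE
  set R := √(Fintype.card k : ℝ) with hR
  have R1 : 1 < R := Real.lt_sqrt_of_sq_lt (by simpa using Fintype.one_lt_card)
  have h1 : ∑ x : E with (minpoly k x).natDegree = e, l (ch k x) =
      e * ∑ P ∈ Mon k e with Irreducible P, l P := by
    rw [← sum_fiberwise_of_maps_to (t := {P ∈ Mon k e | Irreducible P}) (g := minpoly k)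
      (fun x hx => mem_filter.2 ⟨mem_Mon.2 ⟨minpoly.monic (mp_int x), (mem_filter.1 hx).2⟩,
        minpoly.irreducible (mp_int x)⟩), mul_sum]
    refine sum_congr rfl fun P hP => ?_
    obtain ⟨h2, h3⟩ := mem_filter.1 hP
    obtain ⟨h4, h5⟩ := mem_Mon.1 h2
    have h6 : ({x ∈ ({x | (minpoly k x).natDegree = e} : Finset E) | minpoly k x = P} : Finset E) =
        ({x | minpoly k x = P} : Finset E) := by
      ext x
      simp only [mem_filter, mem_univ, true_and, and_iff_right_iff_imp]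
      rintro rfl; exact h5
    rw [h6, sum_congr rfl (g := fun _ => l P) fun x hx => by
      rw [ch, (mem_filter.1 hx).2, hE, h5, Nat.div_self he, pow_one],
      sum_const, fib h3 h4 (by rw [hE, h5]), h5, nsmul_eq_mul]
  have h2 : (#{x : E | ¬ (minpoly k x).natDegree = e} : ℝ) ≤ e * R ^ e := by
    have h3 : ({x : E | ¬ (minpoly k x).natDegree = e} : Finset E) ⊆
        (Icc 1 (e / 2)).biUnion fun r =>
          ((X ^ Fintype.card k ^ r - X : k[X]).aroots E).toFinset := by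
      intro x hx
      have h4 := minpoly.degree_dvd (mp_int (K := k) x)
      have h5 := minpoly.natDegree_pos (mp_int (K := k) x)
      rw [hE] at h4
      obtain ⟨c, hc⟩ := h4
      have h6 := (mem_filter.1 hx).2
      have h7 : 2 ≤ c := by
        rcases c with _ | _ | c
        · omega
        · omega
        · omega
      refine mem_biUnion.2 ⟨(minpoly k x).natDegree, mem_Icc.2 ⟨h5, ?_⟩, ?_⟩
      · rw [Nat.le_div_iff_mul_le two_pos]
        nlinarith
      · rw [Multiset.mem_toFinset, mem_aroots]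
        refine ⟨FiniteField.X_pow_card_pow_sub_X_ne_zero k h5.ne' Fintype.one_lt_card, ?_⟩
        have := (minpoly.irreducible (mp_int (K := k) x)).natDegree_dvd_iff_dvd_X_pow_card_pow_sub_X.1
          (dvd_refl _)
        rw [Nat.card_eq_fintype_card] at this
        exact aeval_eq_zero_of_dvd_aeval_eq_zero this (minpoly.aeval k x)
    have h4 : ∀ r ∈ Icc 1 (e / 2),
        (#((X ^ Fintype.card k ^ r - X : k[X]).aroots E).toFinset : ℝ) ≤ R ^ e := by
      intro r hr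
      obtain ⟨h5, h6⟩ := mem_Icc.1 hr
      have h7 : #((X ^ Fintype.card k ^ r - X : k[X]).aroots E).toFinset ≤ Fintype.card k ^ r :=
        (Multiset.toFinset_card_le _).trans ((card_roots' _).trans (natDegree_map_le.trans
          (FiniteField.X_pow_card_pow_sub_X_natDegree_eq k (by omega) Fintype.one_lt_card).le))
      calc _ ≤ ((Fintype.card k ^ r : ℕ) : ℝ) := by exact_mod_cast h7
        _ = R ^ (2 * r) := by rw [pow_mul, Real.sq_sqrt (by positivity), Nat.cast_pow]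
        _ ≤ R ^ e := pow_le_pow_right₀ R1.le (by omega)
    calc _ ≤ ((∑ r ∈ Icc 1 (e / 2),
          #((X ^ Fintype.card k ^ r - X : k[X]).aroots E).toFinset : ℕ) : ℝ) := by
          exact_mod_cast (card_le_card h3).trans card_biUnion_le
      _ ≤ #(Icc 1 (e / 2)) • R ^ e := by rw [Nat.cast_sum]; exact sum_le_card_nsmul _ _ _ h4
      _ ≤ _ := by
          rw [nsmul_eq_mul, Nat.card_Icc]
          gcongr
          omega
  have h3 := H E hE
  rw [← sum_filter_add_sum_filter_not univ fun x : E => (minpoly k x).natDegree = e, h1] at h3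
  have h4 : ‖∑ x : E with ¬ (minpoly k x).natDegree = e, l (ch k x)‖ ≤ e * R ^ e :=
    (norm_sum_le _ _).trans ((sum_le_card_nsmul _ _ 1 fun x _ => hl _).trans (by simpa using h2))
  have h5 := norm_sub_le (e * ∑ P ∈ Mon k e with Irreducible P, l P +
    ∑ x : E with ¬ (minpoly k x).natDegree = e, l (ch k x))
    (∑ x : E with ¬ (minpoly k x).natDegree = e, l (ch k x))
  rw [add_sub_cancel_right, norm_mul, Complex.norm_natCast] at h5
  linarith

theorem prs_le (l : k[X] → ℂ) (hl : ∀ f, ‖l f‖ ≤ 1) {e : ℕ} (he : 0 < e) {B : ℝ} (hB : 0 ≤ B)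
    (h : ∀ (E : Type) [Field E] [Fintype E] [Algebra k E], Module.finrank k E = e →
      ‖∑ x : E, l (ch k x)‖ ≤ B * √(Fintype.card E)) :
    ‖∑ P ∈ prs k e, l P‖ ≤ (B + 2) * √(qq k ^ e) := by
  have h0 : √((Fintype.card k : ℝ) ^ e) = √(Fintype.card k : ℝ) ^ e := by
    rw [Real.sqrt_eq_iff_mul_self_eq (by positivity) (by positivity), ← mul_pow,
      Real.mul_self_sqrt (by positivity)]
  have h1 := lfn_prs l hl he (B := B) fun E _ _ _ hE => by
    have := h E hE
    rwa [Module.card_eq_pow_finrank (K := k), hE, Nat.cast_pow, h0] at this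
  rw [prs, lfn_mon, qq, h0]
  have h2 : (1 : ℝ) ≤ e := by exact_mod_cast he
  have h3 : 0 ≤ √(Fintype.card k : ℝ) ^ e := by positivity
  refine le_of_mul_le_mul_left (h1.trans ?_) (by positivity : (0 : ℝ) < e)
  rw [← mul_assoc]
  refine mul_le_mul_of_nonneg_right ?_ h3
  nlinarith

end LFN

end RowLFN_

section RowRHA_
variable {k : Type} [Field k] [Fintype k]

section RHA
open Pool.Agent.MP_1609a8_nt.H76 (mem_Mon ch_mem powsum' grp)

variable {A : Type} [CommRing A]

omit [Fintype k] in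
theorem rha_ext (E : Type) [Field E] [Fintype E] [Algebra k E] (s : ℕ) :
    ∃ (E' : Type) (_ : Field E') (_ : Fintype E') (_ : Algebra k E') (_ : Algebra E E')
      (_ : IsScalarTower k E E'), Module.finrank E E' = s + 1 := by
  obtain ⟨p, hp⟩ := CharP.exists E
  have : Fact p.Prime := ⟨CharP.char_is_prime E p⟩
  let : Algebra k (FiniteField.Extension E p (s + 1)) :=
    ((algebraMap E (FiniteField.Extension E p (s + 1))).comp (algebraMap k E)).toAlgebra
  exact ⟨FiniteField.Extension E p (s + 1), inferInstance, Fintype.ofFinite _, inferInstance,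
    inferInstance, IsScalarTower.of_algebraMap_eq' rfl, FiniteField.finrank_extension E p (s + 1)⟩

theorem rha_ext0 (s : ℕ) : ∃ (E : Type) (_ : Field E) (_ : Fintype E) (_ : Algebra k E),
    Module.finrank k E = s + 1 := by
  obtain ⟨p, hp⟩ := CharP.exists k
  have : Fact p.Prime := ⟨CharP.char_is_prime k p⟩
  exact ⟨FiniteField.Extension k p (s + 1), inferInstance, Fintype.ofFinite _, inferInstance,
    FiniteField.finrank_extension k p (s + 1)⟩

theorem rha_norm [Finite A] (χ : MulChar A ℂ) (a : A) : ‖χ a‖ ≤ 1 := by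
  by_cases h : IsUnit a
  · obtain ⟨u, rfl⟩ := h
    have h1 : χ u ^ orderOf u = 1 := by
      rw [← map_pow, ← Units.val_pow_eq_pow_val, pow_orderOf_eq_one, Units.val_one, map_one]
    exact (Complex.norm_eq_one_of_pow_eq_one h1 (orderOf_pos u).ne').le
  · rw [χ.map_nonunit h]; simp

theorem rha_contra [Finite A] (Gr : Subgroup Aˣ) (cl : k[X] →* A) {n0 B : ℕ}
    (hz : ∀ χ : MulChar A ℂ, (∃ u ∈ Gr, χ (u : Aˣ) ≠ 1) → ∀ n, n0 ≤ n →
      ∑ f ∈ mon k n, χ (cl f) = 0)
    (E : Type) [Field E] [Fintype E] [Algebra k E] (s0 : Aˣ) (H : Submonoid A)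
    (hH : ∀ (E' : Type) [Field E'] [Fintype E'] [Algebra k E'] [Algebra E E']
      [IsScalarTower k E E'], #{x : E' | ¬ IsUnit (cl (ch k x)) ∨
        cl (ch k x) * ((s0⁻¹ : Aˣ) : A) ^ Module.finrank E E' ∉ H} ≤ B) :
    ∀ u ∈ Gr, ((u : Aˣ) : A) ∈ H := by
  intro u hu
  by_contra hn
  let H' : Subgroup Aˣ :=
    { carrier := {w | (w : A) ∈ H}
      mul_mem' := fun ha hb => H.mul_mem ha hb
      one_mem' := H.one_mem
      inv_mem' := fun {w} hw => by
        have h1 : w⁻¹ = w ^ (orderOf w - 1) := by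
          rw [inv_eq_iff_mul_eq_one, ← pow_succ', Nat.sub_add_cancel (orderOf_pos w),
            pow_orderOf_eq_one]
        show ((w⁻¹ : Aˣ) : A) ∈ H
        rw [h1, Units.val_pow_eq_pow_val]
        exact H.pow_mem hw _ }
  have : NeZero (Monoid.exponent Aˣ) := ⟨Monoid.exponent_ne_zero_of_finite⟩
  have : NeZero ((Monoid.exponent Aˣ : ℕ) : ℂ) := ⟨Nat.cast_ne_zero.2 (NeZero.ne _)⟩
  have h1 := (CommGroup.forall_monoidHom_apply_eq_one_iff ℂ H' u).not.2 hn
  push Not at h1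
  obtain ⟨φ, hφ, hφu⟩ := h1
  set χ : MulChar A ℂ := MulChar.ofUnitHom φ with hχ
  have hχu : ∀ w : Aˣ, χ w = φ w := fun w => MulChar.ofUnitHom_coe φ w
  obtain ⟨ω, -, w2⟩ := lfn (χ.toMonoidHom.comp cl) n0 fun n h =>
    hz χ ⟨u, hu, by rw [hχu]; exact fun c => hφu (Units.ext c)⟩ n h
  have hc : ‖χ s0‖ = 1 := by
    have h1 : χ s0 ^ orderOf s0 = 1 := by
      rw [← map_pow, ← Units.val_pow_eq_pow_val, pow_orderOf_eq_one, Units.val_one, map_one]
    exact Complex.norm_eq_one_of_pow_eq_one h1 (orderOf_pos s0).ne'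
  have key := powsum' ((χ s0 * Fintype.card E) ::ₘ ω.map (· ^ Module.finrank k E)) (2 * B)
    (fun s => ?_) _ (Multiset.mem_cons_self _ _)
  · rw [norm_mul, hc, one_mul, Complex.norm_natCast] at key
    exact absurd (Fintype.one_lt_card (α := E)) (not_lt.2 (by exact_mod_cast key))
  obtain ⟨E', _, _, _, _, _, hE'⟩ := rha_ext (k := k) E s
  have h2 := w2 E'
  have h3 := hH E'
  rw [← Module.finrank_mul_finrank k E E', hE'] at h2
  rw [hE'] at h3
  have h4 : (Multiset.map (· ^ (s + 1))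
      ((χ s0 * Fintype.card E) ::ₘ ω.map (· ^ Module.finrank k E))).sum =
      ∑ x : E', (χ s0 ^ (s + 1) - χ (cl (ch k x))) := by
    rw [Multiset.map_cons, Multiset.sum_cons, Multiset.map_map, sum_sub_distrib, sum_const,
      card_univ, Module.card_eq_pow_finrank (K := E) (V := E'), hE', nsmul_eq_mul]
    have h5 : ∑ x : E', χ (cl (ch k x)) = -(ω.map (· ^ (Module.finrank k E * (s + 1)))).sum := h2
    rw [h5, mul_pow]
    simp only [Function.comp_def, ← pow_mul]
    push_cast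
    ring
  rw [h4, ← sum_subset (subset_univ {x : E' | ¬ IsUnit (cl (ch k x)) ∨
        cl (ch k x) * ((s0⁻¹ : Aˣ) : A) ^ (s + 1) ∉ H})]
  · refine (norm_sum_le _ _).trans ((sum_le_card_nsmul _ _ 2 fun x _ => ?_).trans ?_)
    · have := rha_norm χ (cl (ch k x))
      refine (norm_sub_le _ _).trans ?_
      rw [norm_pow, hc, one_pow]
      linarith
    · rw [nsmul_eq_mul, mul_comm]
      gcongr
  · intro x _ hx
    simp only [mem_filter, mem_univ, true_and, not_or, not_not] at hx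
    obtain ⟨⟨w, hw⟩, h6⟩ := hx
    have h7 : φ (w * s0⁻¹ ^ (s + 1)) = 1 := hφ _ (by
      show ((w * s0⁻¹ ^ (s + 1) : Aˣ) : A) ∈ H
      rwa [Units.val_mul, Units.val_pow_eq_pow_val, hw])
    rw [map_mul, map_pow, map_inv, inv_pow, mul_inv_eq_one] at h7
    rw [← hw, hχu, hχu, h7, Units.val_pow_eq_pow_val, sub_self]

theorem rha_even [Finite A] (Gr : Subgroup Aˣ)
    (cl : k[X] →* A) {n0 n1 B : ℕ}
    (hC : ∃ C : ℕ, ∀ (E : Type) [Field E] [Fintype E] [Algebra k E] (ν : ℕ),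
      Fintype.card E = ν * ν → n1 ≤ Module.finrank k E → ∀ (x0 : E) (s0 : Aˣ),
      cl (ch k x0) = s0 → ∃ (H : Submonoid A) (b : ℕ),
        Nat.card H * #{x : E | cl (ch k x) = s0} ≤ ν * ν + C * ν ∧
        ∀ (E' : Type) [Field E'] [Fintype E'] [Algebra k E'] [Algebra E E'] [IsScalarTower k E E'],
          #{x : E' | cl (ch k x) * ((s0⁻¹ : Aˣ) : A) ^ Module.finrank E E' ∉ H} ≤ b)
    (hGr : ∀ f : k[X], f.Monic → ∀ u : Aˣ, (u : A) = cl f → u ∈ Gr)
    (hB : ∀ (E : Type) [Field E] [Fintype E] [Algebra k E],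
      #{x : E | ¬ IsUnit (cl (ch k x))} ≤ B)
    (hz : ∀ χ : MulChar A ℂ, (∃ u ∈ Gr, χ (u : Aˣ) ≠ 1) → ∀ n, n0 ≤ n →
      ∑ f ∈ mon k n, χ (cl f) = 0)
    (χ : MulChar A ℂ) (hχ : ∃ u ∈ Gr, χ (u : Aˣ) ≠ 1) :
    ∃ B' : ℝ, ∀ (E : Type) [Field E] [Fintype E] [Algebra k E], 2 ∣ Module.finrank k E →
      n1 ≤ Module.finrank k E →
      ‖∑ x : E, χ (cl (ch k x))‖ ≤ B' * √(Fintype.card E) := by
  obtain ⟨C, hC⟩ := hC
  refine ⟨C + B, fun E _ _ _ h2 hA => ?_⟩
  obtain ⟨p, hp⟩ := CharP.exists k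
  have : Fact p.Prime := ⟨CharP.char_is_prime k p⟩
  obtain ⟨a, -, ha⟩ := FiniteField.card k p
  obtain ⟨m, hm⟩ := h2
  have hQ : Fintype.card E = p ^ (a * m) * p ^ (a * m) := by
    rw [Module.card_eq_pow_finrank (K := k), ha, hm, ← pow_mul, ← pow_add]
    congr 1; ring
  set ν := p ^ (a * m) with hν
  have : Fintype Gr := Fintype.ofFinite _
  set U : Finset E := {x | IsUnit (cl (ch k x))} with hU
  set v : E → Gr := fun x => if h : IsUnit (cl (ch k x)) then
    ⟨h.unit, hGr _ (mem_Mon.1 (ch_mem x)).1 _ h.unit_spec⟩ else 1 with hv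
  have hvx : ∀ x ∈ U, (((v x : Gr) : Aˣ) : A) = cl (ch k x) := fun x hx => by
    have := (mem_filter.1 hx).2
    simp [hv, this]
  have key := grp (⊥ : Subgroup Gr) ((χ.toMonoidHom.comp (Units.coeHom A)).comp Gr.subtype)
    (fun h hh => by rw [Subgroup.mem_bot.1 hh, map_one]) (fun c => by
      obtain ⟨u, hu, h1⟩ := hχ
      exact h1 (DFunLike.congr_fun c ⟨u, hu⟩)) U v (ν * ν + C * ν) fun g => ?_
  · have h1 : ∑ x : E, χ (cl (ch k x)) = ∑ x ∈ U,
        ((χ.toMonoidHom.comp (Units.coeHom A)).comp Gr.subtype) (v x) := by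
      rw [← sum_subset (subset_univ U)]
      · refine sum_congr rfl fun x hx => ?_
        rw [← hvx x hx]; rfl
      · intro x _ hx
        exact χ.map_nonunit (by simpa [hU] using hx)
    have h3 : #U + #{x : E | ¬ IsUnit (cl (ch k x))} = ν * ν := by
      rw [hU, card_filter_add_card_filter_not, card_univ, hQ]
    have h4 : (ν * ν : ℝ) ≤ #U + B := by
      have := hB E
      exact_mod_cast (by omega : ν * ν ≤ #U + B)
    have h5 : (1 : ℝ) ≤ ν := by
      exact_mod_cast Nat.one_le_pow _ _ (Fact.out : p.Prime).pos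
    rw [h1, hQ, Nat.cast_mul, Real.sqrt_mul_self (by positivity)]
    have h6 : (0 : ℝ) ≤ B := by positivity
    nlinarith
  rcases ({x ∈ U | g / v x ∈ (⊥ : Subgroup Gr)} : Finset E).eq_empty_or_nonempty with h | ⟨x0, h⟩
  · rw [h]; simp; positivity
  have hs : ∀ x ∈ ({x ∈ U | g / v x ∈ (⊥ : Subgroup Gr)} : Finset E),
      cl (ch k x) = (((g : Gr) : Aˣ) : A) := fun x hx => by
    obtain ⟨h1, h3⟩ := mem_filter.1 hx
    rw [Subgroup.mem_bot, div_eq_one] at h3
    rw [h3, hvx x h1]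
  obtain ⟨H, b, h1, h3⟩ := hC E ν hQ hA x0 g (hs x0 h)
  have h4 := rha_contra Gr cl (B := B + b) hz E g H fun E' _ _ _ _ _ => by
    rw [filter_or]
    exact (card_union_le _ _).trans (add_le_add (hB E') (h3 E'))
  have h5 : Nat.card Gr ≤ Nat.card H :=
    Nat.card_le_card_of_injective (fun u : Gr => (⟨((u : Aˣ) : A), h4 u u.2⟩ : H))
      fun u u' e => Subtype.ext (Units.ext (congrArg Subtype.val e))
  rw [Subgroup.index_bot]
  norm_cast
  exact (Nat.mul_le_mul h5 (card_le_card fun x hx =>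
    mem_filter.2 ⟨mem_univ _, hs x hx⟩)).trans h1

theorem rha_main [Finite A] (Gr : Subgroup Aˣ)
    (cl : k[X] →* A) {n0 n1 B : ℕ}
    (hC : ∃ C : ℕ, ∀ (E : Type) [Field E] [Fintype E] [Algebra k E] (ν : ℕ),
      Fintype.card E = ν * ν → n1 ≤ Module.finrank k E → ∀ (x0 : E) (s0 : Aˣ),
      cl (ch k x0) = s0 → ∃ (H : Submonoid A) (b : ℕ),
        Nat.card H * #{x : E | cl (ch k x) = s0} ≤ ν * ν + C * ν ∧
        ∀ (E' : Type) [Field E'] [Fintype E'] [Algebra k E'] [Algebra E E'] [IsScalarTower k E E'],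
          #{x : E' | cl (ch k x) * ((s0⁻¹ : Aˣ) : A) ^ Module.finrank E E' ∉ H} ≤ b)
    (hGr : ∀ f : k[X], f.Monic → ∀ u : Aˣ, (u : A) = cl f → u ∈ Gr)
    (hB : ∀ (E : Type) [Field E] [Fintype E] [Algebra k E],
      #{x : E | ¬ IsUnit (cl (ch k x))} ≤ B)
    (hz : ∀ χ : MulChar A ℂ, (∃ u ∈ Gr, χ (u : Aˣ) ≠ 1) → ∀ n, n0 ≤ n →
      ∑ f ∈ mon k n, χ (cl f) = 0)
    (χ : MulChar A ℂ) (hχ : ∃ u ∈ Gr, χ (u : Aˣ) ≠ 1)
    (E : Type) [Field E] [Fintype E] [Algebra k E] :
    ‖∑ x : E, χ (cl (ch k x))‖ ≤ (n0 - 1 : ℕ) * √(Fintype.card k) ^ Module.finrank k E := by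
  obtain ⟨B', hB'⟩ := rha_even Gr cl hC hGr hB hz χ hχ
  obtain ⟨ω, w1, w2⟩ := lfn (χ.toMonoidHom.comp cl) n0 fun n h => hz χ hχ n h
  set R := √(Fintype.card k : ℝ) with hR
  have R1 : 1 < R := Real.lt_sqrt_of_sq_lt (by simpa using Fintype.one_lt_card)
  set r := 2 * (n1 + 1) with hr
  have w3 := powsum' (ω.map fun w => (w / R) ^ r) B' fun s => by
    obtain ⟨E', _, _, _, hE'⟩ := rha_ext0 (k := k) (r * (s + 1) - 1)
    rw [Nat.sub_add_cancel (Nat.mul_pos (by omega) s.succ_pos)] at hE'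
    have h1 := hB' E' (by rw [hE', hr, mul_assoc]; exact dvd_mul_right _ _)
      (by rw [hE', hr]; nlinarith)
    have h2 : ∑ x : E', χ (cl (ch k x)) = -(ω.map (· ^ Module.finrank k E')).sum := w2 E'
    have hc : (Fintype.card E' : ℝ) = (R ^ (r * (s + 1))) ^ 2 := by
      rw [Module.card_eq_pow_finrank (K := k), hE', ← pow_mul, mul_comm _ 2, pow_mul R 2,
        Real.sq_sqrt (by positivity), Nat.cast_pow]
    rw [h2, hE', norm_neg, hc, Real.sqrt_sq (by positivity), ← div_le_iff₀ (by positivity)] at h1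
    simpa [Multiset.map_map, ← pow_mul, div_pow, Multiset.sum_map_div, abs_of_pos,
      zero_lt_one.trans R1] using h1
  have h5 : ∑ x : E, χ (cl (ch k x)) = -(ω.map (· ^ Module.finrank k E)).sum := w2 E
  rw [h5, norm_neg]
  refine (norm_multiset_sum_le _).trans ((Multiset.sum_le_card_nsmul _
    (R ^ Module.finrank k E) fun y hy => ?_).trans ?_)
  · rw [Multiset.map_map] at hy
    obtain ⟨w, hw, rfl⟩ := Multiset.mem_map.1 hy
    have := w3 _ (Multiset.mem_map_of_mem _ hw)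
    rw [norm_pow, pow_le_one_iff_of_nonneg (norm_nonneg _) (by omega), norm_div, Complex.norm_real,
      Real.norm_of_nonneg (by positivity), div_le_one (by positivity)] at this
    simp only [Function.comp_apply, norm_pow]
    gcongr
  · rw [Multiset.card_map, Multiset.card_map, nsmul_eq_mul]
    gcongr

theorem rha_cl [Algebra k A] (α β : A) :
    ∃ cl : k[X] →* A, ∀ f : k[X], f.Monic → cl f = hm α β f := by
  refine ⟨⟨⟨fun f => if f = 0 then 0 else hm α β (normalize f), by simp [hm_one]⟩, fun f g => ?_⟩,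
    fun f hf => ?_⟩
  · by_cases hf : f = 0
    · simp [hf]
    by_cases hg : g = 0
    · simp [hg]
    simp only [mul_eq_zero, hf, hg, or_self, if_false]
    rw [normalize_mul, hm_mul _ _ (monic_normalize hf) (monic_normalize hg)]
  · simp [hf.ne_zero, hf.normalize_eq_self]

theorem rha_core [Algebra k A] [Fintype A] [Nontrivial A] (α β : A) (cl : k[X] →* A)
    (hcl : ∀ f : k[X], f.Monic → cl f = hm α β f) :
    ∃ C : ℕ, ∀ (E : Type) [Field E] [Fintype E] [Algebra k E] (ν : ℕ),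
      Fintype.card E = ν * ν → Module.finrank k A ≤ Module.finrank k E → ∀ (x0 : E) (s0 : Aˣ),
      cl (ch k x0) = s0 → ∃ (H : Submonoid A) (b : ℕ),
        Nat.card H * #{x : E | cl (ch k x) = s0} ≤ ν * ν + C * ν ∧
        ∀ (E' : Type) [Field E'] [Fintype E'] [Algebra k E'] [Algebra E E'] [IsScalarTower k E E'],
          #{x : E' | cl (ch k x) * ((s0⁻¹ : Aˣ) : A) ^ Module.finrank E E' ∉ H} ≤ b := by
  obtain ⟨C, hC⟩ := core5 (k := k) α β
  have hi : ∀ (E : Type) [Field E] [Fintype E] [Algebra k E] (x : E), Nm k α β E x =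
      (Algebra.TensorProduct.includeRight : A →ₐ[k] TensorProduct k E A) (cl (ch k x)) := by
    intro E _ _ _ x
    rw [hcl _ (mem_Mon.1 (ch_mem x)).1,
      hm_ch _ (Algebra.TensorProduct.includeLeft : E →ₐ[k] TensorProduct k E A), Nm]
    refine prod_congr rfl fun i _ => ?_
    simp
  refine ⟨C, fun E _ _ _ ν hQ hA x0 s0 h0 => ?_⟩
  obtain ⟨p, hp⟩ := CharP.exists E
  have : Fact p.Prime := ⟨CharP.char_is_prime E p⟩
  obtain ⟨a, -, ha⟩ := FiniteField.card E p
  obtain ⟨μ, -, hμ⟩ := (Nat.dvd_prime_pow (Fact.out : p.Prime)).1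
    (show ν ∣ p ^ (a : ℕ) from ⟨ν, by rw [← ha, hQ]⟩)
  obtain ⟨H, h1, h2⟩ := hC E p μ ν hμ hQ hA x0 s0 (by rw [hi, h0]; rfl)
  refine ⟨H, C, le_trans (Nat.mul_le_mul_left _ (card_le_card fun x hx => ?_)) h1,
    fun E' _ _ _ _ _ => le_trans (card_le_card fun x hx => ?_) (h2 E')⟩
  · exact mem_filter.2 ⟨mem_univ _, by rw [hi, (mem_filter.1 hx).2]; rfl⟩
  · exact (@mem_filter _ _ (_) _ _).2 ⟨mem_univ _, _, hi E' x, (mem_filter.1 hx).2⟩

theorem rha (A : Type) [CommRing A] [Algebra k A] [Fintype A] (α β : A) (Γ : Subgroup Aˣ)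
    (cl : k[X] → Γ) (hcl : ∀ f, f.Monic → IsUnit (hm α β f) → ((cl f : Aˣ) : A) = hm α β f)
    (N₀ b : ℕ) (hz : ∀ χ : Γ →* ℂ, χ ≠ 1 → ∀ N, N₀ ≤ N →
      ∑ f ∈ mon k N, (if IsUnit (hm α β f) then χ (cl f) else 0) = 0)
    (hb : ∀ (E : Type) [Field E] [Fintype E] [Algebra k E],
      #{x : E | ¬ IsUnit (hm α β (ch k x))} ≤ b)
    (χ : Γ →* ℂ) (hχ : χ ≠ 1) (E : Type) [Field E] [Fintype E] [Algebra k E] :
    ‖∑ x : E, (if IsUnit (hm α β (ch k x)) then χ (cl (ch k x)) else 0)‖ ≤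
      (N₀ - 1 : ℕ) * √(Fintype.card E) := by
  obtain ⟨c, hc⟩ := rha_cl (k := k) α β
  have : Nontrivial A := by
    by_contra h
    rw [not_nontrivial_iff_subsingleton] at h
    exact hχ (MonoidHom.ext fun u => by rw [Subsingleton.elim u 1, map_one, map_one])
  have : NeZero (Monoid.exponent Aˣ) := ⟨Monoid.exponent_ne_zero_of_finite⟩
  have : NeZero ((Monoid.exponent Aˣ : ℕ) : ℂ) := ⟨Nat.cast_ne_zero.2 (NeZero.ne _)⟩
  obtain ⟨φ, hφ⟩ := MonoidHom.domRestrict_surjective ℂ Γ χ.toHomUnits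
  have hφ' : ∀ u : Γ, MulChar.ofUnitHom φ ((u : Aˣ) : A) = χ u := fun u => by
    rw [MulChar.ofUnitHom_coe, ← χ.coe_toHomUnits, ← hφ]; rfl
  have key : ∀ (χ' : MulChar A ℂ) (χ : Γ →* ℂ), (∀ u : Γ, χ' ((u : Aˣ) : A) = χ u) →
      ∀ f : k[X], f.Monic → (if IsUnit (hm α β f) then χ (cl f) else 0) = χ' (c f) := by
    intro χ' χ e f hf
    rw [hc f hf]
    split_ifs with h
    · rw [← e, hcl f hf h]
    · exact (χ'.map_nonunit h).symm
  have h0 : √(Fintype.card E : ℝ) = √(Fintype.card k : ℝ) ^ Module.finrank k E := by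
    rw [Module.card_eq_pow_finrank (K := k), Nat.cast_pow,
      Real.sqrt_eq_iff_mul_self_eq (by positivity) (by positivity), ← mul_pow,
      Real.mul_self_sqrt (by positivity)]
  rw [sum_congr rfl fun x _ => key _ χ hφ' _ (mem_Mon.1 (ch_mem x)).1, h0]
  refine rha_main Γ c (rha_core α β c hc) (fun f hf u e => ?_) (B := b) (fun E _ _ _ => ?_)
    (fun χ' ⟨u, h1, h2⟩ n hn => ?_) _ ?_ E
  · rw [hc f hf] at e
    rw [show u = cl f from Units.ext (e.trans (hcl f hf (e ▸ u.isUnit)).symm)]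
    exact (cl f).2
  · simpa only [fun x : E => hc _ (mem_Mon.1 (ch_mem (K := k) x)).1] using hb E
  · rw [← hz ((χ'.toMonoidHom.comp (Units.coeHom A)).comp Γ.subtype)
      (fun e => h2 (DFunLike.congr_fun e ⟨u, h1⟩)) n hn]
    exact sum_congr rfl fun f hf => (key χ' _ (fun _ => rfl) f (mem_mon.1 hf).1).symm
  · by_contra h
    push Not at h
    exact hχ (MonoidHom.ext fun u => by rw [← hφ', h u u.2, MonoidHom.one_apply])

end RHA

end RowRHA_

section RowCLS_
variable {k : Type} [Field k] [Fintype k]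

section RowCLS

omit [Fintype k] in
theorem cls_hm (d : k[X]) (n : ℕ) (f : k[X]) :
    hm ((AdjoinRoot.root d, 1) : AdjoinRoot d × AdjoinRoot ((X : k[X]) ^ (n + 1)))
      (1, AdjoinRoot.root _) f = (AdjoinRoot.mk d f, AdjoinRoot.mk _ f.reverse) := by
  unfold hm
  refine Prod.ext ?_ ?_
  · rw [Prod.fst_sum]
    conv_rhs => rw [as_sum_range_C_mul_X_pow f]
    rw [map_sum]
    refine sum_congr rfl fun i _ => ?_
    simp [AdjoinRoot.algebraMap_eq]
  · rw [Prod.snd_sum]
    have e : f.reverse = ∑ i ∈ range (f.natDegree + 1), C (f.coeff i) * X ^ (f.natDegree - i) := by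
      ext m
      rw [coeff_reverse, finsetSum_coeff]
      simp only [coeff_C_mul_X_pow]
      by_cases hm : m ≤ f.natDegree
      · rw [revAt_le hm, sum_eq_single (f.natDegree - m)]
        · rw [if_pos (by omega)]
        · intro i hi hne
          rw [if_neg]
          have := mem_range.1 hi
          omega
        · intro h
          exact absurd (mem_range.2 (by omega)) h
      · rw [revAt_eq_self_of_lt (by omega), coeff_eq_zero_of_natDegree_lt (by omega)]
        exact (sum_eq_zero fun i _ => if_neg (by omega)).symm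
    rw [e, map_sum]
    refine sum_congr rfl fun i _ => ?_
    simp [AdjoinRoot.algebraMap_eq]

omit [Fintype k] in
theorem cls_unit (d f : k[X]) : IsUnit (AdjoinRoot.mk d f) ↔ IsCoprime f d := by
  constructor
  · intro h
    obtain ⟨v, hv⟩ := h.exists_left_inv
    obtain ⟨w, rfl⟩ := AdjoinRoot.mk_surjective v
    rw [← map_mul, ← map_one (AdjoinRoot.mk d), AdjoinRoot.mk_eq_mk] at hv
    obtain ⟨c, hc⟩ := hv
    exact ⟨w, -c, by linear_combination hc⟩
  · rintro ⟨a, b, h⟩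
    refine IsUnit.of_mul_eq_one (AdjoinRoot.mk d a) ?_
    rw [← map_mul, ← map_one (AdjoinRoot.mk d), AdjoinRoot.mk_eq_mk]
    exact ⟨-b, by linear_combination h⟩

omit [Fintype k] in
theorem cls_rev {f g : k[X]} (n : ℕ) (h : f.natDegree = g.natDegree) :
    (X : k[X]) ^ (n + 1) ∣ f.reverse - g.reverse ↔ (f - g).degree < (f.natDegree - n : ℕ) := by
  rw [X_pow_dvd_iff, degree_lt_iff_coeff_zero]
  simp only [coeff_sub, coeff_reverse, ← h]
  constructor
  · intro H m hm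
    by_cases c : m ≤ f.natDegree
    · have := H (f.natDegree - m) (by omega)
      rwa [revAt_le (Nat.sub_le _ _), Nat.sub_sub_self c] at this
    · rw [coeff_eq_zero_of_natDegree_lt (by omega), coeff_eq_zero_of_natDegree_lt (by omega),
        sub_self]
  · intro H m hm
    by_cases c : m ≤ f.natDegree
    · rw [revAt_le c]
      exact H _ (by omega)
    · rw [revAt_eq_self_of_lt (by omega), coeff_eq_zero_of_natDegree_lt (by omega),
        coeff_eq_zero_of_natDegree_lt (by omega), sub_self]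

theorem cls_cnt {d f₀ : k[X]} (hd : d.Monic) {N n : ℕ} (hN : d.natDegree + n ≤ N)
    (h0 : f₀ ∈ mon k N) :
    (#{f ∈ mon k N | d ∣ f - f₀ ∧ (f - f₀).degree < (N - n : ℕ)} : ℝ) =
      qq k ^ (N - (d.natDegree + n)) := by
  obtain ⟨m1, m2⟩ := mem_mon.1 h0
  have key : ∀ s : k[X], (d * s).degree < (N - n : ℕ) ↔
      s.degree < (N - (d.natDegree + n) : ℕ) := by
    intro s
    by_cases hs : s = 0
    · simp [hs]
    · rw [degree_eq_natDegree hs, degree_eq_natDegree (mul_ne_zero hd.ne_zero hs),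
        hd.natDegree_mul' hs, Nat.cast_lt, Nat.cast_lt]
      omega
  rw [← card_box]
  congr 1
  refine (card_bij (fun s _ => f₀ + d * s) ?_ ?_ ?_).symm
  · intro s hs
    have h1 := (key s).2 (mem_box.1 hs)
    have h2 : (d * s).degree < f₀.degree := by
      rw [degree_eq_natDegree m1.ne_zero, m2]
      exact h1.trans_le (by exact_mod_cast Nat.sub_le _ _)
    rw [mem_filter, mem_mon, add_sub_cancel_left, natDegree_add_eq_left_of_degree_lt h2]
    exact ⟨⟨m1.add_of_left h2, m2⟩, dvd_mul_right _ _, h1⟩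
  · intro a _ b _ e
    exact mul_left_cancel₀ hd.ne_zero (add_left_cancel e)
  · intro f hf
    obtain ⟨-, ⟨s, hs⟩, h2⟩ := mem_filter.1 hf
    rw [hs] at h2
    exact ⟨s, mem_box.2 ((key s).1 h2), by rw [← hs]; ring⟩

theorem cls_ex {d : k[X]} (hd : d.Monic) {N n : ℕ} (hN : d.natDegree + n ≤ N) (r w : k[X])
    (hw : w.coeff 0 = 1) :
    ∃ f ∈ mon k N, d ∣ f - r ∧ (X : k[X]) ^ (n + 1) ∣ f.reverse - w := by
  have hX : ((X : k[X]) ^ (n + 1)).Monic := monic_X_pow _
  set v := w %ₘ X ^ (n + 1) with hv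
  have v1 : (X : k[X]) ^ (n + 1) ∣ v - w :=
    ⟨-(w /ₘ X ^ (n + 1)), by linear_combination modByMonic_add_div w (X ^ (n + 1))⟩
  have v2 : v.coeff 0 = 1 := by
    have := X_pow_dvd_iff.1 v1 0 (by omega)
    rw [coeff_sub, hw] at this
    exact sub_eq_zero.1 this
  have v3 : ∀ m, n < m → v.coeff m = 0 := fun m hm => by
    refine coeff_eq_zero_of_degree_lt ((degree_modByMonic_lt _ hX).trans_le ?_)
    rw [degree_X_pow]
    exact_mod_cast hm
  have t1 : (reflect N v).natDegree ≤ N := by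
    rw [natDegree_le_iff_coeff_eq_zero]
    intro m hm
    rw [coeff_reflect, revAt_eq_self_of_lt hm]
    exact v3 m (by omega)
  have t2 : (reflect N v).coeff N = 1 := by
    rw [coeff_reflect, revAt_le le_rfl, Nat.sub_self, v2]
  have t3 : (reflect N v).Monic := monic_of_natDegree_le_of_coeff_eq_one N t1 t2
  have t4 : (reflect N v).natDegree = N :=
    le_antisymm t1 (le_natDegree_of_ne_zero (by rw [t2]; exact one_ne_zero))
  have t5 : (reflect N v).reverse = v := by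
    rw [reverse, t4, reflect_reflect]
  set ρ := (r - reflect N v) %ₘ d with hρ
  have r1 : ρ.degree < (N - n : ℕ) := by
    refine (degree_modByMonic_lt _ hd).trans_le ?_
    rw [degree_eq_natDegree hd.ne_zero]
    exact_mod_cast (by omega : d.natDegree ≤ N - n)
  have r2 : ρ.degree < (reflect N v).degree := by
    rw [degree_eq_natDegree t3.ne_zero, t4]
    exact r1.trans_le (by exact_mod_cast Nat.sub_le _ _)
  have f2 : (reflect N v + ρ).natDegree = N := by rw [natDegree_add_eq_left_of_degree_lt r2, t4]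
  refine ⟨reflect N v + ρ, mem_mon.2 ⟨t3.add_of_left r2, f2⟩,
    ⟨-((r - reflect N v) /ₘ d), by linear_combination modByMonic_add_div (r - reflect N v) d⟩, ?_⟩
  have := (cls_rev (f := reflect N v + ρ) (g := reflect N v) n (f2.trans t4.symm)).2
    (by rw [add_sub_cancel_left, f2]; exact r1)
  rw [t5] at this
  have h3 := dvd_add this v1
  rwa [sub_add_sub_cancel] at h3

theorem cls {d : k[X]} (hd : d.Monic) (n : ℕ) : ∃ (A : Type) (_ : CommRing A) (_ : Algebra k A)
    (_ : Fintype A) (α β : A) (Γ : Subgroup Aˣ) (cl : k[X] → Γ),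
    (∀ f : k[X], f.Monic → (IsUnit (hm α β f) ↔ IsCoprime f d)) ∧
    (∀ f : k[X], f.Monic → IsCoprime f d → ((cl f : Aˣ) : A) = hm α β f) ∧
    (∀ f g : k[X], f.Monic → g.Monic → f.natDegree = g.natDegree →
      (hm α β f = hm α β g ↔ d ∣ f - g ∧ (f - g).degree < (f.natDegree - n : ℕ))) ∧
    ∀ (N : ℕ) (c : Γ), d.natDegree + n ≤ N →
      (#{f ∈ mon k N | IsCoprime f d ∧ cl f = c} : ℝ) = qq k ^ (N - (d.natDegree + n)) := by
  have hX : ((X : k[X]) ^ (n + 1)).Monic := monic_X_pow _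
  have := hd.finite_adjoinRoot
  have := hX.finite_adjoinRoot
  have : Finite (AdjoinRoot d) := Module.finite_of_finite k
  have : Finite (AdjoinRoot ((X : k[X]) ^ (n + 1))) := Module.finite_of_finite k
  obtain ⟨φ, hφ⟩ : ∃ φ : AdjoinRoot d × AdjoinRoot ((X : k[X]) ^ (n + 1)) →+* k,
      ∀ a w, φ (a, AdjoinRoot.mk _ w) = w.coeff 0 :=
    ⟨(AdjoinRoot.lift (RingHom.id k) 0 (by simp)).comp (RingHom.snd _ _), fun a w => by
      simp [AdjoinRoot.lift_mk, coeff_zero_eq_eval_zero]⟩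
  set α : AdjoinRoot d × AdjoinRoot ((X : k[X]) ^ (n + 1)) := (AdjoinRoot.root d, 1) with hα
  set β : AdjoinRoot d × AdjoinRoot ((X : k[X]) ^ (n + 1)) := (1, AdjoinRoot.root _) with hβ
  have H : ∀ f, hm α β f = (AdjoinRoot.mk d f, AdjoinRoot.mk _ f.reverse) := cls_hm d n
  have h1 : ∀ f : k[X], f.Monic → (IsUnit (hm α β f) ↔ IsCoprime f d) := by
    intro f hf
    rw [H, Prod.isUnit_iff, cls_unit, cls_unit, and_iff_left]
    refine IsCoprime.pow_right (irreducible_X.coprime_iff_not_dvd.2 ?_).symm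
    rw [X_dvd_iff, coeff_zero_reverse, hf.leadingCoeff]
    exact one_ne_zero
  have h3 : ∀ f g : k[X], f.natDegree = g.natDegree →
      (hm α β f = hm α β g ↔ d ∣ f - g ∧ (f - g).degree < (f.natDegree - n : ℕ)) := by
    intro f g h
    rw [H, H, Prod.mk.injEq, AdjoinRoot.mk_eq_mk, AdjoinRoot.mk_eq_mk, cls_rev n h]
  obtain ⟨Γ, hΓ⟩ : ∃ Γ : Subgroup (AdjoinRoot d × AdjoinRoot ((X : k[X]) ^ (n + 1)))ˣ,
      ∀ u, u ∈ Γ ↔ φ u = 1 :=
    ⟨(Units.map (φ : _ →* k)).ker, fun u => by rw [MonoidHom.mem_ker, Units.ext_iff]; rfl⟩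
  have h2 : ∀ f : k[X], ∃ c : Γ, f.Monic → IsCoprime f d →
      ((c : (AdjoinRoot d × AdjoinRoot ((X : k[X]) ^ (n + 1)))ˣ) :
        AdjoinRoot d × AdjoinRoot ((X : k[X]) ^ (n + 1))) = hm α β f := by
    intro f
    by_cases c : f.Monic ∧ IsCoprime f d
    · refine ⟨⟨((h1 f c.1).2 c.2).unit, (hΓ _).2 ?_⟩, fun _ _ => rfl⟩
      rw [IsUnit.unit_spec, H, hφ, coeff_zero_reverse, c.1.leadingCoeff]
    · exact ⟨1, fun a b => absurd ⟨a, b⟩ c⟩
  choose cl hcl using h2
  refine ⟨_, inferInstance, inferInstance, Fintype.ofFinite _, α, β, Γ, cl, h1, hcl,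
    fun f g _ _ h => h3 f g h, fun N c hN => ?_⟩
  obtain ⟨r, hr⟩ := AdjoinRoot.mk_surjective (c.1.1).1
  obtain ⟨w, hw⟩ := AdjoinRoot.mk_surjective (c.1.1).2
  have hc : c.1.1 = (AdjoinRoot.mk d r, AdjoinRoot.mk _ w) := Prod.ext hr.symm hw.symm
  have w0 : w.coeff 0 = 1 := by rw [← hφ (AdjoinRoot.mk d r) w, ← hc]; exact (hΓ _).1 c.2
  obtain ⟨f₀, m0, e1, e2⟩ := cls_ex hd hN r w w0
  have e0 : hm α β f₀ = c.1.1 := by
    rw [H, hc, Prod.mk.injEq, AdjoinRoot.mk_eq_mk, AdjoinRoot.mk_eq_mk]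
    exact ⟨e1, e2⟩
  rw [← cls_cnt hd hN m0]
  congr 2
  ext f
  simp only [mem_filter]
  refine and_congr_right fun hf => ?_
  obtain ⟨f1, f2⟩ := mem_mon.1 hf
  rw [← f2, ← h3 f f₀ (f2.trans (mem_mon.1 m0).2.symm), e0]
  constructor
  · rintro ⟨a, rfl⟩
    exact (hcl f f1 a).symm
  · intro e
    have a : IsCoprime f d := (h1 f f1).1 (e ▸ c.1.isUnit)
    exact ⟨a, Subtype.ext (Units.ext ((hcl f f1 a).trans e))⟩

end RowCLS

end RowCLS_

section RowHAY_
variable {k : Type} [Field k] [Fintype k]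

section HAY
open Pool.Agent.MP_1609a8_nt.H76 (mem_Mon ch_mem mp_int)

theorem hay {d : k[X]} (hd : d.Monic) (n : ℕ) : ∃ (Γ : Type) (_ : CommGroup Γ) (_ : Fintype Γ)
    (cl : k[X] → Γ), cl 1 = 1 ∧
    (∀ f g : k[X], f.Monic → g.Monic → IsCoprime f d → IsCoprime g d → cl (f * g) = cl f * cl g) ∧
    (∀ f g : k[X], f.Monic → g.Monic → IsCoprime f d → IsCoprime g d → f.natDegree = g.natDegree →
      (cl f = cl g ↔ d ∣ f - g ∧ (f - g).degree < (f.natDegree - n : ℕ))) ∧
    (∀ (N : ℕ) (c : Γ), d.natDegree + n ≤ N →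
      (#{f ∈ mon k N | IsCoprime f d ∧ cl f = c} : ℝ) = qq k ^ (N - (d.natDegree + n))) ∧
    ∀ χ : Γ →* ℂ, χ ≠ 1 → ∀ e : ℕ, d.natDegree < e →
      ‖∑ P ∈ prs k e, χ (cl P)‖ ≤ ((d.natDegree : ℝ) + n + 2) * √(qq k ^ e) := by
  obtain ⟨A, _, _, _, α, β, Γ, cl, h1, h2, h3, h4⟩ := cls hd n
  have : Fintype Γ := Fintype.ofFinite _
  refine ⟨Γ, inferInstance, inferInstance, cl, ?_, fun f g hf hg cf cg => ?_,
    fun f g hf hg cf cg e => ?_, fun N c hN => ?_, fun χ hχ e he => ?_⟩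
  · exact Subtype.ext (Units.ext ((h2 1 monic_one isCoprime_one_left).trans (hm_one α β)))
  · refine Subtype.ext (Units.ext ?_)
    rw [h2 _ (hf.mul hg) (cf.mul_left cg), hm_mul α β hf hg, ← h2 f hf cf, ← h2 g hg cg]
    rfl
  · rw [← h3 f g hf hg e, ← h2 f hf cf, ← h2 g hg cg]
    exact ⟨fun h => by rw [h], fun h => Subtype.ext (Units.ext h)⟩
  · convert h4 N c hN
  have hz : ∀ χ : Γ →* ℂ, χ ≠ 1 → ∀ N, d.natDegree + n ≤ N →
      ∑ f ∈ mon k N, (if IsUnit (hm α β f) then χ (cl f) else 0) = 0 := by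
    intro χ hχ N hN
    have e1 : ∑ f ∈ mon k N, (if IsUnit (hm α β f) then χ (cl f) else 0) =
        ∑ f ∈ mon k N with IsCoprime f d, χ (cl f) := by
      rw [sum_filter]
      exact sum_congr rfl fun f hf => by simp only [h1 f (mem_mon.1 hf).1]
    have e2 : ∀ c : Γ, ∑ f ∈ {f ∈ mon k N | IsCoprime f d} with cl f = c, χ (cl f) =
        ((qq k ^ (N - (d.natDegree + n)) : ℝ) : ℂ) * χ c := fun c => by
      rw [sum_congr rfl (g := fun _ => χ c) fun f hf => by rw [(mem_filter.1 hf).2], sum_const,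
        nsmul_eq_mul, filter_filter, ← h4 N c hN, Complex.ofReal_natCast]
    rw [e1, ← sum_fiberwise (g := cl), sum_congr rfl fun c _ => e2 c, ← mul_sum,
      sum_hom_units_eq_zero χ hχ, mul_zero]
  have hb : ∀ (E : Type) [Field E] [Fintype E] [Algebra k E],
      #{x : E | ¬ IsUnit (hm α β (ch k x))} ≤ d.natDegree := by
    intro E _ _ _
    refine le_trans (card_le_card (t := (d.aroots E).toFinset) fun x hx => ?_)
      ((Multiset.toFinset_card_le _).trans ((card_roots' _).trans natDegree_map_le))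
    rw [Multiset.mem_toFinset, mem_aroots]
    refine ⟨hd.ne_zero, ?_⟩
    by_contra h
    refine (mem_filter.1 hx).2 ((h1 _ (mem_Mon.1 (ch_mem x)).1).2 ?_)
    exact IsCoprime.pow_left ((minpoly.irreducible (mp_int x)).coprime_iff_not_dvd.2
      fun e => h (aeval_eq_zero_of_dvd_aeval_eq_zero e (minpoly.aeval k x)))
  have key := prs_le (fun f => if IsUnit (hm α β f) then χ (cl f) else 0) (fun f => ?_)
    (e := e) (by omega) (B := (d.natDegree + n - 1 : ℕ)) (Nat.cast_nonneg _) fun E _ _ _ _ =>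
      rha A α β Γ cl (fun f hf h => h2 f hf ((h1 f hf).1 h)) _ _ hz hb χ hχ E
  · rw [sum_congr rfl (g := fun P => χ (cl P)) fun P hP => ?_] at key
    · refine key.trans (mul_le_mul_of_nonneg_right ?_ (Real.sqrt_nonneg _))
      have : ((d.natDegree + n - 1 : ℕ) : ℝ) ≤ (d.natDegree + n : ℕ) := by
        exact_mod_cast Nat.sub_le _ _
      push_cast at this
      linarith
    · obtain ⟨p1, p2⟩ := mem_filter.1 hP
      obtain ⟨p3, p4⟩ := mem_mon.1 p1
      refine if_pos ((h1 P p3).2 (p2.coprime_iff_not_dvd.2 fun h => ?_))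
      have := natDegree_le_of_dvd h hd.ne_zero
      omega
  · split_ifs
    · have h5 : χ (cl f) ^ orderOf (cl f) = 1 := by rw [← map_pow, pow_orderOf_eq_one, map_one]
      exact (Complex.norm_eq_one_of_pow_eq_one h5 (orderOf_pos _).ne').le
    · simp

end HAY

end RowHAY_

section RowWGT_
variable {k : Type} [Field k] [Fintype k]

theorem WW_nonneg {ι : Type} [Fintype ι] (κ : ℕ) (e : ι → ℕ) (x : k[X]) : 0 ≤ WW κ e x :=
  Finset.sum_nonneg fun _ _ => Finset.sum_nonneg fun _ _ => by split_ifs <;> norm_num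

theorem wgt_cnt {x : k[X]} (hx : x ≠ 0) {e : ℕ} (he : 0 < e) :
    (#{p ∈ prs k e | p ∣ x} : ℝ) ≤ x.natDegree := by
  exact_mod_cast cnt_prs hx he

theorem WW_le {ι : Type} [Fintype ι] (κ : ℕ) {e : ι → ℕ} (he : ∀ i, 0 < e i) {x : k[X]}
    (hx : x ≠ 0) : WW κ e x ≤ (x.natDegree : ℝ) ^ Fintype.card ι := by
  unfold WW
  rw [Finset.sum_comm]
  have h1 : ∀ P ∈ Fintype.piFinset fun i => prs k (e i),
      (∑ y ∈ mon k κ, if y * ∏ i, P i = x then (1 : ℝ) else 0) ≤
        if ∀ i, P i ∣ x then 1 else 0 := by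
    intro P _
    rw [Finset.sum_boole]
    split_ifs with h
    · exact_mod_cast Finset.card_le_one.2 fun a ha b hb => by
        have ha' := (mem_filter.1 ha).2
        have hb' := (mem_filter.1 hb).2
        exact mul_right_cancel₀ (right_ne_zero_of_mul (ha' ▸ hx)) (ha'.trans hb'.symm)
    · rw [Finset.filter_eq_empty_iff.2, Finset.card_empty, Nat.cast_zero]
      rintro y _ rfl
      exact h fun i => (Finset.dvd_prod_of_mem P (mem_univ i)).mul_left _
  refine (Finset.sum_le_sum h1).trans ?_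
  rw [Finset.sum_boole]
  have h2 : {P ∈ Fintype.piFinset fun i => prs k (e i) | ∀ i, P i ∣ x} =
      Fintype.piFinset fun i => {p ∈ prs k (e i) | p ∣ x} := by
    ext P
    simp only [mem_filter, Fintype.mem_piFinset, forall_and]
  rw [h2, Fintype.card_piFinset, Nat.cast_prod, ← Finset.card_univ, ← Finset.prod_const]
  exact Finset.prod_le_prod (fun _ _ => Nat.cast_nonneg _) fun i _ => wgt_cnt hx (he i)

theorem wgt_DW {ι : Type} [Fintype ι] (e : ι → ℕ) :
    DW k e = ∏ i, (#(prs k (e i)) : ℝ) / qq k ^ e i := by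
  rw [DW, Finset.prod_div_distrib, Finset.prod_pow_eq_pow_sum]

theorem DW_ge {ι : Type} [Fintype ι] {e : ι → ℕ} {m : ℕ} (he : ∀ i, 0 < e i ∧ e i ≤ m) :
    1 / (2 * (m : ℝ)) ^ Fintype.card ι ≤ DW k e := by
  have hq : 0 < qq k := lt_of_lt_of_le two_pos two_le_qq
  rw [wgt_DW, ← one_div_pow, ← Finset.card_univ, ← Finset.prod_const]
  refine Finset.prod_le_prod (fun _ _ => by positivity) fun i _ => ?_
  have h1 := card_prs (k := k) (he i).1
  have h2 : (e i : ℝ) ≤ m := by exact_mod_cast (he i).2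
  have h3 : (0 : ℝ) < m := by exact_mod_cast (he i).1.trans_le (he i).2
  have h4 : (0 : ℝ) ≤ #(prs k (e i)) := Nat.cast_nonneg _
  rw [div_le_div_iff₀ (by linarith) (pow_pos hq _)]
  nlinarith

theorem DW_le {ι : Type} [Fintype ι] (e : ι → ℕ) : DW k e ≤ 1 := by
  have hq : 0 < qq k := lt_of_lt_of_le two_pos two_le_qq
  rw [wgt_DW]
  exact Finset.prod_le_one (fun i _ => div_nonneg (Nat.cast_nonneg _) (pow_pos hq _).le)
    fun i _ => (div_le_one (pow_pos hq _)).2 (card_prs_le _)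

theorem wgt_her {u : ℕ} (hu : 0 < u) (r : ℕ) : ∑ i ∈ range u, (r + i) / u = r := by
  induction r with
  | zero => exact Finset.sum_eq_zero fun i hi => Nat.div_eq_of_lt (by simpa using hi)
  | succ r ih =>
    have h1 := Finset.sum_range_succ (fun i => (r + i) / u) u
    rw [Finset.sum_range_succ', ih, Nat.add_div_right _ hu, add_zero] at h1
    have h2 : ∑ i ∈ range u, (r + 1 + i) / u = ∑ i ∈ range u, (r + (i + 1)) / u :=
      Finset.sum_congr rfl fun i _ => by rw [add_assoc, add_comm 1 i]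
    omega

theorem deg_ex {u κ m : ℕ} (hu : 0 < u) (h1 : u * (2 * κ + u) ≤ m) (h2 : m + u * u ≤ 5 * κ * u) :
    ∃ e : Fin u → ℕ, Function.Injective e ∧ (∀ i, 2 * κ ≤ e i ∧ e i ≤ 5 * κ) ∧ ∑ i, e i = m := by
  have hT : ∑ i ∈ range u, i ≤ u * u := by
    have := Finset.sum_le_card_nsmul (range u) (fun i => i) u fun i hi => (mem_range.1 hi).le
    simpa using this
  obtain ⟨r, hr⟩ : ∃ r, m = r + ∑ i ∈ range u, i :=
    ⟨m - ∑ i ∈ range u, i, by rw [mul_add] at h1; omega⟩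
  refine ⟨fun i => (r + i) / u + i, StrictMono.injective fun i j hij => ?_, fun i => ⟨?_, ?_⟩, ?_⟩
  · have h3 : (i : ℕ) < j := hij
    exact Nat.add_lt_add_of_le_of_lt (Nat.div_le_div_right (by omega)) h3
  · refine le_trans ((Nat.le_div_iff_mul_le hu).2 ?_) (Nat.le_add_right _ _)
    rw [mul_add, mul_comm u] at h1
    omega
  · show (r + i) / u + i ≤ 5 * κ
    rw [← Nat.add_mul_div_right _ _ hu]
    refine Nat.div_le_of_le_mul ?_
    have h3 : (i + 1) * u ≤ u * u := Nat.mul_le_mul_right _ i.2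
    have h4 := i.2
    rw [mul_comm u]
    rw [add_mul] at h3
    omega
  · rw [Fin.sum_univ_eq_sum_range (fun i => (r + i) / u + i) u, Finset.sum_add_distrib,
      wgt_her hu, hr]

end RowWGT_

section RowVAR0_


section VAR0
variable {k : Type} [Field k] [Fintype k]

theorem var0_q : (0 : ℝ) < qq k := lt_of_lt_of_le two_pos two_le_qq

theorem var0_per {d : k[X]} (hd : d.Monic) {n : ℕ} (hn : d.natDegree ≤ n) (G : k[X] → ℝ)
    (hG : ∀ w w', d ∣ w - w' → G w = G w') (z₀ : k[X]) :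
    𝔼 t ∈ box k n, G (z₀ + t) = (∑ r ∈ box k d.natDegree, G r) / qq k ^ d.natDegree := by
  have h1 : ∀ w, G w = ∑ r ∈ box k d.natDegree, G r * (if d ∣ w - r then (1 : ℝ) else 0) := by
    intro w
    have hm : w %ₘ d ∈ box k d.natDegree := by
      rw [mem_box, ← degree_eq_natDegree hd.ne_zero]
      exact degree_modByMonic_lt w hd
    have hdv : d ∣ w - w %ₘ d := ⟨w /ₘ d, by linear_combination (-1) * modByMonic_add_div w d⟩
    rw [sum_eq_single_of_mem _ hm, if_pos hdv, mul_one]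
    · exact hG _ _ hdv
    · intro r hr hne
      rw [if_neg, mul_zero]
      intro h2
      apply hne
      have h3 : d ∣ r - w %ₘ d := by
        have h4 := dvd_sub hdv h2
        rwa [sub_sub_sub_cancel_left] at h4
      have h5 : (r - w %ₘ d).degree < d.degree := by
        rw [degree_eq_natDegree hd.ne_zero]
        exact (degree_sub_le _ _).trans_lt (max_lt (mem_box.1 hr) (mem_box.1 hm))
      exact sub_eq_zero.1 (eq_zero_of_dvd_of_degree_lt h3 h5)
  rw [Finset.expect_congr rfl fun t _ => h1 (z₀ + t), Finset.expect_sum_comm, sum_div]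
  refine sum_congr rfl fun r _ => ?_
  rw [← Finset.mul_expect]
  have h6 := exp_box_dvd hd.ne_zero hn (isCoprime_one_left (x := d)) (z₀ - r)
  have h7 : ∀ t : k[X], z₀ - r + 1 * t = z₀ + t - r := fun t => by ring
  simp only [h7] at h6
  rw [h6, mul_one_div]

theorem var0_line {d : k[X]} (hd : d.Monic) {κ m' L' : ℕ} (h2 : κ ≤ L')
    (h3 : d.natDegree + L' ≤ κ + m') {x y : k[X]} (hx : x ∈ mon k (κ + m')) (hy : y ∈ mon k κ)
    (c : k[X] → ℝ) :
    ∑ s ∈ box k L', ∑ z ∈ mon k m', c z * (if y * z = x + d * s then (1 : ℝ) else 0) =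
      ∑ t ∈ box k (d.natDegree + L' - κ),
        c (x /ₘ y + t) * (if d ∣ y * (x /ₘ y + t) - x then (1 : ℝ) else 0) := by
  obtain ⟨hx1, hx2⟩ := mem_mon.1 hx
  obtain ⟨hy1, hy2⟩ := mem_mon.1 hy
  have hdiv := modByMonic_add_div x y
  have hr : (x %ₘ y).degree < κ := by
    rw [← hy2, ← degree_eq_natDegree hy1.ne_zero]
    exact degree_modByMonic_lt x hy1
  have hlt : ∀ (u v : k[X]) (a b : ℕ), u.Monic → u.natDegree = a →
      ((u * v).degree < ((a + b : ℕ) : WithBot ℕ) ↔ v.degree < b) := by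
    intro u v a b hu ha
    by_cases hv : v = 0
    · rw [hv, mul_zero, degree_zero]
      exact ⟨fun _ => WithBot.bot_lt_coe _, fun _ => WithBot.bot_lt_coe _⟩
    rw [← natDegree_lt_iff_degree_lt hv, ← natDegree_lt_iff_degree_lt (mul_ne_zero hu.ne_zero hv),
      natDegree_mul hu.ne_zero hv, ha]
    omega
  have hq : x /ₘ y ∈ mon k m' := by
    have h4 : (x /ₘ y).natDegree = m' := by rw [natDegree_divByMonic x hy1, hx2, hy2]; omega
    refine mem_mon.2 ⟨?_, h4⟩
    have h5 : y.degree ≤ x.degree := by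
      rw [degree_eq_natDegree hy1.ne_zero, degree_eq_natDegree hx1.ne_zero, hx2, hy2]
      exact_mod_cast Nat.le_add_right _ _
    rw [Monic.def, leadingCoeff_divByMonic_of_monic hy1 h5]
    exact hx1
  have hl : κ + (d.natDegree + L' - κ) = d.natDegree + L' := by omega
  have hrl : (x %ₘ y).degree < ((d.natDegree + L' : ℕ) : WithBot ℕ) :=
    hr.trans_le (by exact_mod_cast (by omega : κ ≤ d.natDegree + L'))
  simp only [mul_ite, mul_one, mul_zero]
  rw [← sum_product', ← sum_filter, ← sum_filter]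
  symm
  refine sum_bij (fun t _ => ((y * (x /ₘ y + t) - x) /ₘ d, x /ₘ y + t)) ?_ ?_ ?_ ?_
  · intro t ht
    obtain ⟨ht1, ⟨s, hs⟩⟩ := mem_filter.1 ht
    have h6 : (y * (x /ₘ y + t) - x) /ₘ d = s := by rw [hs, mul_divByMonic_cancel_left _ hd]
    have h7 : d * s = y * t - x %ₘ y := by linear_combination (-1) * hs + hdiv
    have h8 : (y * t).degree < ((d.natDegree + L' : ℕ) : WithBot ℕ) := by
      rw [← hl]
      exact (hlt y t κ _ hy1 hy2).2 (mem_box.1 ht1)
    rw [mem_filter, mem_product]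
    refine ⟨⟨?_, ?_⟩, ?_⟩
    · rw [h6, mem_box, ← hlt d s _ L' hd rfl, h7]
      exact (degree_sub_le _ _).trans_lt (max_lt h8 hrl)
    · obtain ⟨h9, h10⟩ := mem_mon.1 hq
      have h11 : t.degree < (x /ₘ y).degree := by
        rw [degree_eq_natDegree h9.ne_zero, h10]
        exact (mem_box.1 ht1).trans_le (by exact_mod_cast (by omega))
      exact mem_mon.2 ⟨h9.add_of_left h11, (natDegree_add_eq_left_of_degree_lt h11).trans h10⟩
    · show y * (x /ₘ y + t) = x + d * ((y * (x /ₘ y + t) - x) /ₘ d)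
      rw [h6]
      linear_combination hs
  · intro t _ t' _ h
    exact add_left_cancel (congrArg Prod.snd h)
  · rintro ⟨s, z⟩ hp
    obtain ⟨hp1, hp2⟩ := mem_filter.1 hp
    obtain ⟨hs, hz⟩ := mem_product.1 hp1
    have hp3 : y * z = x + d * s := hp2
    have h6 : x /ₘ y + (z - x /ₘ y) = z := by ring
    have h7 : y * z - x = d * s := by linear_combination hp3
    refine ⟨z - x /ₘ y, mem_filter.2 ⟨?_, ?_⟩, ?_⟩
    · rw [mem_box, ← hlt y _ κ _ hy1 hy2, hl]
      have h8 : y * (z - x /ₘ y) = d * s + x %ₘ y := by linear_combination hp3 - hdiv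
      rw [h8]
      exact (degree_add_le _ _).trans_lt (max_lt ((hlt d s _ L' hd rfl).2 (mem_box.1 hs)) hrl)
    · rw [h6, h7]
      exact dvd_mul_right _ _
    · rw [h6, h7, mul_divByMonic_cancel_left _ hd]
  · intro t _
    rfl

theorem var_model {d : k[X]} (hd : d.Monic) {κ m' L' : ℕ} (h1 : d.natDegree ≤ κ) (h2 : κ ≤ L')
    (h3 : d.natDegree + L' ≤ κ + m') {x : k[X]} (hx : x ∈ mon k (κ + m')) :
    𝔼 s ∈ box k L', ∑ y ∈ mon k κ, ∑ z ∈ mon k m' with IsCoprime z d,
      (if y * z = x + d * s then (1 : ℝ) else 0) =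
      (#{z ∈ mon k m' | IsCoprime z d} : ℝ) / qq k ^ m' := by
  have hq := var0_q (k := k)
  have key : ∀ y ∈ mon k κ, ∑ s ∈ box k L', ∑ z ∈ mon k m' with IsCoprime z d,
      (if y * z = x + d * s then (1 : ℝ) else 0) = qq k ^ (d.natDegree + L' - κ) / qq k ^ m' *
      ∑ z ∈ mon k m', (if IsCoprime z d then (1 : ℝ) else 0) *
        (if d ∣ y * z - x then (1 : ℝ) else 0) := by
    intro y hy
    have hG : ∀ w w' : k[X], d ∣ w - w' →
        (if IsCoprime w d then (1 : ℝ) else 0) * (if d ∣ y * w - x then (1 : ℝ) else 0) =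
        (if IsCoprime w' d then (1 : ℝ) else 0) * (if d ∣ y * w' - x then (1 : ℝ) else 0) := by
      rintro w w' ⟨v, hv⟩
      have h4 : w = w' + d * v := by linear_combination hv
      have h5 : y * w - x = y * w' - x + d * (y * v) := by rw [h4]; ring
      have h6 : IsCoprime w d ↔ IsCoprime w' d := by rw [h4, IsCoprime.add_mul_left_left_iff]
      have h7 : d ∣ y * w - x ↔ d ∣ y * w' - x := by
        rw [h5]
        exact dvd_add_left (dvd_mul_right _ _)
      rw [if_congr h6 rfl rfl, if_congr h7 rfl rfl]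
    have h8 := var0_line hd h2 h3 hx hy fun z => if IsCoprime z d then (1 : ℝ) else 0
    have h9 := var0_per hd (n := d.natDegree + L' - κ) (by omega) _ hG (x /ₘ y)
    have h10 := var0_per hd (n := m') (by omega) _ hG (X ^ m')
    rw [← h10, box_exp, box_exp, ← h8, div_eq_iff (pow_pos hq _).ne'] at h9
    rw [box_sum_mon]
    refine Eq.trans ?_ (h9.trans (by ring))
    refine sum_congr rfl fun s _ => ?_
    rw [sum_filter]
    exact sum_congr rfl fun z _ => by rw [ite_mul, one_mul, zero_mul]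
  have h11 : ∀ z ∈ mon k m', ∑ y ∈ mon k κ, (if IsCoprime z d then (1 : ℝ) else 0) *
      (if d ∣ y * z - x then (1 : ℝ) else 0) =
      qq k ^ κ / qq k ^ d.natDegree * (if IsCoprime z d then (1 : ℝ) else 0) := by
    intro z _
    by_cases hz : IsCoprime z d
    · have h12 := exp_box_dvd hd.ne_zero h1 hz (X ^ κ * z - x)
      rw [box_exp, div_eq_iff (pow_pos hq _).ne'] at h12
      rw [if_pos hz, box_sum_mon, mul_one]
      refine Eq.trans (sum_congr rfl fun a _ => ?_) (h12.trans (by ring))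
      have h13 : (X ^ κ + a) * z - x = X ^ κ * z - x + z * a := by ring
      rw [one_mul, h13]
    · simp only [if_neg hz, zero_mul, mul_zero, sum_const_zero]
  rw [box_exp, sum_comm, sum_congr rfl key, ← mul_sum, sum_comm, sum_congr rfl h11, ← mul_sum,
    sum_boole]
  have h14 : qq k ^ (d.natDegree + L' - κ) * qq k ^ κ = qq k ^ d.natDegree * qq k ^ L' := by
    rw [← pow_add, ← pow_add]
    congr 1
    omega
  field_simp
  linear_combination (#{z ∈ mon k m' | IsCoprime z d} : ℝ) * h14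

theorem var_pars {Γ : Type} [CommGroup Γ] [Fintype Γ] (ν : Γ → ℝ) {B : ℝ}
    (h : ∀ χ : Γ →* ℂ, χ ≠ 1 → ‖∑ c, (ν c : ℂ) * χ c‖ ≤ B) :
    ∑ c, (ν c - (∑ c', ν c') / Fintype.card Γ) ^ 2 ≤ B ^ 2 := by
  have hc : (0 : ℝ) < Fintype.card Γ := by exact_mod_cast Fintype.card_pos
  obtain ⟨μ₀, hμ⟩ : ∃ μ₀ : ℝ, μ₀ = (∑ c', ν c') / Fintype.card Γ := ⟨_, rfl⟩
  rw [← hμ]
  have h1 : ∀ ψ : AddChar (Additive Γ) ℂ,
      ‖∑ c, ((ν c - μ₀ : ℝ) : ℂ) * ψ (Additive.ofMul c)‖ ^ 2 ≤ B ^ 2 := by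
    intro ψ
    by_cases h0 : ψ = 0
    · have h2 : ∑ c, ((ν c - μ₀ : ℝ) : ℂ) * ψ (Additive.ofMul c) = 0 := by
        have h3 : ∑ c, (ν c - μ₀) = 0 := by
          rw [sum_sub_distrib, sum_const, card_univ, nsmul_eq_mul, hμ]
          field_simp
          ring
        simp only [h0, AddChar.zero_apply, mul_one]
        rw [← Complex.ofReal_sum, h3, Complex.ofReal_zero]
      rw [h2, norm_zero, zero_pow two_ne_zero]
      exact sq_nonneg B
    · have h2 : ∑ c : Γ, ψ (Additive.ofMul c) = 0 := by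
        rw [← AddChar.sum_eq_zero_iff_ne_zero.2 h0]
        exact Fintype.sum_equiv Additive.ofMul _ _ fun _ => rfl
      have h3 := h ⟨⟨fun c => ψ (Additive.ofMul c), by simp⟩, fun a b => by
        simp only [ofMul_mul, AddChar.map_add_eq_mul]⟩ (fun h4 => h0 (by
          ext a
          exact DFunLike.congr_fun h4 (Additive.toMul a)))
      have h5 : ∑ c, ((ν c - μ₀ : ℝ) : ℂ) * ψ (Additive.ofMul c) =
          ∑ c, (ν c : ℂ) * ψ (Additive.ofMul c) := by
        simp only [Complex.ofReal_sub, sub_mul]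
        rw [sum_sub_distrib, ← mul_sum, h2, mul_zero, sub_zero]
      rw [h5]
      exact pow_le_pow_left₀ (norm_nonneg _) h3 2
  have h6 : ∑ ψ : AddChar (Additive Γ) ℂ,
      ‖∑ c, ((ν c - μ₀ : ℝ) : ℂ) * ψ (Additive.ofMul c)‖ ^ 2 =
      Fintype.card Γ * ∑ c, (ν c - μ₀) ^ 2 := by
    apply Complex.ofReal_injective
    have h7 : ∀ ψ : AddChar (Additive Γ) ℂ,
        ((‖∑ c, ((ν c - μ₀ : ℝ) : ℂ) * ψ (Additive.ofMul c)‖ ^ 2 : ℝ) : ℂ) =
        ∑ c, ∑ c', ((ν c - μ₀ : ℝ) : ℂ) * ((ν c' - μ₀ : ℝ) : ℂ) *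
          ψ (Additive.ofMul c - Additive.ofMul c') := by
      intro ψ
      rw [← Complex.normSq_eq_norm_sq, ← Complex.mul_conj, map_sum, sum_mul_sum]
      refine sum_congr rfl fun c _ => sum_congr rfl fun c' _ => ?_
      rw [map_mul, Complex.conj_ofReal, sub_eq_add_neg (Additive.ofMul c), AddChar.map_add_eq_mul,
        AddChar.map_neg_eq_conj]
      ring
    rw [Complex.ofReal_sum, sum_congr rfl fun ψ _ => h7 ψ, sum_comm, Complex.ofReal_mul,
      Complex.ofReal_sum, mul_sum]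
    refine sum_congr rfl fun c _ => ?_
    rw [sum_comm]
    simp only [← mul_sum, AddChar.sum_apply_eq_ite, sub_eq_zero, Additive.ofMul.apply_eq_iff_eq,
      mul_ite, mul_zero, sum_ite_eq, mem_univ, if_true, Fintype.card_additive]
    push_cast
    ring
  have h8 : ∑ ψ : AddChar (Additive Γ) ℂ,
      ‖∑ c, ((ν c - μ₀ : ℝ) : ℂ) * ψ (Additive.ofMul c)‖ ^ 2 ≤ Fintype.card Γ * B ^ 2 := by
    refine (sum_le_sum fun ψ _ => h1 ψ).trans_eq ?_
    rw [sum_const, card_univ, AddChar.card_eq, Fintype.card_additive, nsmul_eq_mul]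
  rw [h6] at h8
  exact le_of_mul_le_mul_left h8 hc

end VAR0

end RowVAR0_

section RowVAR_
variable {k : Type} [Field k] [Fintype k]

section VAR

theorem var_const {d y z z' : k[X]} (x : k[X]) (hd : d.Monic) {κ L' r : ℕ} (hy : y ∈ mon k κ)
    (h1 : d ∣ z - z') (h2 : (z - z').degree < r) (h3 : κ + r ≤ L' + d.natDegree) :
    ∑ s ∈ box k L', (if y * z = x + d * s then (1 : ℝ) else 0) =
      ∑ s ∈ box k L', (if y * z' = x + d * s then (1 : ℝ) else 0) := by
  obtain ⟨w, hw⟩ := h1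
  obtain ⟨hym, hyd⟩ := mem_mon.1 hy
  have h4 : (y * w).degree < L' := by
    by_cases h0 : w = 0
    · simp [h0]
    · have h5 : (d * w).natDegree < r :=
        (natDegree_lt_iff_degree_lt (mul_ne_zero hd.ne_zero h0)).2 (hw ▸ h2)
      rw [natDegree_mul hd.ne_zero h0] at h5
      refine (natDegree_lt_iff_degree_lt (mul_ne_zero hym.ne_zero h0)).1 ?_
      rw [natDegree_mul hym.ne_zero h0]
      omega
  rw [← box_sum_shift h4 fun s => if y * z = x + d * s then (1 : ℝ) else 0]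
  refine sum_congr rfl fun s _ => if_congr ?_ rfl rfl
  constructor
  · intro h
    linear_combination h - y * hw
  · intro h
    linear_combination h + y * hw

omit [Fintype k] in
theorem var_cl {Γ ι : Type} [CommGroup Γ] {d : k[X]} {cl : k[X] → Γ} (c1 : cl 1 = 1)
    (cm : ∀ f g : k[X], f.Monic → g.Monic → IsCoprime f d → IsCoprime g d →
      cl (f * g) = cl f * cl g) (P : ι → k[X]) (hP : ∀ i, (P i).Monic ∧ IsCoprime (P i) d)
    (s : Finset ι) : cl (∏ i ∈ s, P i) = ∏ i ∈ s, cl (P i) := by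
  induction s using Finset.induction_on with
  | empty => simpa using c1
  | insert a s ha ih =>
    rw [prod_insert ha, prod_insert ha, cm _ _ (hP a).1
      (monic_prod_of_monic _ _ fun i _ => (hP i).1) (hP a).2
      (IsCoprime.prod_left fun i _ => (hP i).2), ih]

theorem var_x (m L' : ℕ) (d w : k[X]) :
    ∑ x ∈ mon k m, ∑ s ∈ box k L', (if w = x + d * s then (1 : ℝ) else 0) ≤ qq k ^ L' := by
  rw [sum_comm, ← card_box, ← mul_one (#(box k L') : ℝ), ← nsmul_eq_mul, ← sum_const]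
  refine sum_le_sum fun s _ => ?_
  have h : ∀ x : k[X], (w = x + d * s) ↔ (w - d * s = x) := fun x => sub_eq_iff_eq_add.symm
  simp only [h, sum_ite_eq]
  split_ifs <;> norm_num

theorem var {ι : Type} [Fintype ι] {e : ι → ℕ} {d : k[X]} (hd : d.Monic) {κ m L' : ℕ}
    (h1 : d.natDegree ≤ κ) (h2 : κ ≤ L') (h3 : d.natDegree + L' ≤ m) (he : ∀ i, κ < e i)
    (hm : κ + ∑ i, e i = m) :
    𝔼 x ∈ mon k m, (𝔼 s ∈ box k L', WW κ e (x + d * s) - DW k e) ^ 2 ≤
      ((m : ℝ) + 2) ^ (2 * Fintype.card ι) * qq k ^ (2 * κ) / qq k ^ L' := by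
  have hq2 : (2 : ℝ) ≤ qq k := two_le_qq
  have hq : (0 : ℝ) < qq k := by linarith
  obtain ⟨n, hn⟩ : ∃ n, d.natDegree + L' + n = m := ⟨m - (d.natDegree + L'), by omega⟩
  obtain ⟨m', hm'⟩ : ∃ m', ∑ i, e i = m' := ⟨_, rfl⟩
  obtain ⟨t, ht⟩ : ∃ t, L' = κ + t := ⟨L' - κ, by omega⟩
  rw [hm'] at hm
  obtain ⟨Γ, _, _, cl, c1, cm, ci, cc, cr⟩ := hay hd n
  have cc' : ∀ c : Γ, (#{f ∈ mon k m' | IsCoprime f d ∧ cl f = c} : ℝ) = qq k ^ t := fun c => by
    rw [cc m' c (by omega)]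
    congr 1
    omega
  have hr : ∀ c : Γ, ∃ r, r ∈ mon k m' ∧ IsCoprime r d ∧ cl r = c := fun c => by
    have h4 : 0 < #{f ∈ mon k m' | IsCoprime f d ∧ cl f = c} := by
      have := cc' c ▸ pow_pos hq t
      exact_mod_cast this
    obtain ⟨r, hr⟩ := card_pos.1 h4
    exact ⟨r, mem_filter.1 hr⟩
  choose r hr using hr
  obtain ⟨J, hJ⟩ : ∃ J : k[X] → k[X] → Γ → ℝ, ∀ x y c,
      J x y c = ∑ s ∈ box k L', (if y * r c = x + d * s then (1 : ℝ) else 0) := ⟨_, fun _ _ _ => rfl⟩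
  have hJ0 : ∀ x y c, 0 ≤ J x y c := fun x y c => by
    rw [hJ]
    exact sum_nonneg fun s _ => by split_ifs <;> norm_num
  have hI : ∀ x : k[X], ∀ y ∈ mon k κ, ∀ z ∈ mon k m', IsCoprime z d →
      ∑ s ∈ box k L', (if y * z = x + d * s then (1 : ℝ) else 0) = J x y (cl z) := by
    intro x y hy z hz hc
    obtain ⟨r1, r2, r3⟩ := hr (cl z)
    obtain ⟨z1, z2⟩ := mem_mon.1 hz
    obtain ⟨a1, a2⟩ := (ci z (r (cl z)) z1 (mem_mon.1 r1).1 hc r2
      (z2.trans (mem_mon.1 r1).2.symm)).1 r3.symm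
    rw [hJ]
    exact var_const x hd hy a1 a2 (by omega)
  obtain ⟨T, hT⟩ : ∃ T : Finset (ι → k[X]), T = Fintype.piFinset fun i => prs k (e i) := ⟨_, rfl⟩
  have hP : ∀ P ∈ T, ∀ i, ((P i).Monic ∧ IsCoprime (P i) d) ∧ (P i).natDegree = e i := by
    intro P hP i
    rw [hT] at hP
    obtain ⟨a1, a2⟩ := mem_filter.1 (Fintype.mem_piFinset.1 hP i)
    obtain ⟨a3, a4⟩ := mem_mon.1 a1
    refine ⟨⟨a3, a2.coprime_iff_not_dvd.2 fun h => ?_⟩, a4⟩
    have := natDegree_le_of_dvd h hd.ne_zero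
    have := he i
    omega
  have hZ : ∀ P ∈ T, ∏ i, P i ∈ mon k m' ∧ IsCoprime (∏ i, P i) d := fun P h =>
    ⟨mem_mon.2 ⟨monic_prod_of_monic _ _ fun i _ => (hP P h i).1.1, by
      rw [natDegree_prod_of_monic _ _ fun i _ => (hP P h i).1.1, ← hm']
      exact sum_congr rfl fun i _ => (hP P h i).2⟩, IsCoprime.prod_left fun i _ => (hP P h i).1.2⟩
  obtain ⟨ν, hν⟩ : ∃ ν : Γ → ℝ, ∀ c, ν c = ∑ P ∈ T, if cl (∏ i, P i) = c then 1 else 0 :=
    ⟨_, fun _ => rfl⟩
  have hνs : ∀ {R : Type} [CommRing R] [Algebra ℝ R] (F : Γ → R),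
      ∑ c, algebraMap ℝ R (ν c) * F c = ∑ P ∈ T, F (cl (∏ i, P i)) := by
    intro R _ _ F
    simp only [hν, map_sum, sum_mul]
    rw [sum_comm]
    refine sum_congr rfl fun P _ => ?_
    rw [sum_eq_single (cl (∏ i, P i)) (fun c _ hc => by rw [if_neg hc.symm, map_zero, zero_mul])
      fun h => (h (mem_univ _)).elim, if_pos rfl, map_one, one_mul]
  have hνr : ∀ F : Γ → ℝ, ∑ c, ν c * F c = ∑ P ∈ T, F (cl (∏ i, P i)) := fun F => hνs F
  have hB : ∀ χ : Γ →* ℂ, χ ≠ 1 → ‖∑ c, (ν c : ℂ) * χ c‖ ≤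
      ∏ i, (((m : ℝ) + 2) * √(qq k ^ e i)) := by
    intro χ hχ
    have a1 : ∑ c, (ν c : ℂ) * χ c = ∏ i, ∑ P ∈ prs k (e i), χ (cl P) := by
      rw [show ∑ c, (ν c : ℂ) * χ c = _ from hνs (R := ℂ) fun c => χ c, prod_univ_sum, ← hT]
      refine sum_congr rfl fun P h => ?_
      rw [var_cl c1 cm P fun i => (hP P h i).1, map_prod]
    rw [a1, norm_prod]
    refine prod_le_prod (fun i _ => norm_nonneg _) fun i _ => ?_
    refine (cr χ hχ (e i) (lt_of_le_of_lt h1 (he i))).trans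
      (mul_le_mul_of_nonneg_right ?_ (Real.sqrt_nonneg _))
    have : ((d.natDegree + n : ℕ) : ℝ) ≤ m := by exact_mod_cast (by omega : d.natDegree + n ≤ m)
    push_cast at this
    linarith
  have hV := var_pars ν hB
  have hB2 : (∏ i, (((m : ℝ) + 2) * √(qq k ^ e i))) ^ 2 =
      ((m : ℝ) + 2) ^ (2 * Fintype.card ι) * qq k ^ m' := by
    rw [← prod_pow]
    simp only [mul_pow, Real.sq_sqrt (pow_pos hq _).le]
    rw [prod_mul_distrib, prod_const, card_univ, ← pow_mul, prod_pow_eq_pow_sum, hm']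
  rw [hB2] at hV
  have hG : (0 : ℝ) < Fintype.card Γ := by exact_mod_cast Fintype.card_pos
  have hfib : ∀ F : Γ → ℝ, ∑ z ∈ mon k m' with IsCoprime z d, F (cl z) = qq k ^ t * ∑ c, F c := by
    intro F
    rw [← sum_fiberwise _ cl, mul_sum]
    refine sum_congr rfl fun c _ => ?_
    rw [← cc' c, ← filter_filter, ← nsmul_eq_mul, ← sum_const]
    exact sum_congr rfl fun z hz => by rw [(mem_filter.1 hz).2]
  have hcard : (#{z ∈ mon k m' | IsCoprime z d} : ℝ) = qq k ^ t * Fintype.card Γ := by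
    simpa using hfib fun _ => 1
  have hGle : qq k ^ t * Fintype.card Γ ≤ qq k ^ m' := by
    rw [← hcard, ← card_mon]
    exact_mod_cast card_filter_le _ _
  have hS : ∀ x ∈ mon k m, ∑ y ∈ mon k κ, ∑ c, J x y c = qq k ^ L' * Fintype.card Γ / qq k ^ m' := by
    intro x hx
    have a1 := var_model hd h1 h2 (m' := m') (by omega) (x := x) (by rwa [hm])
    rw [box_exp, sum_comm, hcard] at a1
    have a2 : ∀ y ∈ mon k κ, ∑ s ∈ box k L', ∑ z ∈ mon k m' with IsCoprime z d,
        (if y * z = x + d * s then (1 : ℝ) else 0) = qq k ^ t * ∑ c, J x y c := by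
      intro y hy
      rw [sum_comm, ← hfib]
      exact sum_congr rfl fun z hz => hI x y hy z (mem_filter.1 hz).1 (mem_filter.1 hz).2
    rw [sum_congr rfl a2, ← mul_sum] at a1
    field_simp at a1 ⊢
    linarith
  obtain ⟨b, hb⟩ : ∃ b, b = (∑ c', ν c') / Fintype.card Γ := ⟨_, rfl⟩
  rw [← hb] at hV
  have hD : DW k e = b * Fintype.card Γ / qq k ^ m' := by
    have a1 := hνr fun _ => 1
    simp only [mul_one, sum_const, nsmul_eq_mul] at a1
    rw [hb, div_mul_cancel₀ _ hG.ne', a1, hT, Fintype.card_piFinset, DW, hm']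
    push_cast
    rfl
  have hE : ∀ x ∈ mon k m, (𝔼 s ∈ box k L', WW κ e (x + d * s) - DW k e) ^ 2 ≤
      qq k ^ κ * (∑ y ∈ mon k κ, ∑ c, J x y c * (ν c - b) ^ 2) / (qq k ^ L') ^ 2 := by
    intro x hx
    have a1 : ∑ s ∈ box k L', WW κ e (x + d * s) = ∑ y ∈ mon k κ, ∑ c, ν c * J x y c := by
      unfold WW
      rw [sum_comm]
      refine sum_congr rfl fun y hy => ?_
      rw [sum_comm, hνr, ← hT]
      exact sum_congr rfl fun P h => hI x y hy _ (hZ P h).1 (hZ P h).2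
    have a2 : 𝔼 s ∈ box k L', WW κ e (x + d * s) - DW k e =
        (∑ y ∈ mon k κ, ∑ c, J x y c * (ν c - b)) / qq k ^ L' := by
      have a3 : ∑ y ∈ mon k κ, ∑ c, J x y c * (ν c - b) =
          ∑ y ∈ mon k κ, ∑ c, ν c * J x y c - b * ∑ y ∈ mon k κ, ∑ c, J x y c := by
        simp only [mul_sum, ← sum_sub_distrib]
        exact sum_congr rfl fun y _ => sum_congr rfl fun c _ => by ring
      rw [box_exp, a1, a3, hS x hx, hD]
      field_simp
    have a4 := sum_sq_le_sum_mul_sum_of_sq_le_mul (mon k κ ×ˢ (univ : Finset Γ))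
      (r := fun p => J x p.1 p.2 * (ν p.2 - b)) (f := fun p => J x p.1 p.2)
      (g := fun p => J x p.1 p.2 * (ν p.2 - b) ^ 2) (fun p _ => hJ0 _ _ _)
      (fun p _ => mul_nonneg (hJ0 _ _ _) (sq_nonneg _)) fun p _ => le_of_eq (by ring)
    simp only [sum_product] at a4
    rw [a2, div_pow]
    refine div_le_div_of_nonneg_right (a4.trans (mul_le_mul_of_nonneg_right ?_
      (sum_nonneg fun y _ => sum_nonneg fun c _ => mul_nonneg (hJ0 _ _ _) (sq_nonneg _))))
      (sq_nonneg _)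
    rw [hS x hx, div_le_iff₀ (pow_pos hq _), ht, pow_add, mul_assoc]
    exact mul_le_mul_of_nonneg_left hGle (pow_pos hq _).le
  have hX : ∑ x ∈ mon k m, ∑ y ∈ mon k κ, ∑ c, J x y c * (ν c - b) ^ 2 ≤
      qq k ^ κ * (qq k ^ L' * (((m : ℝ) + 2) ^ (2 * Fintype.card ι) * qq k ^ m')) := by
    rw [sum_comm, ← card_mon (k := k) κ, ← nsmul_eq_mul, ← sum_const]
    refine sum_le_sum fun y _ => ?_
    refine le_trans ?_ (mul_le_mul_of_nonneg_left hV (pow_pos hq L').le)
    rw [sum_comm, mul_sum]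
    refine sum_le_sum fun c _ => ?_
    rw [← sum_mul]
    refine mul_le_mul_of_nonneg_right ?_ (sq_nonneg _)
    simp only [hJ]
    exact var_x m L' d _
  rw [box_exp_mon, div_le_iff₀ (pow_pos hq _)]
  refine (sum_le_sum hE).trans ?_
  rw [← sum_div, ← mul_sum]
  refine (div_le_div_of_nonneg_right (mul_le_mul_of_nonneg_left hX (pow_pos hq κ).le)
    (sq_nonneg _)).trans ?_
  have a5 : qq k ^ m' ≤ qq k ^ m := pow_le_pow_right₀ (by linarith) (by omega)
  calc _ = ((m : ℝ) + 2) ^ (2 * Fintype.card ι) * qq k ^ (2 * κ) / qq k ^ L' * qq k ^ m' := by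
        rw [two_mul κ, pow_add]
        field_simp
    _ ≤ _ := mul_le_mul_of_nonneg_left a5 (by positivity)

end VAR

end RowVAR_

end Pool.Agent.MP_2033ac_nt.SI
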