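import Pool.Agent.MP_2033ac_nt.SI.P2

/-! Moebius sums over short intervals. -/

set_option autoImplicit false

open Polynomial Finset Filter
open scoped Classical BigOperators

noncomputable section
namespace Pool.Agent.MP_2033ac_nt.SI
open Pool.Agent.MP_a4a062_nt.C2 Pool.Agent.MP_f0209c_nt.FF
open Pool.Agent.MP_1609a8_nt.H76 (ch)

section RowLAM_
variable {k : Type} [Field k] [Fintype k]

section

theorem lam_mem {n : ℕ} {a : k[X]} :
    a ∈ (range n).biUnion (mon k) ↔ a.Monic ∧ a.natDegree < n := by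
  simp only [mem_biUnion, mem_range, mem_mon]
  exact ⟨fun ⟨_, h1, h2, h3⟩ => ⟨h2, h3 ▸ h1⟩, fun h => ⟨_, h.2, h.1, rfl⟩⟩

theorem lam_eq_sum {f : k[X]} {n : ℕ} (hn : f.natDegree = n) : Lam f =
    -∑ a ∈ (range (n + 1)).biUnion (mon k) with a ∣ f, (a.natDegree : ℝ) * mu a := by
  subst hn
  rw [Lam, sum_filter, sum_biUnion fun i _ j _ hij => disjoint_left.2 fun a h1 h2 =>
    hij ((mem_mon.1 h1).2.symm.trans (mem_mon.1 h2).2)]
  congr 1
  refine sum_congr rfl fun j _ => ?_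
  rw [mul_sum]
  refine sum_congr rfl fun a ha => ?_
  rw [(mem_mon.1 ha).2]
  split_ifs <;> simp

theorem lam_split {P g : k[X]} {r n : ℕ} (hP : P.Monic) (hi : Irreducible P) (hg : g.Monic)
    (hPg : ¬ P ∣ g) (hn : (P ^ (r + 1) * g).natDegree < n) (w : ℕ → ℝ) :
    ∑ a ∈ (range n).biUnion (mon k) with a ∣ P ^ (r + 1) * g, w a.natDegree * mu a =
      ∑ a ∈ (range n).biUnion (mon k) with a ∣ g,
        (w a.natDegree - w (P.natDegree + a.natDegree)) * mu a := by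
  have hc : ∀ a : k[X], ¬ P ∣ a → IsCoprime P a := fun a h => hi.coprime_iff_not_dvd.2 h
  have hd : ∀ a : k[X], ¬ P ∣ a → a ∣ P ^ (r + 1) * g → a ∣ g := fun a h h' =>
    (hc a h).symm.pow_right.dvd_of_dvd_mul_left h'
  have h0 : P ^ (r + 1) * g ≠ 0 := ((hP.pow _).mul hg).ne_zero
  rw [← sum_filter_add_sum_filter_not _ fun a => P ∣ a, filter_filter, filter_filter]
  have e1 : ({a ∈ (range n).biUnion (mon k) | a ∣ P ^ (r + 1) * g ∧ ¬ P ∣ a}) =
      {a ∈ (range n).biUnion (mon k) | a ∣ g} :=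
    filter_congr fun a _ => ⟨fun h => hd a h.2 h.1,
      fun h => ⟨h.mul_left _, fun h' => hPg (h'.trans h)⟩⟩
  have e2 : ∑ a ∈ (range n).biUnion (mon k) with a ∣ P ^ (r + 1) * g ∧ P ∣ a,
      w a.natDegree * mu a = ∑ a ∈ ({a ∈ (range n).biUnion (mon k) | a ∣ g}).image (P * ·),
        w a.natDegree * mu a := by
    symm
    refine sum_subset (fun x hx => ?_) fun x hx hx' => ?_
    · obtain ⟨a, ha, rfl⟩ := mem_image.1 hx
      obtain ⟨h1, h2⟩ := mem_filter.1 ha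
      have h3 : P * a ∣ P ^ (r + 1) * g :=
        mul_dvd_mul (dvd_pow_self P (Nat.succ_ne_zero r)) h2
      exact mem_filter.2 ⟨lam_mem.2 ⟨hP.mul (lam_mem.1 h1).1,
        (natDegree_le_of_dvd h3 h0).trans_lt hn⟩, h3, dvd_mul_right _ _⟩
    · obtain ⟨h1, h2, a, rfl⟩ := mem_filter.1 hx
      obtain ⟨h3, h4⟩ := lam_mem.1 h1
      by_cases h5 : P ∣ a
      · rw [mu, if_neg fun h => hi.not_isUnit (h P (mul_dvd_mul_left P h5)), mul_zero]
      · refine absurd (mem_image.2 ⟨a, mem_filter.2 ⟨lam_mem.2 ⟨hP.of_mul_monic_left h3, ?_⟩,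
          hd a h5 ((dvd_mul_left a P).trans h2)⟩, rfl⟩) hx'
        exact (natDegree_le_of_dvd (dvd_mul_left a P) h3.ne_zero).trans_lt h4
  rw [e1, e2, sum_image fun a _ b _ h => mul_left_cancel₀ hP.ne_zero h, ← sum_add_distrib]
  refine sum_congr rfl fun a ha => ?_
  obtain ⟨h1, h2⟩ := mem_filter.1 ha
  rw [mu_mul (hc a fun h => hPg (h.trans h2)), mu_irr hi, hP.natDegree_mul (lam_mem.1 h1).1]
  ring

omit [Fintype k] in
theorem lam_fac {f : k[X]} (hf : f.Monic) (h1 : f ≠ 1) : ∃ (P g : k[X]) (r : ℕ), P.Monic ∧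
    Irreducible P ∧ g.Monic ∧ ¬ P ∣ g ∧ f = P ^ (r + 1) * g := by
  obtain ⟨P, h2, h3, h4⟩ := exists_monic_irreducible_factor f fun h => h1 (hf.eq_one_of_isUnit h)
  obtain ⟨r, g, h5, h6⟩ := WfDvdMonoid.max_power_factor hf.ne_zero h3
  obtain _ | r := r
  · rw [pow_zero, one_mul] at h6
    exact absurd (h6 ▸ h4) h5
  · exact ⟨P, g, r, h2, h3, (h2.pow _).of_mul_monic_left (h6 ▸ hf), h5, h6⟩

theorem lam_one {n : ℕ} (F : k[X] → ℝ) :
    ∑ a ∈ (range (n + 1)).biUnion (mon k) with a ∣ 1, F a = F 1 := by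
  refine sum_eq_single_of_mem 1 (mem_filter.2 ⟨lam_mem.2 ⟨monic_one, by simp⟩, dvd_rfl⟩)
    fun a ha h => absurd ?_ h
  obtain ⟨h1, h2⟩ := mem_filter.1 ha
  exact (lam_mem.1 h1).1.eq_one_of_isUnit (isUnit_of_dvd_one h2)

theorem lam_mu_one : mu (1 : k[X]) = 1 := by
  have h := mu_mul (isCoprime_one_left (x := (X : k[X])))
  rw [one_mul, mu_irr irreducible_X] at h
  linarith

theorem lam_val {P g : k[X]} {r : ℕ} (hP : P.Monic) (hi : Irreducible P) (hg : g.Monic)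
    (hPg : ¬ P ∣ g) : Lam (P ^ (r + 1) * g) = if g = 1 then (P.natDegree : ℝ) else 0 := by
  rw [lam_eq_sum rfl, lam_split hP hi hg hPg (Nat.lt_succ_self _) fun j => (j : ℝ)]
  split_ifs with h
  · subst h
    rw [lam_one, lam_mu_one]
    simp
  · obtain ⟨P', g', r', h1, h2, h3, h4, rfl⟩ := lam_fac hg h
    have h5 := lam_split h1 h2 h3 h4 (Nat.lt_succ_of_le (natDegree_le_of_dvd
      (dvd_mul_left _ (P ^ (r + 1))) ((hP.pow _).mul hg).ne_zero)) fun _ => (P.natDegree : ℝ)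
    simp only [sub_self, zero_mul, sum_const_zero] at h5
    rw [← sum_neg_distrib, ← h5]
    refine sum_congr rfl fun a _ => ?_
    push_cast
    ring

theorem Lam_irr {f : k[X]} (hf : f.Monic) (hi : Irreducible f) : Lam f = f.natDegree := by
  have := lam_val (r := 0) hf hi monic_one fun h => hi.not_isUnit (isUnit_of_dvd_one h)
  simpa using this

theorem Lam_pow {f : k[X]} (hf : f.Monic) (hi : ¬ Irreducible f) : Lam f = 0 ∨
    (|Lam f| ≤ f.natDegree ∧ ∃ (P : k[X]) (r : ℕ), P.Monic ∧ 2 ≤ r ∧ f = P ^ r) := by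
  by_cases h1 : f = 1
  · left
    rw [lam_eq_sum rfl, h1, lam_one]
    simp
  obtain ⟨P, g, r, h2, h3, h4, h5, rfl⟩ := lam_fac hf h1
  rw [lam_val h2 h3 h4 h5]
  split_ifs with h
  · subst h
    refine Or.inr ⟨?_, P, r + 1, h2, ?_, mul_one _⟩
    · rw [Nat.abs_cast, mul_one, natDegree_pow]
      exact_mod_cast Nat.le_mul_of_pos_left _ (Nat.succ_pos r)
    · obtain _ | r := r
      · exact absurd (by simpa using h3) hi
      · omega
  · exact Or.inl rfl

theorem lam_SS {h j : ℕ} (f₀ : k[X]) (hj : j ≤ h) :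
    SS f₀ h j = qq k ^ h / qq k ^ j * ∑ a ∈ mon k j, mu a := by
  rw [SS, mul_sum]
  refine sum_congr rfl fun a ha => ?_
  obtain ⟨h1, h2⟩ := mem_mon.1 ha
  have h3 := exp_box_dvd (N := h) h1.ne_zero (h2.trans_le hj) isCoprime_one_left f₀
  have hq : qq k ≠ 0 := by have := two_le_qq (k := k); positivity
  simp only [one_mul] at h3
  rw [Finset.expect_eq_sum_div_card, sum_boole, card_box, h2, div_eq_iff (pow_ne_zero _ hq)] at h3
  rw [h3]
  ring

theorem sum_Lam {N h : ℕ} {f₀ : k[X]} (hf : f₀ ∈ mon k N) (h1 : 1 ≤ h) (h2 : h ≤ N) :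
    ∑ t ∈ box k h, Lam (f₀ + t) = qq k ^ h - ∑ j ∈ Ioc h N, (j : ℝ) * SS f₀ h j := by
  have hq : qq k ≠ 0 := by have := two_le_qq (k := k); positivity
  have e1 : ∀ t ∈ box k h, Lam (f₀ + t) = -∑ j ∈ range (N + 1), (j : ℝ) *
      ∑ a ∈ mon k j, if a ∣ f₀ + t then mu a else 0 := fun t ht => by
    obtain ⟨h3, h4⟩ := mem_mon.1 hf
    have h5 : t.degree < f₀.degree := by
      rw [degree_eq_natDegree h3.ne_zero, h4]
      exact (mem_box.1 ht).trans_le (by exact_mod_cast h2)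
    rw [Lam, natDegree_add_eq_left_of_degree_lt h5, h4]
  have e2 : ∀ j : ℕ, ∑ t ∈ box k h, (j : ℝ) * ∑ a ∈ mon k j, (if a ∣ f₀ + t then mu a else 0) =
      (j : ℝ) * SS f₀ h j := fun j => by
    rw [← mul_sum, sum_comm, SS]
    congr 1
    refine sum_congr rfl fun a _ => ?_
    rw [← sum_filter, sum_const, nsmul_eq_mul, mul_comm]
  have e3 : ∑ a ∈ mon k 1, mu a = -qq k := by
    rw [sum_congr rfl fun a ha => mu_irr (irreducible_of_degree_eq_one (by
      rw [degree_eq_natDegree (mem_mon.1 ha).1.ne_zero, (mem_mon.1 ha).2]; rfl)), sum_const,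
      nsmul_eq_mul, card_mon]
    ring
  have e4 : ∑ j ∈ range (h + 1), (j : ℝ) * SS f₀ h j = -qq k ^ h := by
    rw [sum_eq_single_of_mem 1 (mem_range.2 (by omega)) fun j hj hj1 => ?_, lam_SS f₀ h1, e3]
    · field_simp
      simp
    · rcases Nat.eq_zero_or_pos j with rfl | h0
      · simp
      · rw [lam_SS f₀ (Nat.le_of_lt_succ (mem_range.1 hj)), sum_mu (by omega)]
        simp
  have e5 : range (N + 1) = range (h + 1) ∪ Ioc h N := by
    ext j
    simp only [mem_union, mem_range, mem_Ioc]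
    omega
  rw [sum_congr rfl e1, sum_neg_distrib, sum_comm, sum_congr rfl fun j _ => e2 j, e5,
    sum_union (disjoint_left.2 fun j h3 h4 => by
      have := mem_range.1 h3
      have := (mem_Ioc.1 h4).1
      omega), e4]
  ring

end

end RowLAM_

section RowR2_
variable {k : Type} [Field k] [Fintype k]

section

theorem r2_add {N h : ℕ} {f t : k[X]} (hf : f ∈ mon k N) (ht : t ∈ box k h) (hh : h ≤ N) :
    f + t ∈ mon k N := by
  obtain ⟨h1, h2⟩ := mem_mon.1 hf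
  have h3 : t.degree < f.degree := by
    rw [degree_eq_natDegree h1.ne_zero, h2]
    exact (mem_box.1 ht).trans_le (by exact_mod_cast hh)
  exact mem_mon.2 ⟨h1.add_of_left h3, by rw [natDegree_add_eq_left_of_degree_lt h3, h2]⟩

theorem div_mem {N j β : ℕ} {f₀ b : k[X]} (hf : f₀ ∈ mon k N) (h1 : j + β = N)
    (hb : b ∈ mon k β) : f₀ /ₘ b ∈ mon k j := by
  obtain ⟨h2, h3⟩ := mem_mon.1 hf
  obtain ⟨h4, h5⟩ := mem_mon.1 hb
  refine mem_mon.2 ⟨?_, by rw [natDegree_divByMonic _ h4]; omega⟩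
  have : b.degree ≤ f₀.degree := by
    rw [degree_eq_natDegree h2.ne_zero, degree_eq_natDegree h4.ne_zero, h3, h5]
    exact_mod_cast (by omega)
  rw [Monic, leadingCoeff_divByMonic_of_monic h4 this]
  exact h2

theorem r2_mul {β H : ℕ} {b x : k[X]} (hb : b ∈ mon k β) :
    x * b ∈ box k (β + H) ↔ x ∈ box k H := by
  obtain ⟨h4, h5⟩ := mem_mon.1 hb
  rw [mem_box, mem_box, h4.degree_mul, degree_eq_natDegree h4.ne_zero, h5, add_comm β, Nat.cast_add]
  exact WithBot.add_lt_add_iff_right (WithBot.natCast_ne_bot β)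

theorem r2_iff {β H : ℕ} {b : k[X]} (hb : b ∈ mon k β) (f₀ a : k[X]) :
    a * b - f₀ ∈ box k (β + H) ↔ a - f₀ /ₘ b ∈ box k H := by
  obtain ⟨h4, h5⟩ := mem_mon.1 hb
  have hr : (f₀ %ₘ b).degree < ((β + H : ℕ) : WithBot ℕ) := by
    refine (degree_modByMonic_lt f₀ h4).trans_le ?_
    rw [degree_eq_natDegree h4.ne_zero, h5]
    exact_mod_cast Nat.le_add_right β H
  have e : (a - f₀ /ₘ b) * b = a * b - f₀ + f₀ %ₘ b := by
    have := modByMonic_add_div f₀ b
    linear_combination -this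
  rw [← r2_mul (H := H) hb, e, mem_box, mem_box]
  constructor
  · intro h
    exact (degree_add_le _ _).trans_lt (max_lt h hr)
  · intro h
    have := (degree_sub_le _ _).trans_lt (max_lt h hr)
    rwa [add_sub_cancel_right] at this

theorem r2_card {N h j β : ℕ} {f₀ a : k[X]} (hf : f₀ ∈ mon k N) (h1 : j + β = N) (hh : h ≤ N)
    (ha : a ∈ mon k j) :
    #{t ∈ box k h | a ∣ f₀ + t} = #{b ∈ mon k β | a * b - f₀ ∈ box k h} := by
  obtain ⟨h2, h3⟩ := mem_mon.1 ha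
  symm
  refine Finset.card_bij (fun b _ => a * b - f₀) (fun b hb => ?_) (fun b _ b' _ e => ?_)
    fun t ht => ?_
  · exact mem_filter.2 ⟨(mem_filter.1 hb).2, b, by ring⟩
  · exact mul_left_cancel₀ h2.ne_zero (sub_left_injective e)
  · obtain ⟨h4, b, h5⟩ := mem_filter.1 ht
    obtain ⟨h6, h7⟩ := mem_mon.1 (r2_add hf h4 hh)
    have e : a * b - f₀ = t := by rw [← h5]; ring
    rw [h5] at h6 h7
    have h8 : b.Monic := h2.of_mul_monic_left h6
    rw [h2.natDegree_mul h8] at h7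
    exact ⟨b, mem_filter.2 ⟨mem_mon.2 ⟨h8, by omega⟩, by rw [e]; exact h4⟩, e⟩

theorem SS_r2 {N h j β H : ℕ} {f₀ : k[X]} (hf : f₀ ∈ mon k N) (h1 : j + β = N) (h2 : β + H = h)
    (h3 : H ≤ j) : SS f₀ h j =
      qq k ^ h * 𝔼 b ∈ mon k β, 𝔼 t ∈ box k H, mu (f₀ /ₘ b + t) := by
  subst h2
  have hq : qq k ≠ 0 := by have := two_le_qq (k := k); positivity
  have e1 : SS f₀ (β + H) j =
      ∑ b ∈ mon k β, ∑ a ∈ mon k j with a - f₀ /ₘ b ∈ box k H, mu a := by
    simp only [SS, sum_filter]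
    rw [sum_comm]
    refine sum_congr rfl fun a ha => ?_
    rw [r2_card hf h1 (by omega) ha, card_filter, Nat.cast_sum, mul_sum]
    refine sum_congr rfl fun b hb => ?_
    simp only [r2_iff hb]
    split_ifs <;> simp
  have e2 : ∀ b ∈ mon k β, ∑ a ∈ mon k j with a - f₀ /ₘ b ∈ box k H, mu a =
      ∑ t ∈ box k H, mu (f₀ /ₘ b + t) := fun b hb => by
    refine Finset.sum_bij' (fun a _ => a - f₀ /ₘ b) (fun t _ => f₀ /ₘ b + t)
      (fun a ha => (mem_filter.1 ha).2) (fun t ht => ?_) (fun a _ => by ring) (fun t _ => by ring)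
      fun a _ => by rw [add_sub_cancel]
    exact mem_filter.2 ⟨r2_add (div_mem hf h1 hb) ht h3, by rwa [add_sub_cancel_left]⟩
  rw [e1, sum_congr rfl e2]
  simp only [Finset.expect_eq_sum_div_card, card_box, card_mon, ← sum_div]
  rw [pow_add]
  field_simp

end

end RowR2_

section RowPOW_
variable {k : Type} [Field k] [Fintype k]
variable [CharP k 2]

section

omit [CharP k 2] in
theorem pow_add_mem {N h : ℕ} {f t : k[X]} (hf : f ∈ mon k N) (ht : t ∈ box k h) (hh : h ≤ N) :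
    f + t ∈ mon k N := by
  obtain ⟨h1, h2⟩ := mem_mon.1 hf
  have h3 : t.degree < f.degree := by
    rw [degree_eq_natDegree h1.ne_zero, h2]
    exact (mem_box.1 ht).trans_le (by exact_mod_cast hh)
  exact mem_mon.2 ⟨h1.add_of_left h3, by rw [natDegree_add_eq_left_of_degree_lt h3, h2]⟩

theorem pow_sq_card (h : ℕ) (f₀ : k[X]) :
    (#{t ∈ box k h | ∃ S : k[X], f₀ + t = S ^ 2} : ℝ) ≤ qq k ^ ((h + 1) / 2) := by
  rw [← card_box, Nat.cast_le]
  rcases ({t ∈ box k h | ∃ S : k[X], f₀ + t = S ^ 2}).eq_empty_or_nonempty with h0 | ⟨t₀, h0⟩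
  · rw [h0]; exact Nat.zero_le _
  obtain ⟨h1, S₀, h2⟩ := mem_filter.1 h0
  refine le_trans (card_le_card fun t ht => ?_)
    (card_image_le (s := box k ((h + 1) / 2)) (f := fun x => t₀ + x ^ 2))
  obtain ⟨h3, S, h4⟩ := mem_filter.1 ht
  have h5 : (2 : k[X]) = 0 := CharTwo.two_eq_zero
  have e : (S - S₀) ^ 2 = t - t₀ := by
    linear_combination h2 - h4 + (S₀ ^ 2 - S * S₀) * h5
  refine mem_image.2 ⟨S - S₀, mem_box.2 ?_, by rw [e]; ring⟩
  have h6 : ((S - S₀) ^ 2).degree < h := by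
    rw [e]
    exact (degree_sub_le _ _).trans_lt (max_lt (mem_box.1 h3) (mem_box.1 h1))
  by_cases h7 : S - S₀ = 0
  · rw [h7, degree_zero]; exact WithBot.bot_lt_coe _
  rw [← natDegree_lt_iff_degree_lt (pow_ne_zero 2 h7), natDegree_pow] at h6
  rw [← natDegree_lt_iff_degree_lt h7]
  omega

omit [CharP k 2] in
theorem pow_hi_card (N h : ℕ) (f₀ : k[X]) :
    (#{t ∈ box k h | ∃ r ∈ Icc 3 N, ∃ P ∈ mon k (N / r), f₀ + t = P ^ r} : ℝ) ≤
      N * qq k ^ (N / 3) := by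
  have h1 : {t ∈ box k h | ∃ r ∈ Icc 3 N, ∃ P ∈ mon k (N / r), f₀ + t = P ^ r} ⊆
      (Icc 3 N).biUnion fun r => (mon k (N / r)).image fun P => P ^ r - f₀ := fun t ht => by
    obtain ⟨-, r, hr, P, hP, e⟩ := mem_filter.1 ht
    exact mem_biUnion.2 ⟨r, hr, mem_image.2 ⟨P, hP, by rw [← e]; ring⟩⟩
  have hq : 1 ≤ qq k := by have := two_le_qq (k := k); linarith
  calc _ ≤ ((∑ r ∈ Icc 3 N, #((mon k (N / r)).image fun P => P ^ r - f₀) : ℕ) : ℝ) :=
        Nat.cast_le.2 ((card_le_card h1).trans card_biUnion_le)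
    _ ≤ ∑ r ∈ Icc 3 N, qq k ^ (N / 3) := by
        rw [Nat.cast_sum]
        refine sum_le_sum fun r hr => ?_
        refine (Nat.cast_le.2 card_image_le).trans ?_
        rw [card_mon]
        exact pow_le_pow_right₀ hq (Nat.div_le_div_left (mem_Icc.1 hr).1 (by norm_num))
    _ ≤ N * qq k ^ (N / 3) := by
        rw [sum_const, nsmul_eq_mul, Nat.card_Icc]
        exact mul_le_mul_of_nonneg_right (Nat.cast_le.2 (by omega)) (by positivity)

theorem count_le {N h : ℕ} {f₀ : k[X]} (hf : f₀ ∈ mon k N) (h1 : 1 ≤ h) (h2 : h ≤ N) :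
    |(N : ℝ) * (#{t ∈ box k h | Irreducible (f₀ + t)} : ℝ) - qq k ^ h| ≤
      ∑ j ∈ Ioc h N, (j : ℝ) * |SS f₀ h j| +
        N * (qq k ^ ((h + 1) / 2) + N * qq k ^ (N / 3)) := by
  have hN : (0 : ℝ) ≤ N := Nat.cast_nonneg N
  have key : ∀ t ∈ box k h, |Lam (f₀ + t) - N * (if Irreducible (f₀ + t) then 1 else 0)| ≤
      N * ((if ∃ S : k[X], f₀ + t = S ^ 2 then 1 else 0) +
        if ∃ r ∈ Icc 3 N, ∃ P ∈ mon k (N / r), f₀ + t = P ^ r then 1 else 0) := by
    intro t ht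
    obtain ⟨h3, h4⟩ := mem_mon.1 (pow_add_mem hf ht h2)
    have h0 : (0 : ℝ) ≤ N * ((if ∃ S : k[X], f₀ + t = S ^ 2 then 1 else 0) +
        if ∃ r ∈ Icc 3 N, ∃ P ∈ mon k (N / r), f₀ + t = P ^ r then 1 else 0) :=
      mul_nonneg hN (by split_ifs <;> norm_num)
    by_cases hi : Irreducible (f₀ + t)
    · rw [Lam_irr h3 hi, h4, if_pos hi, mul_one, sub_self, abs_zero]
      exact h0
    rw [if_neg hi, mul_zero, sub_zero]
    rcases Lam_pow h3 hi with h5 | ⟨h5, P, r, hP, hr, e⟩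
    · rw [h5, abs_zero]
      exact h0
    rw [h4] at h5
    refine h5.trans (le_mul_of_one_le_right hN ?_)
    rcases hr.eq_or_lt with rfl | hr
    · rw [if_pos ⟨P, e⟩]
      split_ifs <;> norm_num
    · rw [e, natDegree_pow] at h4
      have h6 : 0 < P.natDegree := Nat.pos_of_ne_zero fun h => by rw [h] at h4; omega
      rw [if_pos (show ∃ r ∈ Icc 3 N, ∃ P ∈ mon k (N / r), f₀ + t = P ^ r from
        ⟨r, mem_Icc.2 ⟨hr, h4 ▸ Nat.le_mul_of_pos_right r h6⟩, P,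
          mem_mon.2 ⟨hP, by rw [← h4, Nat.mul_div_cancel_left _ (by omega)]⟩, e⟩)]
      split_ifs <;> norm_num
  have h3 := (abs_sum_le_sum_abs _ _).trans (sum_le_sum key)
  rw [sum_sub_distrib, ← mul_sum, ← mul_sum, sum_add_distrib, sum_boole, sum_boole, sum_boole,
    sum_Lam hf h1 h2] at h3
  have h4 := mul_le_mul_of_nonneg_left (add_le_add (pow_sq_card h f₀) (pow_hi_card N h f₀)) hN
  have h5 : |∑ j ∈ Ioc h N, (j : ℝ) * SS f₀ h j| ≤ ∑ j ∈ Ioc h N, (j : ℝ) * |SS f₀ h j| :=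
    (abs_sum_le_sum_abs _ _).trans (le_of_eq (sum_congr rfl fun j _ => by
      rw [abs_mul, Nat.abs_cast]))
  rw [abs_le] at h3 h5 ⊢
  constructor <;> linarith [h3.1, h3.2, h5.1, h5.2]

end

end RowPOW_

section RowR1_
variable {k : Type} [Field k] [Fintype k]
variable [CharP k 2]

section R1

omit [CharP k 2] in
theorem r1_psi_zero : psi (0 : k) = 1 := by
  unfold psi
  rw [if_pos ⟨0, by simp⟩]

omit [CharP k 2] in
theorem r1_cnt {h j : ℕ} {a : k[X]} (ha : a ∈ mon k j) (h1 : h < j) (f₀ : k[X]) :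
    (#{t ∈ box k h | a ∣ f₀ + t} : ℝ) = if (f₀ %ₘ a).degree < h then 1 else 0 := by
  obtain ⟨hm, hd⟩ := mem_mon.1 ha
  have hda : a.degree = j := by rw [degree_eq_natDegree hm.ne_zero, hd]
  have key : ∀ t : k[X], t.degree < h → a ∣ f₀ + t → t = -(f₀ %ₘ a) := by
    intro t ht hdv
    have h2 : f₀ %ₘ a = (-t) %ₘ a :=
      modByMonic_eq_of_dvd_sub hm (by rwa [sub_neg_eq_add])
    have h3 : (-t) %ₘ a = -t := by
      refine (modByMonic_eq_self_iff hm).2 ?_
      rw [degree_neg, hda]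
      exact ht.trans (by exact_mod_cast h1)
    rw [h2, h3, neg_neg]
  split_ifs with hr
  · have : {t ∈ box k h | a ∣ f₀ + t} = {-(f₀ %ₘ a)} := by
      ext t
      simp only [mem_filter, mem_box, mem_singleton]
      constructor
      · rintro ⟨h2, h3⟩
        exact key t h2 h3
      · rintro rfl
        refine ⟨by rwa [degree_neg], f₀ /ₘ a, ?_⟩
        have := modByMonic_add_div f₀ a
        linear_combination -this
    rw [this]
    simp
  · have : {t ∈ box k h | a ∣ f₀ + t} = ∅ := by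
      refine filter_eq_empty_iff.2 fun t ht hdv => hr ?_
      have h2 := key t (mem_box.1 ht) hdv
      have h3 := mem_box.1 ht
      rwa [h2, degree_neg] at h3
    rw [this]
    simp

theorem r1_orth {h j : ℕ} {a : k[X]} (ha : a ∈ mon k j) (h1 : h < j) (f₀ : k[X]) :
    𝔼 t ∈ box k (j - h), psi (tau a (t * f₀)) = if (f₀ %ₘ a).degree < h then 1 else 0 := by
  obtain ⟨hm, hd⟩ := mem_mon.1 ha
  have hda : a.degree = j := by rw [degree_eq_natDegree hm.ne_zero, hd]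
  have hc : ∀ t : k[X], tau a (t * f₀) = tau a (t * (f₀ %ₘ a)) := by
    intro t
    refine tau_congr hm ⟨t * (f₀ /ₘ a), ?_⟩
    have := modByMonic_add_div f₀ a
    linear_combination (-t) * this
  have hrj : (f₀ %ₘ a).degree < j := hda ▸ degree_modByMonic_lt f₀ hm
  generalize f₀ %ₘ a = r at hc hrj
  split_ifs with hr
  · have : ∀ t ∈ box k (j - h), psi (tau a (t * f₀)) = 1 := by
      intro t ht
      have ht' := mem_box.1 ht
      have hlt : (t * r).degree < ((j - 1 : ℕ) : WithBot ℕ) := by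
        by_cases h0 : t * r = 0
        · rw [h0, degree_zero]
          exact WithBot.bot_lt_coe _
        · have ht0 : t ≠ 0 := left_ne_zero_of_mul h0
          have hr0 : r ≠ 0 := right_ne_zero_of_mul h0
          have e1 := (natDegree_lt_iff_degree_lt ht0).2 ht'
          have e2 := (natDegree_lt_iff_degree_lt hr0).2 hr
          refine (natDegree_lt_iff_degree_lt h0).1 ?_
          rw [natDegree_mul ht0 hr0]
          omega
      rw [hc, tau_of_lt hm, hd, coeff_eq_zero_of_degree_lt hlt, r1_psi_zero]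
      rw [hda]
      exact hlt.trans_le (by exact_mod_cast Nat.sub_le j 1)
    rw [expect_congr rfl this, expect_const (box_nonempty _)]
  · have hr0 : r ≠ 0 := by
      rintro rfl
      exact hr (by rw [degree_zero]; exact WithBot.bot_lt_coe _)
    have e1 : r.natDegree < j := (natDegree_lt_iff_degree_lt hr0).2 hrj
    have e2 : ¬ r.natDegree < h := fun h2 => hr ((natDegree_lt_iff_degree_lt hr0).1 h2)
    obtain ⟨c, hcn⟩ := exists_psi_neg (k := k)
    have hl : r.leadingCoeff ≠ 0 := leadingCoeff_ne_zero.2 hr0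
    have ht0 : (C (c * r.leadingCoeff⁻¹) * X ^ (j - 1 - r.natDegree) : k[X]).degree <
        ((j - h : ℕ) : WithBot ℕ) :=
      (degree_C_mul_X_pow_le _ _).trans_lt (by exact_mod_cast (by omega))
    have hv : tau a (C (c * r.leadingCoeff⁻¹) * X ^ (j - 1 - r.natDegree) * f₀) = c := by
      rw [hc, mul_assoc, tau_C_mul, tau_of_lt hm, hd]
      · have e3 : j - 1 = r.natDegree + (j - 1 - r.natDegree) := by omega
        have e4 : (X ^ (j - 1 - r.natDegree) * r).coeff (j - 1) = r.leadingCoeff := by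
          have e5 := coeff_X_pow_mul r (j - 1 - r.natDegree) r.natDegree
          rwa [← e3] at e5
        rw [e4, mul_assoc, inv_mul_cancel₀ hl, mul_one]
      · rw [hda]
        have h0 : (X ^ (j - 1 - r.natDegree) * r : k[X]) ≠ 0 :=
          mul_ne_zero (pow_ne_zero _ X_ne_zero) hr0
        refine (natDegree_lt_iff_degree_lt h0).1 ?_
        rw [natDegree_mul (pow_ne_zero _ X_ne_zero) hr0, natDegree_X_pow]
        omega
    have hs := exp_box_shift ht0 fun t => psi (tau a (t * f₀))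
    have hn : ∀ t ∈ box k (j - h), psi (tau a ((t + C (c * r.leadingCoeff⁻¹) *
        X ^ (j - 1 - r.natDegree)) * f₀)) = -psi (tau a (t * f₀)) := by
      intro t _
      rw [add_mul, tau_add, psi_add, hv, hcn, mul_neg, mul_one]
    rw [expect_congr rfl hn, expect_neg_distrib] at hs
    linarith

theorem SS_r1 {N h j : ℕ} {f₀ : k[X]} (hf : f₀ ∈ mon k N) (h1 : h < j) :
    ∃ Y : k[X], Y.natDegree ≤ N + (j - h) ∧
      |SS f₀ h j| ≤ qq k ^ j * |𝔼 a ∈ mon k j, mu a * psi (tau a Y)| := by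
  obtain ⟨t, ht, hmax⟩ := exists_max_image (box k (j - h))
    (fun t => |∑ a ∈ mon k j, mu a * psi (tau a (t * f₀))|) (box_nonempty _)
  refine ⟨t * f₀, ?_, ?_⟩
  · have e1 : t.natDegree ≤ j - h := natDegree_le_of_degree_le (mem_box.1 ht).le
    have e2 := natDegree_mul_le (p := t) (q := f₀)
    have e3 := (mem_mon.1 hf).2
    omega
  · have e1 : SS f₀ h j = 𝔼 t ∈ box k (j - h), ∑ a ∈ mon k j, mu a * psi (tau a (t * f₀)) := by
      unfold SS
      rw [expect_sum_comm]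
      refine sum_congr rfl fun a ha => ?_
      rw [r1_cnt ha h1, ← r1_orth ha h1, mul_expect]
    have e2 : qq k ^ j * |𝔼 a ∈ mon k j, mu a * psi (tau a (t * f₀))| =
        |∑ a ∈ mon k j, mu a * psi (tau a (t * f₀))| := by
      rw [← card_mul_expect, abs_mul, Nat.abs_cast, card_mon]
    rw [e1, e2]
    exact (abs_expect_le _ _).trans (expect_le (box_nonempty _) hmax)

omit [Fintype k] [CharP k 2] in
theorem r1_tau {a x Y : k[X]} (hm : a.Monic) (h1 : x.natDegree < a.natDegree)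
    (h2 : 3 * x.natDegree + Y.natDegree + 1 < 4 * a.natDegree) :
    tau (a + x) Y = tau (a ^ 3) (Y * a ^ 2 + -(Y * a) * x + Y * (x * x)) := by
  have hx : (a + x).Monic := hm.add_of_left (degree_lt_degree h1)
  have hn : (a + x).natDegree = a.natDegree := natDegree_add_eq_left_of_natDegree_lt h1
  have h3 : (a ^ 3 * (a + x)).Monic := (hm.pow 3).mul hx
  have h4 : (a ^ 3 * (a + x)).natDegree = 4 * a.natDegree := by
    rw [(hm.pow 3).natDegree_mul hx, hn, natDegree_pow]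
    ring
  have h5 : (-(Y * x ^ 3)).natDegree < 4 * a.natDegree - 1 := by
    have e1 := natDegree_mul_le (p := Y) (q := x ^ 3)
    have e2 := natDegree_pow_le (p := x) (n := 3)
    rw [natDegree_neg]
    omega
  have h6 : tau (a ^ 3 * (a + x)) (-(Y * x ^ 3)) = 0 := by
    rw [tau_of_lt h3 (degree_lt_degree (by omega)), h4, coeff_eq_zero_of_natDegree_lt h5]
  rw [← tau_mul hx (hm.pow 3) Y, ← tau_mul (hm.pow 3) hx, mul_comm (a + x),
    show Y * a ^ 3 = (Y * a ^ 2 + -(Y * a) * x + Y * (x * x)) * (a + x) + -(Y * x ^ 3) by ring,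
    tau_add, h6, add_zero]

theorem phase {j γ l : ℕ} {Y f g : k[X]} (hf : f ∈ mon k j) (hg : g.natDegree ≤ γ)
    (h1 : γ + 2 * l < j) (h2 : 3 * (γ + 2 * l) + Y.natDegree + 1 < 4 * j) :
    ∃ u : k[X] → ℝ, Kill 18 1 u ∧ ∀ s ∈ box k l, psi (tau (f + g * s ^ 2) Y) = u s := by
  obtain ⟨hm, hd⟩ := mem_mon.1 hf
  refine ⟨fun s => psi (tau (f ^ 3) (Y * f ^ 2 + -(Y * f) * (g * (s * s)) +
    Y * (g * (s * s) * (g * (s * s))))), fun A => ⟨1, _, by simp, ?_, fun s => (one_mul _).symm⟩,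
    fun s hs => ?_⟩
  · have e1 : PDeg 1 fun s : k[X] => A + 1 * s :=
      (PDeg.const 1 A).add ((PDeg.const 0 (1 : k[X])).mul PDeg.id)
    have e2 : PDeg 2 fun s : k[X] => g * ((A + 1 * s) * (A + 1 * s)) :=
      (PDeg.const 0 g).mul (e1.mul e1)
    have e3 := (((PDeg.const 4 (Y * f ^ 2)).add
      (((PDeg.const 0 (-(Y * f))).mul e2).mono (by norm_num))).add
      ((PDeg.const 0 Y).mul (e2.mul e2))).map (tau (f ^ 3)) (tau_add _)
    exact e3.mono (by norm_num)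
  · have e1 : s.natDegree ≤ l := natDegree_le_of_degree_le (mem_box.1 hs).le
    have e2 := natDegree_mul_le (p := g) (q := s * s)
    have e3 := natDegree_mul_le (p := s) (q := s)
    rw [sq s, r1_tau hm (by omega) (by omega)]

end R1

end RowR1_

section RowLINE_


section
variable {k : Type} [Field k] [Fintype k]

omit [Fintype k] in
theorem line_tau_sum {ι : Type} (s : Finset ι) (M : k[X]) (P : ι → k[X]) :
    tau M (∑ i ∈ s, P i) = ∑ i ∈ s, tau M (P i) := by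
  induction s using Finset.induction_on with
  | empty => simp [tau]
  | insert i s hi ih => rw [sum_insert hi, sum_insert hi, tau_add, ih]

omit [Fintype k] in
theorem line_crt {ι : Type} [Fintype ι] {u v : ι → k[X]} (hu : ∀ i, (u i).Monic)
    (hc : Pairwise fun i j => IsCoprime (u i) (u j))
    (hv : ∀ i, u i ∣ (∏ j ∈ univ.erase i, u j) * v i - 1) (N : k[X]) :
    tau (∏ i, u i) N = ∑ i, tau (u i) (N * v i) := by
  have e : ∀ i, tau (u i) (N * v i) = tau (∏ i, u i) (N * v i * ∏ j ∈ univ.erase i, u j) :=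
    fun i => by
      rw [← mul_prod_erase univ u (mem_univ i),
        tau_mul (hu i) (monic_prod_of_monic _ _ fun j _ => hu j)]
  simp only [e]
  rw [← line_tau_sum]
  refine tau_congr (monic_prod_of_monic _ _ fun j _ => hu j) ?_
  refine Fintype.prod_dvd_of_coprime hc fun i => ?_
  rw [← add_sum_erase univ _ (mem_univ i), ← sub_sub]
  refine dvd_sub ?_ (dvd_sum fun j hj => Dvd.dvd.mul_left
    (dvd_prod_of_mem u (mem_erase.2 ⟨(ne_of_mem_erase hj).symm, mem_univ i⟩)) _)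
  obtain ⟨t, ht⟩ := hv i
  exact ⟨-(N * t), by linear_combination (-N) * ht⟩

theorem line_comp {n : ℕ} {W : k[X]} {Θ : k[X] → ℝ} (h : Kill n W Θ) (A g : k[X]) :
    Kill n W fun s => if IsCoprime (A + g * s) W then Θ (A + g * s) else 0 := by
  intro s
  have e : ∀ t, A + g * (s + W * t) = A + g * s + W * (g * t) := fun t => by ring
  by_cases hc : IsCoprime (A + g * s) W
  · obtain ⟨c, F, h1, h2, h3⟩ := h (A + g * s)
    refine ⟨c, fun t => F (g * t), h1, h2.comp _ fun a b => mul_add _ _ _, fun t => ?_⟩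
    simp only [e, IsCoprime.add_mul_left_left_iff, if_pos hc, h3]
  · refine ⟨0, fun _ => 0, by simp, PDeg.const _ _, fun t => ?_⟩
    simp only [e, IsCoprime.add_mul_left_left_iff, if_neg hc, zero_mul]

theorem line_abs {n : ℕ} {W : k[X]} {Θ : k[X] → ℝ} (h : Kill n W Θ) (A : k[X]) : |Θ A| ≤ 1 := by
  obtain ⟨c, F, h1, -, h3⟩ := h A
  have := h3 0
  rw [mul_zero, add_zero] at this
  rw [this, abs_mul]
  unfold psi
  split_ifs <;> simpa using h1

theorem line_per (n : ℕ) {D : k[X]} {u : k[X] → ℝ} (h1 : ∀ s, |u s| ≤ 1)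
    (h2 : ∀ s y, u (s + D * y) = u s) : Kill n D u := fun A =>
  ⟨u A, fun _ => 0, h1 A, PDeg.const _ _, fun s => by rw [h2, loc_psi_zero, mul_one]⟩

theorem line_deg {A g s : k[X]} {m l : ℕ} (hA : A.natDegree ≤ m) (hg : g.natDegree + l ≤ m + 1)
    (hs : s ∈ box k l) : (A + g * s).natDegree ≤ m := by
  rcases eq_or_ne s 0 with rfl | h0
  · simpa using hA
  rw [mem_box, ← natDegree_lt_iff_degree_lt h0] at hs
  have := natDegree_mul_le (p := g) (q := s)
  exact (natDegree_add_le _ _).trans (max_le hA (by omega))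

variable [CharP k 2]

theorem line_psi_sum {ι : Type} (s : Finset ι) (c : ι → k) :
    psi (∑ i ∈ s, c i) = ∏ i ∈ s, psi (c i) := by
  induction s using Finset.induction_on with
  | empty => simp [loc_psi_zero]
  | insert i s hi ih => rw [sum_insert hi, prod_insert hi, psi_add, ih]

theorem line_lam {ι : Type} [Fintype ι] {M : ι → k[X]} (hM : ∀ i, (M i).Monic)
    (hc : Pairwise fun i j => IsCoprime (M i) (M j)) : ∃ c : ℝ, |c| = 1 ∧
      ∀ (A : k[X]) (U G : ι → k[X]), A.natDegree ≤ (∏ i, M i).natDegree →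
        (∀ i, M i ^ 4 ∣ A * U i - 1) → (∀ i, M i ^ 4 ∣ (∏ j ∈ univ.erase i, M j) * G i - 1) →
        lam (A ^ 2 + X * (∏ i, M i) ^ 2) = c * ∏ i, psi (vv (M i) (∏ i, M i) A (U i) (G i)) := by
  obtain ⟨c, hb⟩ := lb_berl (k := k) (∏ i, M i).natDegree
  refine ⟨-psi c, ?_, fun A U G hA hU hG => ?_⟩
  · unfold psi
    split_ifs <;> simp
  have cop : ∀ {x y z : k[X]}, x ^ 4 ∣ y * z - 1 → IsCoprime y x := fun {x y z} ⟨s, hs⟩ =>
    ⟨z, -(x ^ 3 * s), by linear_combination hs⟩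
  have c0 : IsCoprime A (∏ i, M i) := IsCoprime.prod_right fun i _ => cop (hU i)
  have c1 : IsCoprime (A ^ 2 + X * (∏ i, M i) ^ 2) ((∏ i, M i) ^ 4) := by
    refine IsCoprime.pow_right ?_
    rw [sq (∏ i, M i), ← mul_assoc]
    exact (c0.pow_left).add_mul_right_left _
  obtain ⟨V, s, hs⟩ := c1
  have hV : (∏ i, M i) ^ 4 ∣ (A ^ 2 + X * (∏ i, M i) ^ 2) * V - 1 := ⟨-s, by linear_combination hs⟩
  have pw : ∀ {x y z : k[X]}, x ^ 4 ∣ y * z - 1 → x ^ 4 ∣ y ^ 4 * z ^ 4 - 1 := fun {x y z} h => by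
    rw [← mul_pow]
    exact h.trans (by simpa using sub_dvd_pow_sub_pow (y * z) 1 4)
  have l : ∀ i, _ := fun i => by
    have e := mul_prod_erase univ M (mem_univ i)
    have := lb_local (X ^ 3 * hasseDeriv 4 (A ^ 2 + X * (∏ i, M i) ^ 2)) (hM i) (hU i) (hG i)
      (V := V) (by
        rw [e]
        exact (pow_dvd_pow_of_dvd (dvd_prod_of_mem M (mem_univ i)) 4).trans hV)
    rw [e] at this
    exact this
  rw [hb A (∏ i, M i) V (monic_prod_of_monic _ _ fun j _ => hM j) rfl hA hV]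
  simp only [← l]
  generalize (_ + _ + X ^ 3 * hasseDeriv 4 (A ^ 2 + X * (∏ i, M i) ^ 2) * (∏ i, M i) ^ 4) * V = N
  rw [← prod_pow, line_crt (u := fun i => M i ^ 4) (v := fun i => G i ^ 4) (fun i => (hM i).pow 4)
    (fun i j h => (hc h).pow) (fun i => by rw [prod_pow]; exact pw (hG i)), psi_add, line_psi_sum]
  ring

theorem line_locm {ι : Type} [Fintype ι] {M : ι → k[X]} (hM : ∀ i, (M i).Monic)
    (hc : Pairwise fun i j => IsCoprime (M i) (M j)) : ∃ (c : ℝ) (Θ : ι → k[X] → ℝ), |c| = 1 ∧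
      (∀ i A, Θ i A * Θ i A = 1) ∧ (∀ i, Kill 18 (M i) (Θ i)) ∧
      (∀ A, A.natDegree ≤ (∏ i, M i).natDegree → IsCoprime A (∏ i, M i) →
        lam (A ^ 2 + X * (∏ i, M i) ^ 2) = c * ∏ i, Θ i A) ∧
      ∀ i, Irreducible (M i) → ∀ A y z U G, M i ∣ A * U - 1 →
        M i ∣ (∏ j ∈ univ.erase i, M j) * G - 1 →
        Θ i A * Θ i (A + M i * y) * Θ i (A + M i * z) * Θ i (A + M i * y + M i * z) =
          psi (tau (M i) (derivative (M i) ^ 2 * G ^ 2 * U * (y ^ 2 * z + y * z ^ 2))) := by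
  obtain ⟨c, h1, H⟩ := line_lam hM hc
  choose u hu using fun i => loc_inv (M i)
  have hr : ∀ i, IsCoprime (∏ j ∈ univ.erase i, M j) (M i) := fun i =>
    IsCoprime.prod_left fun j hj => hc (ne_of_mem_erase hj)
  refine ⟨c, fun i A => if IsCoprime A (M i) then
      1 * psi (vv (M i) (∏ i, M i) A (u i A) (u i (∏ j ∈ univ.erase i, M j))) else 1, h1,
    fun i A => ?_, fun i => loc_kill (hM i) _ _ (hu i) (by simp) (by simp),
    fun A hA hco => ?_, fun i hi A y z U G hU hG' => ?_⟩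
  · beta_reduce
    split_ifs
    · rw [one_mul, loc_psi_sq]
    · rw [one_mul]
  · have h2 : ∀ i, IsCoprime A (M i) := fun i =>
      hco.of_isCoprime_of_dvd_right (dvd_prod_of_mem M (mem_univ i))
    simp only [if_pos (h2 _), one_mul]
    exact H A _ _ hA (fun i => hu i A (h2 i)) fun i => hu i _ (hr i)
  · have hp := hM i
    have hG := hu i _ (hr i)
    have hpr := (hr i).symm
    have hB : M i ∣ ∏ i, M i := dvd_prod_of_mem M (mem_univ i)
    have hu' := hu i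
    beta_reduce
    generalize (∏ j ∈ univ.erase i, M j) = r at *
    generalize (∏ j, M j) = B at *
    generalize u i = v at *
    generalize M i = p at *
    have h0 : IsCoprime A p := by
      obtain ⟨t, ht⟩ := hU
      exact ⟨U, -t, by linear_combination ht⟩
    have h1 := (loc_cop y).2 h0
    have h2 := (loc_cop z).2 h0
    have h3 := (loc_cop z).2 h1
    obtain ⟨w, hw⟩ := vv_diff (B := B) (v r) hp hi hB (hu' _ h0) (hu' _ h1) (hu' _ h2) (hu' _ h3)
    have p4 : p ∣ p ^ 4 := dvd_pow_self p (by norm_num)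
    have e1 : p ∣ v A - U := by
      refine h0.symm.dvd_of_dvd_mul_left ?_
      have := dvd_sub (p4.trans (hu' A h0)) hU
      rwa [show A * v A - 1 - (A * U - 1) = A * (v A - U) by ring] at this
    have e2 : p ∣ v r - G := by
      refine hpr.dvd_of_dvd_mul_left ?_
      have := dvd_sub (p4.trans hG) hG'
      rwa [show r * v r - 1 - (r * G - 1) = r * (v r - G) by ring] at this
    have e3 : tau p (derivative p ^ 2 * v r ^ 2 * v A * (y ^ 2 * z + y * z ^ 2)) =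
        tau p (derivative p ^ 2 * G ^ 2 * U * (y ^ 2 * z + y * z ^ 2)) := by
      refine tau_congr hp ?_
      obtain ⟨a, ha⟩ := e1
      obtain ⟨b, hb⟩ := e2
      exact ⟨derivative p ^ 2 * (y ^ 2 * z + y * z ^ 2) * (v r ^ 2 * a + U * (v r + G) * b), by
        linear_combination derivative p ^ 2 * (y ^ 2 * z + y * z ^ 2) * v r ^ 2 * ha +
          derivative p ^ 2 * (y ^ 2 * z + y * z ^ 2) * U * (v r + G) * hb⟩
    simp only [if_pos h0, if_pos h1, if_pos h2, if_pos h3, one_mul]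
    rw [← e3, ← hw, psi_add, psi_add, psi_add, psi_add, loc_psi_as, mul_one]

theorem line_mu {ι : Type} [Fintype ι] {M : ι → k[X]} {c : ℝ} {Θ : ι → k[X] → ℝ} {A : k[X]}
    (h : IsCoprime A (∏ i, M i) → lam (A ^ 2 + X * (∏ i, M i) ^ 2) = c * ∏ i, Θ i A) :
    mu (A ^ 2 + X * (∏ i, M i) ^ 2) = c * ∏ i, if IsCoprime A (M i) then Θ i A else 0 := by
  rw [mu_ab]
  by_cases hc : IsCoprime A (∏ i, M i)
  · rw [if_pos hc, h hc]
    congr 1
    exact prod_congr rfl fun i _ =>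
      (if_pos (hc.of_isCoprime_of_dvd_right (dvd_prod_of_mem M (mem_univ i)))).symm
  · rw [if_neg hc]
    obtain ⟨i, hi⟩ : ∃ i, ¬ IsCoprime A (M i) := by
      by_contra hh
      exact hc (IsCoprime.prod_right fun i _ => by_contra fun h' => hh ⟨i, h'⟩)
    rw [prod_eq_zero (mem_univ i) (if_neg hi), mul_zero]

theorem line_m (J ι : Type) [Fintype J] [Fintype ι] : ∃ c₀ : ℝ,
    ∀ (M : J → ι → k[X]) (A g : J → k[X]) (D : k[X]) (u : k[X] → ℝ) (j₀ : J) (i₀ : ι) (l K : ℕ)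
      (x : ℝ), (∀ j i, (M j i).Monic) → (∀ j, Pairwise fun i i' => IsCoprime (M j i) (M j i')) →
      Irreducible (M j₀ i₀) → (∀ j i, j ≠ j₀ → ¬ M j₀ i₀ ∣ M j i) → ¬ M j₀ i₀ ∣ g j₀ →
      ¬ M j₀ i₀ ∣ D → (∀ j, (A j).natDegree ≤ (∏ i, M j i).natDegree) →
      (∀ j, (g j).natDegree + l ≤ (∏ i, M j i).natDegree + 1) → 2 * (M j₀ i₀).natDegree ≤ l →
      K ≤ (M j₀ i₀).natDegree → (∀ j i, (M j i).natDegree + K ≤ l) → D.natDegree + K ≤ l →
      Kill 18 D u → 0 ≤ x → x ≤ 1 →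
      1 / qq k ^ K ≤ x ^ (2 ^ (Fintype.card (Option (J × ι)) * (18 + 1)) * 4) →
      |𝔼 s ∈ box k l, u s * ∏ j, mu ((A j + g j * s) ^ 2 + X * (∏ i, M j i) ^ 2)| ≤ c₀ * x := by
  obtain ⟨s', hs'⟩ := vdcQ (k := k) (Option (J × ι)) 18 1
  have n2 : 2 ^ (Fintype.card (Option (J × ι)) * (18 + 1)) ≠ 0 := by positivity
  generalize 2 ^ (Fintype.card (Option (J × ι)) * (18 + 1)) = N at hs' n2 ⊢
  obtain ⟨c₁, hc₁⟩ := hs' (2 * s' + 4)
  refine ⟨c₁ + 1, fun M A g D u j₀ i₀ l K x hM hc hi n₃ n₄ n₅ a₁ hl l₁ l₂ l₃ l₄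
    u2 x0 x1 hx => ?_⟩
  have u1 := line_abs u2
  choose c Θ c1 f1 f3 f4 f5 using fun j => line_locm (hM j) (hc j)
  have hp := hM j₀ i₀
  have f5' := f5 j₀ i₀ hi
  have hr : IsCoprime (M j₀ i₀) (∏ i ∈ univ.erase i₀, M j₀ i) :=
    IsCoprime.prod_right fun i h => hc j₀ (ne_of_mem_erase h).symm
  have n₆ : ∀ z : J × ι, z ≠ (j₀, i₀) → ¬ M j₀ i₀ ∣ M z.1 z.2 := by
    rintro ⟨j, i⟩ hz hd
    by_cases hj : j = j₀
    · subst hj
      have hi' : i₀ ≠ i := fun h => hz (by rw [h])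
      exact hi.not_isUnit ((hc j hi').isUnit_of_dvd' dvd_rfl hd)
    · exact n₃ j i hj hd
  obtain ⟨T, hT⟩ : ∃ T : J × ι → k[X] → ℝ, ∀ z s, T z s =
      if IsCoprime (A z.1 + g z.1 * s) (M z.1 z.2) then Θ z.1 z.2 (A z.1 + g z.1 * s) else 0 :=
    ⟨_, fun _ _ => rfl⟩
  have hK : ∀ z, Kill 18 (M z.1 z.2) (T z) := fun z => by
    rw [show T z = _ from _root_.funext (hT z)]
    exact line_comp (f3 z.1 z.2) _ _
  have hT0 := hT (j₀, i₀)
  have f1' := f1 j₀ i₀
  have emu : ∀ s ∈ box k l, ∏ j, mu ((A j + g j * s) ^ 2 + X * (∏ i, M j i) ^ 2)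
      = (∏ j, c j) * (T (j₀, i₀) s * ∏ z ∈ univ.erase (j₀, i₀), T z s) := by
    intro s hs
    rw [mul_prod_erase univ (fun z => T z s) (mem_univ _), Fintype.prod_prod_type,
      ← prod_mul_distrib]
    refine prod_congr rfl fun j _ => ?_
    rw [line_mu (f4 j _ (line_deg (a₁ j) (hl j) hs))]
    simp only [hT]
  have cc : |∏ j, c j| = 1 := by rw [abs_prod]; exact prod_eq_one fun j _ => c1 j
  simp only at hT0
  generalize (∏ i ∈ univ.erase i₀, M j₀ i) = r₁ at f5' hr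
  generalize Θ j₀ i₀ = Φ at f5' hT0 f1'
  generalize A j₀ = A₁ at hT0
  generalize g j₀ = g₁ at hT0 n₄
  generalize M j₀ i₀ = p at f5' hr hT0 hp hi n₄ n₅ n₆ l₁ l₂
  have q2 := two_le_qq (k := k)
  have q1 : 1 ≤ qq k := by linarith
  have pg : IsCoprime p g₁ := hi.coprime_iff_not_dvd.2 n₄
  obtain ⟨v', g', hg'⟩ := pg
  obtain ⟨v, G, hG⟩ := hr
  have pG : ¬ p ∣ G := fun h => hi.not_dvd_one (hG ▸ dvd_add (dvd_mul_left _ _) (h.mul_right _))
  have pp : ¬ p ∣ derivative p := fun h =>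
    hi.not_isUnit ((PerfectField.separable_of_irreducible hi).isUnit_of_dvd' dvd_rfl h)
  set α := A₁ * g' with hα
  set Ψ : k[X] → ℝ := fun s => Φ (A₁ + g₁ * (s - α)) with hΨ
  have Φ1 : ∀ A, |Φ A| = 1 := fun A => by
    rcases mul_self_eq_one_iff.1 (f1' A) with h | h <;> simp [h]
  have hκ : ¬ p ∣ derivative p ^ 2 * G ^ 2 * g₁ ^ 2 := fun h => by
    rcases hi.prime.dvd_or_dvd h with h | h
    · rcases hi.prime.dvd_or_dvd h with h | h
      · exact pp (hi.prime.dvd_of_dvd_pow h)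
      · exact pG (hi.prime.dvd_of_dvd_pow h)
    · exact n₄ (hi.prime.dvd_of_dvd_pow h)
  have d2 : ∀ A y z U, p ∣ A * U - 1 →
      Ψ A * Ψ (A + p * y) * Ψ (A + p * z) * Ψ (A + p * y + p * z) =
        psi (tau p (derivative p ^ 2 * G ^ 2 * g₁ ^ 2 * U * (y ^ 2 * z + y * z ^ 2))) := by
    rintro A y z U ⟨t, ht⟩
    have := f5' (A₁ + g₁ * (A - α)) (g₁ * y) (g₁ * z) (g' * U) G
      ⟨t + v' * (A₁ * g' * U - A * U), by
        rw [hα]
        linear_combination ht + (A * U - A₁ * g' * U) * hg'⟩ ⟨-v, by linear_combination hG⟩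
    simp only [hΨ]
    rw [show A₁ + g₁ * (A + p * y - α) = A₁ + g₁ * (A - α) + p * (g₁ * y) by ring,
      show A₁ + g₁ * (A + p * z - α) = A₁ + g₁ * (A - α) + p * (g₁ * z) by ring,
      show A₁ + g₁ * (A + p * y + p * z - α) = A₁ + g₁ * (A - α) + p * (g₁ * y) + p * (g₁ * z) by
        ring, this]
    congr 1
    exact tau_congr hp ⟨-v' * (derivative p ^ 2 * G ^ 2 * g₁ ^ 2 * U * (y ^ 2 * z + y * z ^ 2)), by
      linear_combination (derivative p ^ 2 * G ^ 2 * g₁ ^ 2 * U * (y ^ 2 * z + y * z ^ 2)) * hg'⟩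
  have e1 : 1 / qq k ^ p.natDegree ≤ x ^ (N * 4) :=
    (one_div_le_one_div_of_le (by positivity) (pow_le_pow_right₀ q1 l₂)).trans hx
  have key := hc₁ (fun o => o.elim D fun z => if z = (j₀, i₀) then 1 else M z.1 z.2)
    (fun o => o.elim u fun z => if z = (j₀, i₀) then fun _ => 1 else T z)
    p Ψ l K x hi l₂ (fun o => by
      cases o with
      | none => exact n₅
      | some z =>
        simp only [Option.elim]
        split_ifs with hz
        · exact hi.not_dvd_one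
        · exact n₆ z hz) (fun o => by
      cases o with
      | none => exact l₄
      | some z =>
        simp only [Option.elim]
        split_ifs with hz
        · rw [natDegree_one]; omega
        · exact l₃ _ _) (fun o => by
      cases o with
      | none => exact u2
      | some z =>
        simp only [Option.elim]
        split_ifs with hz
        · exact line_per 18 (fun _ => by simp) fun _ _ => rfl
        · exact hK z) (fun A => (Φ1 _).le) x0 x1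
    (hx.trans (pow_le_pow_of_le_one x0 x1 (by omega))) (fun S h0 hS hI => by
      have b := baseQ hp hi hκ l₁ (Φ := Ψ) (fun A => f1' _) d2 h0 hI
      have s1 : (#S : ℝ) ≤ s' := by exact_mod_cast hS
      have s2 : (1 : ℝ) ≤ 2 * s' + 4 := by linarith [Nat.cast_nonneg (α := ℝ) s']
      refine le_of_pow_le_pow_left₀ (n := 4) (by norm_num) (by positivity) ?_
      rw [← abs_pow, abs_of_nonneg (by positivity), mul_pow, ← pow_mul]
      refine b.trans ?_
      rw [div_eq_mul_one_div]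
      exact mul_le_mul ((by linarith : _ ≤ 2 * (s' : ℝ) + 4).trans
        (le_self_pow₀ s2 (by norm_num))) e1 (by positivity) (by positivity))
    {α} (singleton_nonempty _) (by simp) (fun a ha b hb _ => by
      rw [mem_singleton.1 ha, mem_singleton.1 hb])
  have er : ∀ s, ∏ z : J × ι, (if z = (j₀, i₀) then fun _ => (1 : ℝ) else T z) s
      = ∏ z ∈ univ.erase (j₀, i₀), T z s := fun s => by
    rw [← mul_prod_erase univ _ (mem_univ (j₀, i₀)), if_pos rfl, one_mul]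
    exact prod_congr rfl fun z hz => by rw [if_neg (ne_of_mem_erase hz)]
  simp only [prod_singleton, hΨ, add_sub_cancel_right, Fintype.prod_option, Option.elim, er] at key
  have e2 := exp_box_dvd hp.ne_zero (show p.natDegree ≤ l by omega)
    (show IsCoprime g₁ p from ⟨g', v', by linear_combination hg'⟩) A₁
  have e3 : x ^ (N * 4) ≤ x := pow_le_of_le_one x0 x1 (by omega)
  have R1 : ∀ s, |u s * ∏ z ∈ univ.erase (j₀, i₀), T z s| ≤ 1 := fun s => by
    rw [abs_mul, abs_prod]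
    exact mul_le_one₀ (u1 s) (prod_nonneg fun _ _ => abs_nonneg _)
      (prod_le_one (fun _ _ => abs_nonneg _) fun z _ => line_abs (hK z) s)
  have pt : ∀ s ∈ box k l, |T (j₀, i₀) s * (u s * ∏ z ∈ univ.erase (j₀, i₀), T z s)
      - Φ (A₁ + g₁ * s) * (u s * ∏ z ∈ univ.erase (j₀, i₀), T z s)| ≤
        if p ∣ A₁ + g₁ * s then (1 : ℝ) else 0 := by
    intro s _
    rw [hT0]
    by_cases c0 : p ∣ A₁ + g₁ * s
    · rw [if_pos c0, if_neg fun h : IsCoprime _ p =>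
        hi.not_isUnit (h.isUnit_of_dvd' c0 dvd_rfl), zero_mul, zero_sub, abs_neg, abs_mul, Φ1,
        one_mul]
      exact R1 s
    · rw [if_neg c0, if_pos (hi.coprime_iff_not_dvd.2 c0).symm, sub_self, abs_zero]
  have fin := (Finset.abs_expect_le _ _).trans (Finset.expect_le_expect pt)
  rw [Finset.expect_sub_distrib, e2] at fin
  have e4 : 𝔼 s ∈ box k l, u s * ∏ j, mu ((A j + g j * s) ^ 2 + X * (∏ i, M j i) ^ 2)
      = (∏ j, c j) * 𝔼 s ∈ box k l, T (j₀, i₀) s * (u s * ∏ z ∈ univ.erase (j₀, i₀), T z s) := by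
    rw [mul_expect]
    exact expect_congr rfl fun s hs => by rw [emu s hs]; ring
  rw [e4, abs_mul, cc, one_mul]
  have := abs_sub_abs_le_abs_sub
    (𝔼 s ∈ box k l, T (j₀, i₀) s * (u s * ∏ z ∈ univ.erase (j₀, i₀), T z s))
    (𝔼 s ∈ box k l, Φ (A₁ + g₁ * s) * (u s * ∏ z ∈ univ.erase (j₀, i₀), T z s))
  linarith



theorem line1 (ι : Type) [Fintype ι] : ∃ c₀ : ℝ, ∀ (M : ι → k[X]) (A g : k[X]) (u : k[X] → ℝ)
    (i₀ : ι) (l K : ℕ) (x : ℝ), (∀ i, (M i).Monic) →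
    (Pairwise fun i i' => IsCoprime (M i) (M i')) → Irreducible (M i₀) → ¬ M i₀ ∣ g →
    A.natDegree ≤ (∏ i, M i).natDegree → g.natDegree + l ≤ (∏ i, M i).natDegree + 1 →
    2 * (M i₀).natDegree ≤ l → K ≤ (M i₀).natDegree → (∀ i, (M i).natDegree + K ≤ l) →
    Kill 18 1 u → 0 ≤ x → x ≤ 1 → 1 / qq k ^ K ≤ x ^ ex (Fintype.card ι) →
    |𝔼 s ∈ box k l, u s * mu ((A + g * s) ^ 2 + X * (∏ i, M i) ^ 2)| ≤ c₀ * x := by
  obtain ⟨c₀, h⟩ := line_m (k := k) Unit ι
  refine ⟨c₀, fun M A g u i₀ l K x h1 h2 h3 h4 h5 h6 h7 h8 h9 hu x0 x1 hx => ?_⟩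
  have := h (fun _ => M) (fun _ => A) (fun _ => g) 1 u () i₀ l K x (fun _ => h1) (fun _ => h2) h3
    (fun _ _ hj => (hj rfl).elim) h4 h3.not_dvd_one (fun _ => h5) (fun _ => h6) h7 h8
    (fun _ => h9) (by rw [natDegree_one]; omega) hu x0 x1 (by
      rwa [Fintype.card_option, Fintype.card_prod, Fintype.card_unit, one_mul,
        show 2 ^ ((Fintype.card ι + 1) * (18 + 1)) * 4 = ex (Fintype.card ι) by
          rw [ex, pow_add, mul_comm 19]; rfl])
  simpa only [Fintype.prod_unique] using this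

end

end RowLINE_

section RowDIR_
variable {k : Type} [Field k] [Fintype k]
variable [CharP k 2]

section DIR

theorem dir_shift {g F : k[X]} (hi : Irreducible g) (hF : ¬ g ∣ F) (t : k[X]) :
    mu (F + g * t ^ 2) = - mu ((aa (F * g) + g * t) ^ 2 + X * bb (F * g) ^ 2) := by
  have h2 : (2 : k[X]) = 0 := CharTwo.two_eq_zero
  have h1 : (aa (F * g) + g * t) ^ 2 + X * bb (F * g) ^ 2 = (F + g * t ^ 2) * g := by
    have := ab_spec (F * g)
    linear_combination -this + (aa (F * g) * g * t) * h2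
  have h3 : ¬ g ∣ F + g * t ^ 2 := fun hd =>
    hF ((dvd_add_left (dvd_mul_right g (t ^ 2))).1 hd)
  have h4 : IsCoprime (F + g * t ^ 2) g := ((hi.coprime_iff_not_dvd).2 h3).symm
  rw [h1, mu_mul h4, mu_irr hi]
  ring

omit [CharP k 2] in
theorem dir_box_line {n l : ℕ} {g : k[X]} (h : g.natDegree + 2 * l ≤ n + 1) (F : k[X] → ℝ) :
    𝔼 t ∈ box k n, F t = 𝔼 t ∈ box k n, 𝔼 s ∈ box k l, F (t + g * s ^ 2) := by
  rw [Finset.expect_comm]
  have key : ∀ s ∈ box k l, 𝔼 f ∈ box k n, F (f + g * s ^ 2) = 𝔼 f ∈ box k n, F f := by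
    intro s hs
    refine exp_box_shift ?_ F
    by_cases h0 : g * s ^ 2 = 0
    · rw [h0, Polynomial.degree_zero]
      exact WithBot.bot_lt_coe _
    · have hs0 : s ≠ 0 := by
        rintro rfl
        exact h0 (by simp)
      have h1 : s.natDegree < l := (Polynomial.natDegree_lt_iff_degree_lt hs0).2 (mem_box.1 hs)
      refine (Polynomial.natDegree_lt_iff_degree_lt h0).1 ?_
      have h2 : (g * s ^ 2).natDegree ≤ g.natDegree + (s ^ 2).natDegree :=
        Polynomial.natDegree_mul_le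
      have h3 : (s ^ 2).natDegree ≤ 2 * s.natDegree := Polynomial.natDegree_pow_le
      omega
  rw [Finset.expect_congr rfl key, Finset.expect_const (box_nonempty l)]

omit [CharP k 2] in
theorem dir_add_mon {j H : ℕ} {a t : k[X]} (ha : a ∈ mon k j) (ht : t ∈ box k H) (h : H ≤ j) :
    a + t ∈ mon k j := by
  obtain ⟨h1, h2⟩ := mem_mon.1 ha
  have h3 : t.degree < a.degree := by
    rw [degree_eq_natDegree h1.ne_zero, h2]
    exact (mem_box.1 ht).trans_le (by exact_mod_cast h)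
  exact mem_mon.2 ⟨h1.add_of_left h3, by rw [natDegree_add_eq_left_of_degree_lt h3, h2]⟩

omit [CharP k 2] in
theorem dir_WW {ι : Type} [Fintype ι] {κ : ℕ} {e : ι → ℕ} {B : k[X]} (h : WW κ e B ≠ 0) :
    ∃ y ∈ mon k κ, ∃ P : ι → k[X], (∀ i, P i ∈ prs k (e i)) ∧ y * ∏ i, P i = B := by
  obtain ⟨y, hy, h1⟩ := Finset.exists_ne_zero_of_sum_ne_zero h
  obtain ⟨P, hP, h2⟩ := Finset.exists_ne_zero_of_sum_ne_zero h1
  refine ⟨y, hy, P, Fintype.mem_piFinset.1 hP, ?_⟩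
  by_contra h3
  exact h2 (if_neg h3)

omit [Fintype k] [CharP k 2] in
theorem dir_ndvd {p r : k[X]} (hp : Irreducible p) (hr : Irreducible r)
    (h : p.natDegree ≠ r.natDegree) : ¬ p ∣ r := fun hd =>
  h (natDegree_eq_of_degree_eq (degree_eq_degree_of_associated (hp.associated_of_dvd hr hd)))

theorem dir_abs {α : Type} (s : Finset α) (F : α → ℝ) (hF : ∀ a ∈ s, |F a| ≤ 1) :
    |𝔼 a ∈ s, F a| ≤ 1 := by
  rcases s.eq_empty_or_nonempty with rfl | hs
  · simp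
  · refine (Finset.abs_expect_le s F).trans ?_
    exact Finset.expect_le hs hF

theorem dir_good (ι : Type) [Fintype ι] [Nonempty ι] : ∃ c₀ : ℝ,
    ∀ (f g : k[X]) (u : k[X] → ℝ) (e : ι → ℕ) (κ j γ m : ℕ) (x : ℝ), f ∈ mon k j →
    g ∈ prs k γ → 0 < κ → Function.Injective e → (∀ i, 2 * κ ≤ e i ∧ e i ≤ 5 * κ) →
    j + γ = 2 * m + 1 → 16 * κ ≤ γ → γ + 20 * κ ≤ j → Kill 18 1 u →
    0 ≤ x → x ≤ 1 → 1 / qq k ^ κ ≤ x ^ ex (Fintype.card ι + 1) → ¬ g ∣ f →
    WW κ e (bb (f * g)) ≠ 0 → |𝔼 s ∈ box k (10 * κ), mu (f + g * s ^ 2) * u s| ≤ c₀ * x := by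
  obtain ⟨c₀, H⟩ := line1 (k := k) (Option ι)
  refine ⟨c₀, ?_⟩
  intro f g u e κ j γ m x hf hg hκ hinj he hj hγ hH hu hx0 hx1 hx hgf hW
  obtain ⟨y, hy, P, hP, hB⟩ := dir_WW hW
  obtain ⟨hgm, hgd, hgi⟩ := ww_prs hg
  obtain ⟨hym, hyd⟩ := mem_mon.1 hy
  obtain ⟨hB1, hA1⟩ := bb_mon (hj ▸ equi_mul_mon hf hg)
  obtain ⟨i₀⟩ := ‹Nonempty ι›
  have hyP : ∀ i, IsCoprime (P i) y := fun i => by
    obtain ⟨-, p2, p3⟩ := ww_prs (hP i)
    refine (p3.coprime_iff_not_dvd).2 fun hd => ?_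
    have h1 := natDegree_le_of_dvd hd hym.ne_zero
    have h2 := (he i).1
    omega
  have hprod : ∏ o : Option ι, (o.elim y P : k[X]) = bb (f * g) := by
    rw [Fintype.prod_option, ← hB]
    rfl
  have key := H (fun o => o.elim y P) (aa (f * g)) g u (some i₀) (10 * κ) κ x
    (by
      rintro (_ | i)
      · exact hym
      · exact (ww_prs (hP i)).1)
    (by
      rintro (_ | i) (_ | i') hne
      · exact absurd rfl hne
      · exact (hyP i').symm
      · exact hyP i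
      · obtain ⟨-, p2, p3⟩ := ww_prs (hP i)
        obtain ⟨-, r2, r3⟩ := ww_prs (hP i')
        show IsCoprime (P i) (P i')
        refine (p3.coprime_iff_not_dvd).2 (dir_ndvd p3 r3 ?_)
        rw [p2, r2]
        exact fun h => hne (congrArg some (hinj h)))
    (ww_prs (hP i₀)).2.2
    (dir_ndvd (ww_prs (hP i₀)).2.2 hgi (by
      show (P i₀).natDegree ≠ _
      have := (he i₀).2
      rw [(ww_prs (hP i₀)).2.1, hgd]
      omega))
    (by rw [hprod, (mem_mon.1 hB1).2]; exact hA1)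
    (by rw [hprod, (mem_mon.1 hB1).2, hgd]; omega)
    (by
      show 2 * (P i₀).natDegree ≤ _
      have := (he i₀).2
      rw [(ww_prs (hP i₀)).2.1]
      omega)
    (by
      show κ ≤ (P i₀).natDegree
      have := (he i₀).1
      rw [(ww_prs (hP i₀)).2.1]
      omega)
    (by
      rintro (_ | i)
      · show y.natDegree + κ ≤ _
        omega
      · show (P i).natDegree + κ ≤ _
        have := (he i).2
        rw [(ww_prs (hP i)).2.1]
        omega)
    hu hx0 hx1 (by rw [Fintype.card_option]; exact hx)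
  rw [hprod] at key
  have hfun : ∀ s : k[X], mu (f + g * s ^ 2) * u s =
      -(u s * mu ((aa (f * g) + g * s) ^ 2 + X * bb (f * g) ^ 2)) := fun s => by
    rw [dir_shift hgi hgf]
    ring
  simp only [hfun]
  rw [Finset.expect_neg_distrib, abs_neg]
  exact key

theorem dirE (ι : Type) [Fintype ι] [Nonempty ι] : ∃ c₀ : ℝ, 0 ≤ c₀ ∧
    ∀ (a g : k[X]) (φ : k[X] → ℝ) (e : ι → ℕ) (κ j H γ m : ℕ) (x : ℝ), a ∈ mon k j →
    g ∈ prs k γ → 0 < κ → Function.Injective e → (∀ i, 2 * κ ≤ e i ∧ e i ≤ 5 * κ) →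
    κ + ∑ i, e i = m → j + γ = 2 * m + 1 → 16 * κ ≤ γ → γ + 20 * κ ≤ H → H ≤ j →
    (∀ f, |φ f| ≤ 1) →
    (∀ f ∈ mon k j, ∃ u, Kill 18 1 u ∧ ∀ s ∈ box k (10 * κ), φ (f + g * s ^ 2) = u s) →
    0 ≤ x → x ≤ 1 → 1 / qq k ^ κ ≤ x ^ ex (Fintype.card ι + 1) →
    |𝔼 t ∈ box k H, WW κ e (bb ((a + t) * g)) * (mu (a + t) * φ (a + t))| ≤
      (m : ℝ) ^ Fintype.card ι * (c₀ * x) := by
  obtain ⟨c₀, H0⟩ := dir_good (k := k) ι
  refine ⟨|c₀| + 1, by positivity, ?_⟩
  intro a g φ e κ j H γ m x ha hg hκ hinj he _ hj hγ hH hHj hφ hu hx0 hx1 hx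
  obtain ⟨hgm, hgd, hgi⟩ := ww_prs hg
  have hm0 : (0 : ℝ) ≤ (m : ℝ) ^ Fintype.card ι := pow_nonneg (Nat.cast_nonneg m) _
  have hcx : 0 ≤ |c₀| * x := mul_nonneg (abs_nonneg _) hx0
  have hl : g.natDegree + 2 * (10 * κ) ≤ H + 1 := by
    rw [hgd]
    clear hu hx hm0
    omega
  rw [dir_box_line hl fun t => WW κ e (bb ((a + t) * g)) * (mu (a + t) * φ (a + t))]
  have key : ∀ t ∈ box k H, |𝔼 s ∈ box k (10 * κ), WW κ e (bb ((a + (t + g * s ^ 2)) * g)) *
      (mu (a + (t + g * s ^ 2)) * φ (a + (t + g * s ^ 2)))| ≤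
      (m : ℝ) ^ Fintype.card ι * (|c₀| * x + if g ∣ a + 1 * t then (1 : ℝ) else 0) := by
    intro t ht
    have hf := dir_add_mon ha ht hHj
    obtain ⟨u, hu1, hu2⟩ := hu _ hf
    obtain ⟨hB1, -⟩ := bb_mon (hj ▸ equi_mul_mon hf hg)
    obtain ⟨hBm, hBd⟩ := mem_mon.1 hB1
    have e1 : ∀ s ∈ box k (10 * κ), WW κ e (bb ((a + (t + g * s ^ 2)) * g)) *
        (mu (a + (t + g * s ^ 2)) * φ (a + (t + g * s ^ 2))) =
        WW κ e (bb ((a + t) * g)) * (mu (a + t + g * s ^ 2) * u s) := by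
      intro s hs
      rw [← add_assoc, hu2 s hs, show (a + t + g * s ^ 2) * g = (a + t) * g + (g * s) ^ 2 by ring,
        bb_add, bb_sq, add_zero]
    rw [Finset.expect_congr rfl e1, ← Finset.mul_expect, abs_mul,
      abs_of_nonneg (WW_nonneg κ e _), one_mul]
    by_cases hW : WW κ e (bb ((a + t) * g)) = 0
    · rw [hW, zero_mul]
      refine mul_nonneg hm0 (add_nonneg hcx ?_)
      split_ifs <;> norm_num
    have hWle : WW κ e (bb ((a + t) * g)) ≤ (m : ℝ) ^ Fintype.card ι := by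
      have := WW_le κ (e := e) (fun i => by have := (he i).1; omega) hBm.ne_zero
      rwa [hBd] at this
    refine mul_le_mul hWle ?_ (abs_nonneg _) hm0
    split_ifs with hd
    · have := dir_abs (box k (10 * κ)) (fun s => mu (a + t + g * s ^ 2) * u s) fun s _ => by
        rw [abs_mul]
        exact mul_le_one₀ (abs_mu _) (abs_nonneg _) (line_abs hu1 s)
      linarith
    · have := H0 (a + t) g u e κ j γ m x hf hg hκ hinj he hj hγ (by omega) hu1 hx0 hx1 hx hd hW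
      have h2 := mul_le_mul_of_nonneg_right (le_abs_self c₀) hx0
      linarith
  refine (Finset.abs_expect_le _ _).trans ((Finset.expect_le_expect key).trans ?_)
  rw [← Finset.mul_expect, Finset.expect_add_distrib, Finset.expect_const (box_nonempty H),
    exp_box_dvd hgm.ne_zero (by omega) isCoprime_one_left a, hgd]
  refine mul_le_mul_of_nonneg_left ?_ hm0
  have hq : (1 : ℝ) ≤ qq k := le_trans (by norm_num) two_le_qq
  have h1 : 1 / qq k ^ γ ≤ 1 / qq k ^ κ :=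
    one_div_le_one_div_of_le (pow_pos (lt_of_lt_of_le one_pos hq) _)
      (pow_le_pow_right₀ hq (by omega))
  have h2 : x ^ ex (Fintype.card ι + 1) ≤ x :=
    pow_le_of_le_one hx0 hx1 (pow_ne_zero _ two_ne_zero)
  linarith

end DIR

end RowDIR_

section RowLLN_


section Fourier
variable {V : Type*} [AddCommGroup V] [Fintype V]

theorem fo_parseval (F : V → ℝ) :
    ∑ ψ : AddChar V ℂ, ‖∑ x, (F x : ℂ) * ψ x‖ ^ 2 = Fintype.card V * ∑ x, F x ^ 2 := by
  have h1 : ∀ ψ : AddChar V ℂ, ((‖∑ x, (F x : ℂ) * ψ x‖ ^ 2 : ℝ) : ℂ) =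
      ∑ x, ∑ y, (F x : ℂ) * (F y : ℂ) * ψ (x - y) := by
    intro ψ
    rw [← Complex.normSq_eq_norm_sq, ← Complex.mul_conj, map_sum, Finset.sum_mul_sum]
    refine Finset.sum_congr rfl fun x _ => Finset.sum_congr rfl fun y _ => ?_
    rw [map_mul, Complex.conj_ofReal, sub_eq_add_neg, AddChar.map_add_eq_mul,
      AddChar.map_neg_eq_conj]
    ring
  have h2 : ((∑ ψ : AddChar V ℂ, ‖∑ x, (F x : ℂ) * ψ x‖ ^ 2 : ℝ) : ℂ) =
      ((Fintype.card V * ∑ x, F x ^ 2 : ℝ) : ℂ) := by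
    rw [Complex.ofReal_sum]
    simp_rw [h1]
    rw [Finset.sum_comm]
    push_cast
    rw [Finset.mul_sum]
    refine Finset.sum_congr rfl fun x _ => ?_
    rw [Finset.sum_comm]
    simp_rw [← Finset.mul_sum, AddChar.sum_apply_eq_ite, sub_eq_zero]
    rw [Finset.sum_eq_single x]
    · simp only [if_true]; ring
    · intro y _ hy; rw [if_neg (Ne.symm hy), mul_zero]
    · intro h; exact absurd (mem_univ x) h
  exact_mod_cast h2

theorem fo_shift (F : V → ℝ) (ψ : AddChar V ℂ) (u : V) :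
    ∑ x, (F x : ℂ) * ψ x = ψ u * ∑ x, (F (x + u) : ℂ) * ψ x := by
  rw [← Equiv.sum_comp (Equiv.addRight u), Finset.mul_sum]
  refine Finset.sum_congr rfl fun x _ => ?_
  rw [Equiv.coe_addRight, AddChar.map_add_eq_mul]
  ring

/-- Almost orthogonality with a major and a minor part. -/
theorem fo_main {ι δ σ : Type*} (G : Finset ι) (Dd : ι → Finset δ) (S : Finset σ)
    (hS : S.Nonempty) (U : ι → Set V) (y : ι → δ → σ → V) (f : ι → V → ℝ) {R : ℝ} (hR : 0 ≤ R)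
    (hU : ∀ g ∈ G, ∀ u ∈ U g, ∀ x, f g (x + u) = f g x)
    (hM : ∀ ψ : AddChar V ℂ, R < (#{g ∈ G | ∀ u ∈ U g, ψ u = 1} : ℝ) → ∀ g ∈ G,
      (∀ u ∈ U g, ψ u = 1) → ∃ d ∈ Dd g, ∀ s ∈ S, ψ (y g d s) = 1) :
    ∑ x, (∑ g ∈ G, f g x) ^ 2 ≤ R * ∑ g ∈ G, ∑ x, f g x ^ 2 +
      #G * ∑ g ∈ G, ∑ d ∈ Dd g, ∑ x, (𝔼 s ∈ S, f g (x + y g d s)) ^ 2 := by
  have hc : (0 : ℝ) < Fintype.card V := by exact_mod_cast Fintype.card_pos
  have key : ∀ ψ : AddChar V ℂ, ‖∑ x, ((∑ g ∈ G, f g x : ℝ) : ℂ) * ψ x‖ ^ 2 ≤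
      R * ∑ g ∈ G, ‖∑ x, (f g x : ℂ) * ψ x‖ ^ 2 + #G * ∑ g ∈ G, ∑ d ∈ Dd g,
        ‖∑ x, ((𝔼 s ∈ S, f g (x + y g d s) : ℝ) : ℂ) * ψ x‖ ^ 2 := by
    intro ψ
    set a : ι → ℂ := fun g => ∑ x, (f g x : ℂ) * ψ x with ha
    have e1 : ∑ x, ((∑ g ∈ G, f g x : ℝ) : ℂ) * ψ x = ∑ g ∈ G, a g := by
      simp only [ha]
      rw [Finset.sum_comm]
      refine Finset.sum_congr rfl fun x _ => ?_
      rw [Complex.ofReal_sum, Finset.sum_mul]
    set T : Finset ι := {g ∈ G | ∀ u ∈ U g, ψ u = 1} with hT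
    have e2 : ∑ g ∈ G, a g = ∑ g ∈ T, a g := by
      refine (Finset.sum_subset (filter_subset _ _) fun g hg hn => ?_).symm
      by_contra hne
      refine hn (mem_filter.2 ⟨hg, fun u hu => ?_⟩)
      have := fo_shift (f g) ψ u
      simp only [hU g hg u hu] at this
      exact (mul_eq_right₀ hne).1 this.symm
    have e3 : ‖∑ g ∈ T, a g‖ ^ 2 ≤ #T * ∑ g ∈ T, ‖a g‖ ^ 2 :=
      le_trans (by gcongr; exact norm_sum_le _ _) sq_sum_le_card_mul_sum_sq
    rw [e1, e2]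
    refine e3.trans ?_
    by_cases hr : (#T : ℝ) ≤ R
    · refine le_add_of_le_of_nonneg ?_ (by positivity)
      gcongr
      exact filter_subset _ _
    · refine le_add_of_nonneg_of_le (by positivity) ?_
      refine mul_le_mul (by exact_mod_cast card_le_card (filter_subset _ _)) ?_ (by positivity)
        (by positivity)
      refine le_trans (sum_le_sum fun g hg => ?_)
        (sum_le_sum_of_subset_of_nonneg (filter_subset _ _) fun _ _ _ => by positivity)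
      obtain ⟨d, hd, h⟩ := hM ψ (not_le.1 hr) g (mem_filter.1 hg).1 (mem_filter.1 hg).2
      refine le_trans (le_of_eq ?_) (single_le_sum (f := fun d =>
        ‖∑ x, ((𝔼 s ∈ S, f g (x + y g d s) : ℝ) : ℂ) * ψ x‖ ^ 2) (fun _ _ => by positivity) hd)
      congr 2
      have h4 : (#S : ℂ) ≠ 0 := by exact_mod_cast hS.card_pos.ne'
      have : ∀ s ∈ S, ∑ x, (f g (x + y g d s) : ℂ) * ψ x = a g := fun s hs => by
        have := fo_shift (f g) ψ (y g d s)
        rw [h s hs, one_mul] at this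
        exact this.symm
      refine mul_left_cancel₀ h4 ?_
      rw [← nsmul_eq_mul, ← sum_const, ← sum_congr rfl this, sum_comm, mul_sum]
      refine sum_congr rfl fun x _ => ?_
      rw [← sum_mul, ← mul_assoc, expect_eq_sum_div_card]
      push_cast
      rw [mul_div_cancel₀ _ h4]
  have h := Finset.sum_le_sum fun ψ (_ : ψ ∈ (univ : Finset (AddChar V ℂ))) => key ψ
  rw [fo_parseval, sum_add_distrib, ← mul_sum, ← mul_sum, sum_comm] at h
  simp_rw [fo_parseval] at h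
  rw [sum_comm (s := univ)] at h
  simp_rw [sum_comm (s := (univ : Finset (AddChar V ℂ))), fo_parseval, ← mul_sum] at h
  refine le_of_mul_le_mul_left (h.trans (le_of_eq ?_)) hc
  ring

end Fourier

section Maj
variable {k : Type} [Field k] [Fintype k]

omit [Fintype k] in
theorem maj_bez (K : AddSubgroup k[X]) {σ : ℕ} {a b : k[X]} (ha : a ≠ 0) (hb : b ≠ 0)
    (h1 : a.natDegree ≤ σ) (h2 : b.natDegree ≤ σ)
    (Ha : ∀ s : k[X], s.degree < σ → a * s ∈ K) (Hb : ∀ s : k[X], s.degree < σ → b * s ∈ K) :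
    ∃ c : k[X], c.Monic ∧ c ∣ a ∧ c ∣ b ∧
      ∀ s : k[X], s.degree < (σ + (a.natDegree - c.natDegree) : ℕ) → c * s ∈ K := by
  obtain ⟨c, hc⟩ : ∃ c, c = gcd a b := ⟨_, rfl⟩
  have c0 : c ≠ 0 := hc ▸ gcd_ne_zero_of_left ha
  have cm : c.Monic := by
    rw [hc, ← _root_.normalize_gcd]
    exact monic_normalize (hc ▸ c0)
  obtain ⟨a', ea⟩ : c ∣ a := hc ▸ gcd_dvd_left a b
  obtain ⟨b', eb⟩ : c ∣ b := hc ▸ gcd_dvd_right a b
  have a0 : a' ≠ 0 := fun e => ha (by rw [ea, e, mul_zero])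
  have b0 : b' ≠ 0 := fun e => hb (by rw [eb, e, mul_zero])
  have da : a.natDegree = c.natDegree + a'.natDegree := by rw [ea, natDegree_mul c0 a0]
  have db : b.natDegree = c.natDegree + b'.natDegree := by rw [eb, natDegree_mul c0 b0]
  obtain ⟨u, v, huv⟩ := exists_gcd_eq_mul_add_mul a b
  have one : a' * u + b' * v = 1 := mul_left_cancel₀ c0 (by
    rw [mul_one, mul_add, ← mul_assoc, ← mul_assoc, ← ea, ← eb, ← huv, hc])
  refine ⟨c, cm, ⟨_, ea⟩, ⟨_, eb⟩, fun s hs => ?_⟩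
  have e1 := EuclideanDomain.div_add_mod (v * s) a'
  have d1 : (v * s % a').degree < a'.degree := degree_mod_lt _ a0
  obtain ⟨w, hw⟩ : ∃ w, w = u * s + b' * (v * s / a') := ⟨_, rfl⟩
  have e2 : a' * w = s - b' * (v * s % a') := by
    rw [hw]
    linear_combination b' * e1 + s * one
  have e3 : c * s = a * w + b * (v * s % a') := by
    rw [ea, eb]
    linear_combination (-c) * e2
  rw [degree_eq_natDegree a0] at d1
  rw [e3]
  refine add_mem (Ha _ ?_) (Hb _ (d1.trans_le (by exact_mod_cast (by omega))))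
  have d2 : (a' * w).degree < ((a'.natDegree + σ : ℕ) : WithBot ℕ) := by
    rw [e2]
    refine (degree_sub_le _ _).trans_lt (max_lt (hs.trans_le (by exact_mod_cast (by omega))) ?_)
    rw [degree_mul, degree_eq_natDegree b0]
    refine (WithBot.add_lt_add_left (by simp) d1).trans_le ?_
    exact_mod_cast (by omega)
  rw [degree_mul, degree_eq_natDegree a0, Nat.cast_add] at d2
  exact lt_of_add_lt_add_left d2

/-- A large set of multipliers comes from one multiplier of small degree. -/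
theorem maj_main (K : AddSubgroup k[X]) {σ γ κ : ℕ} (h1 : γ ≤ σ) (h2 : κ ≤ γ) (D : Finset k[X])
    (hD : ∀ a ∈ D, a.degree < γ ∧ ∀ s : k[X], s.degree < σ → a * s ∈ K)
    (hc : qq k ^ (γ - κ) < #D) :
    ∃ d : k[X], d.Monic ∧ d.natDegree < κ ∧
      ∀ s : k[X], s.degree < (σ + γ - κ : ℕ) → d * s ∈ K := by
  have q1 : (1 : ℝ) ≤ qq k ^ (γ - κ) := one_le_pow₀ (one_le_two.trans two_le_qq)
  have hex : ∃ n, ∃ a : k[X], a ≠ 0 ∧ a.natDegree = n ∧ ∀ s : k[X], s.degree < σ → a * s ∈ K := by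
    obtain ⟨a, ha, a0⟩ := exists_mem_ne (s := D) (by exact_mod_cast q1.trans_lt hc) 0
    exact ⟨_, a, a0, rfl, (hD a ha).2⟩
  obtain ⟨b, b0, bn, Hb⟩ := Nat.find_spec hex
  have hmin : ∀ a : k[X], a ≠ 0 → (∀ s : k[X], s.degree < σ → a * s ∈ K) →
      b.natDegree ≤ a.natDegree := fun a a0 Ha => bn ▸ Nat.find_min' hex ⟨a, a0, rfl, Ha⟩
  have key : ∀ a ∈ D, a ≠ 0 → ∃ c : k[X], c.Monic ∧ c.natDegree = b.natDegree ∧ b ∣ a ∧
      ∀ s : k[X], s.degree < (σ + (a.natDegree - b.natDegree) : ℕ) → c * s ∈ K := by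
    intro a ha a0
    have d1 : a.natDegree < γ := (natDegree_lt_iff_degree_lt a0).2 (hD a ha).1
    have d2 := hmin a a0 (hD a ha).2
    obtain ⟨c, cm, ca, cb, Hc⟩ := maj_bez K a0 b0 (by omega) (by omega) (hD a ha).2 Hb
    have d3 := hmin c cm.ne_zero fun s hs => Hc s (hs.trans_le (by exact_mod_cast (by omega)))
    have d4 := natDegree_le_of_dvd cb b0
    have d5 : c.natDegree = b.natDegree := le_antisymm d4 d3
    exact ⟨c, cm, d5, (associated_of_dvd_of_natDegree_le cb b0 d3).symm.dvd.trans ca, d5 ▸ Hc⟩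
  by_contra hn
  have hsub : D ⊆ (box k (γ - κ)).image fun t => b * t := by
    intro a ha
    by_cases a0 : a = 0
    · exact mem_image.2 ⟨0, mem_box.2 (by simp), by simp [a0]⟩
    obtain ⟨c, cm, cd, ⟨t, ht⟩, Hc⟩ := key a ha a0
    have t0 : t ≠ 0 := fun e => a0 (by rw [ht, e, mul_zero])
    have d1 : a.natDegree < γ := (natDegree_lt_iff_degree_lt a0).2 (hD a ha).1
    have d2 : a.natDegree = b.natDegree + t.natDegree := by rw [ht, natDegree_mul b0 t0]
    refine mem_image.2 ⟨t, mem_box.2 ((natDegree_lt_iff_degree_lt t0).1 ?_), ht.symm⟩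
    by_contra h3
    exact hn ⟨c, cm, by omega, fun s hs => Hc s (hs.trans_le (by exact_mod_cast (by omega)))⟩
  have : (#D : ℝ) ≤ #(box k (γ - κ)) := by
    exact_mod_cast (card_le_card hsub).trans card_image_le
  rw [card_box] at this
  exact absurd hc (not_lt.2 this)

end Maj

section Lln
variable {k : Type} [Field k] [Fintype k] [CharP k 2]

theorem ll_ker {g t : k[X]} (hg : Irreducible g) (h : bb (t * g) = 0) : ∃ s, t = g * s ^ 2 := by
  have e2 : t * g = aa (t * g) ^ 2 := by simpa [h] using ab_spec (t * g)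
  obtain ⟨s, hs⟩ := hg.prime.dvd_of_dvd_pow (n := 2) (e2 ▸ dvd_mul_left g t)
  refine ⟨s, mul_right_cancel₀ hg.ne_zero ?_⟩
  rw [e2, hs]
  ring

omit [Fintype k] [CharP k 2] in
theorem ll_deg {g s : k[X]} {H γ : ℕ} (hg : g ≠ 0) (hγ : g.natDegree = γ) (hH : γ < H) :
    (g * s ^ 2).degree < H ↔ s.degree < ((H - γ + 1) / 2 : ℕ) := by
  by_cases s0 : s = 0
  · simp [s0]
  rw [← natDegree_lt_iff_degree_lt s0, ← natDegree_lt_iff_degree_lt
    (mul_ne_zero hg (pow_ne_zero _ s0)), natDegree_mul hg (pow_ne_zero _ s0), natDegree_pow]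
  omega

theorem ll_mem {g t : k[X]} {H γ : ℕ} (hγ : g.natDegree = γ) (ht : t.degree < H) :
    (bb (t * g)).degree < ((H + γ) / 2 : ℕ) := by
  refine bb_deg ?_
  by_cases t0 : t * g = 0
  · rw [t0, degree_zero]
    exact WithBot.bot_lt_coe _
  rw [← natDegree_lt_iff_degree_lt t0, natDegree_mul (left_ne_zero_of_mul t0)
    (right_ne_zero_of_mul t0)]
  have := (natDegree_lt_iff_degree_lt (left_ne_zero_of_mul t0)).2 ht
  omega

theorem ll_surj {g x : k[X]} {H γ : ℕ} (hg : Irreducible g) (hγ : g.natDegree = γ) (hH : γ < H)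
    (hx : x.degree < ((H + γ) / 2 : ℕ)) : ∃ t : k[X], t.degree < H ∧ bb (t * g) = x := by
  have q0 : (0 : ℝ) < qq k := two_pos.trans_le two_le_qq
  have h1 : (box k H).image (fun t => bb (t * g)) ⊆ box k ((H + γ) / 2) := fun y hy => by
    obtain ⟨t, ht, rfl⟩ := mem_image.1 hy
    exact mem_box.2 (ll_mem hγ (mem_box.1 ht))
  have h2 := card_le_mul_card_image (f := fun t => bb (t * g)) (box k H)
    #(box k ((H - γ + 1) / 2)) fun y hy => by
      obtain ⟨t, ht, rfl⟩ := mem_image.1 hy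
      refine le_trans (card_le_card (t := (box k ((H - γ + 1) / 2)).image fun s => t + g * s ^ 2)
        fun t' ht' => ?_) card_image_le
      obtain ⟨m, e⟩ := mem_filter.1 ht'
      obtain ⟨s, hs⟩ := ll_ker (t := t + t') hg (by
        rw [add_mul, bb_add, e, CharTwo.add_self_eq_zero])
      refine mem_image.2 ⟨s, mem_box.2 ((ll_deg hg.ne_zero hγ hH).1 ?_), ?_⟩
      · rw [← hs]
        exact (degree_add_le _ _).trans_lt (max_lt (mem_box.1 ht) (mem_box.1 m))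
      · rw [← hs, ← add_assoc, CharTwo.add_self_eq_zero, zero_add]
  have h3 : (#(box k ((H + γ) / 2)) : ℝ) ≤ #((box k H).image fun t => bb (t * g)) := by
    have h4 : (#(box k H) : ℝ) ≤ #(box k ((H - γ + 1) / 2)) *
        #((box k H).image fun t => bb (t * g)) := by exact_mod_cast h2
    rw [card_box, card_box] at *
    refine le_of_mul_le_mul_left (le_trans (le_of_eq ?_) h4) (pow_pos q0 _)
    rw [← pow_add]
    congr 1
    omega
  obtain ⟨t, ht, e⟩ := mem_image.1 ((eq_of_subset_of_card_le h1 (by exact_mod_cast h3)).symm ▸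
    mem_box.2 hx)
  exact ⟨t, mem_box.1 ht, e⟩

/-- The odd half of `t * g` is uniformly distributed. -/
theorem ll_push {g : k[X]} {H γ : ℕ} (hg : Irreducible g) (hγ : g.natDegree = γ) (hH : γ < H)
    (Φ : k[X] → ℝ) :
    𝔼 t ∈ box k H, Φ (bb (t * g)) = 𝔼 x ∈ box k ((H + γ) / 2), Φ x := by
  have h1 : ∀ x ∈ box k ((H + γ) / 2), 𝔼 t ∈ box k H, Φ (bb (t * g)) =
      𝔼 t ∈ box k H, Φ (x + bb (t * g)) := fun x hx => by
    obtain ⟨u, hu, rfl⟩ := ll_surj hg hγ hH (mem_box.1 hx)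
    rw [← exp_box_shift hu fun t => Φ (bb (t * g))]
    simp only [add_mul, bb_add, add_comm]
  rw [← expect_const (box_nonempty (k := k) ((H + γ) / 2)) (𝔼 t ∈ box k H, Φ (bb (t * g))),
    expect_congr rfl h1, expect_comm, expect_congr rfl fun t ht =>
      exp_box_shift (ll_mem hγ (mem_box.1 ht)) Φ, expect_const (box_nonempty _)]

/-- The law of large numbers over many directions inside one short interval. -/
theorem ll_main {H γ κ L' : ℕ} {G : Finset k[X]} (hG : G ⊆ prs k γ) (hH : 3 * γ + 1 ≤ H)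
    (hκ : κ ≤ γ) (hL : L' + κ ≤ (H + γ) / 2) (W : k[X] → ℝ) (a : k[X]) {B : ℝ}
    (hB : ∀ g ∈ G, ∀ t ∈ box k H, |W (bb ((a + t) * g))| ≤ B) :
    𝔼 t ∈ box k H, (∑ g ∈ G, W (bb ((a + t) * g))) ^ 2 ≤ qq k ^ (γ - κ) * #G * B ^ 2 +
      #G * ∑ g ∈ G, ∑ d ∈ (range κ).biUnion (mon k), 𝔼 x ∈ box k ((H + γ) / 2),
        (𝔼 s ∈ box k L', W (bb (a * g) + x + d * s)) ^ 2 := by
  have q0 : (0 : ℝ) < qq k := two_pos.trans_le two_le_qq
  have hp : ∀ g ∈ G, Irreducible g ∧ g.natDegree = γ ∧ g.Monic := fun g hg =>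
    ⟨(mem_filter.1 (hG hg)).2, (mem_mon.1 (mem_filter.1 (hG hg)).1).2,
      (mem_mon.1 (mem_filter.1 (hG hg)).1).1⟩
  have hV : ∀ t : k[X], t ∈ box k H ↔ t ∈ degreeLT k H := fun t => mem_box.trans mem_degreeLT.symm
  let _ : Fintype (degreeLT k H) := Fintype.subtype (box k H) hV
  have hsum : ∀ f : k[X] → ℝ, ∑ x : degreeLT k H, f x = qq k ^ H * 𝔼 x ∈ box k H, f x := fun f => by
    rw [← Finset.sum_subtype (box k H) hV f, expect_eq_sum_div_card, card_box, mul_div_cancel₀]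
    positivity
  have hy : ∀ g d s : k[X], ∃ y : degreeLT k H, g ∈ G → d ∈ (range κ).biUnion (mon k) →
      s ∈ box k L' → bb ((y : k[X]) * g) = d * s := fun g d s => by
    by_cases h : g ∈ G ∧ d ∈ (range κ).biUnion (mon k) ∧ s ∈ box k L'
    · obtain ⟨j, hj, hd⟩ := mem_biUnion.1 h.2.1
      obtain ⟨t, ht, e⟩ := ll_surj (x := d * s) (H := H) (hp g h.1).1 (hp g h.1).2.1 (by omega) (by
        rw [degree_mul, degree_eq_natDegree (mem_mon.1 hd).1.ne_zero, (mem_mon.1 hd).2]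
        refine (WithBot.add_lt_add_left (by simp) (mem_box.1 h.2.2)).trans_le ?_
        have := mem_range.1 hj
        exact_mod_cast (by omega))
      exact ⟨⟨t, mem_degreeLT.2 ht⟩, fun _ _ _ => e⟩
    · exact ⟨0, fun h1 h2 h3 => absurd ⟨h1, h2, h3⟩ h⟩
  choose y hy using hy
  have := fo_main (V := degreeLT k H) G (fun _ => (range κ).biUnion (mon k)) (box k L')
    (box_nonempty _) (fun g => {u | ∃ s, (u : k[X]) = g * s ^ 2}) y
    (fun g t => W (bb ((a + t) * g))) (pow_pos q0 (γ - κ)).le ?_ ?_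
  · rw [hsum fun t => (∑ g ∈ G, W (bb ((a + t) * g))) ^ 2] at this
    refine le_of_mul_le_mul_left (this.trans ?_) (pow_pos q0 H)
    rw [mul_add]
    refine add_le_add ?_ (le_of_eq ?_)
    · have h1 : ∀ g ∈ G, ∑ x : degreeLT k H, W (bb ((a + x) * g)) ^ 2 ≤ qq k ^ H * B ^ 2 :=
        fun g hg => by
          rw [hsum fun t => W (bb ((a + t) * g)) ^ 2]
          gcongr
          exact expect_le (box_nonempty _) fun t ht => by
            rw [← sq_abs]
            exact pow_le_pow_left₀ (abs_nonneg _) (hB g hg t ht) 2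
      refine (mul_le_mul_of_nonneg_left (sum_le_card_nsmul _ _ _ h1) (pow_pos q0 _).le).trans
        (le_of_eq ?_)
      rw [nsmul_eq_mul]
      ring
    · rw [mul_left_comm, mul_sum (a := qq k ^ H)]
      congr 1
      refine sum_congr rfl fun g hg => ?_
      rw [mul_sum]
      refine sum_congr rfl fun d hd => ?_
      rw [← ll_push (hp g hg).1 (hp g hg).2.1 (by omega : γ < H), ← hsum]
      refine sum_congr rfl fun t _ => ?_
      congr 1
      refine expect_congr rfl fun s hs => ?_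
      rw [Submodule.coe_add, add_mul, add_mul, bb_add, bb_add, hy g d s hg hd hs, add_assoc]
  · rintro g hg u ⟨s, hs⟩ x
    rw [Submodule.coe_add, hs, ← add_assoc, add_mul _ (g * s ^ 2), bb_add,
      (by ring : g * s ^ 2 * g = (g * s) ^ 2), bb_sq, add_zero]
  intro ψ hr g hg hψ
  let K : AddSubgroup k[X] :=
    { carrier := {x | ∃ t : degreeLT k H, bb ((t : k[X]) * g) = x ∧ ψ t = 1}
      zero_mem' := ⟨0, by simpa using bb_sq (0 : k[X]), ψ.map_zero_eq_one⟩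
      add_mem' := by
        rintro _ _ ⟨t, rfl, h⟩ ⟨t', rfl, h'⟩
        exact ⟨t + t', by rw [Submodule.coe_add, add_mul, bb_add],
          by rw [AddChar.map_add_eq_mul, h, h', one_mul]⟩
      neg_mem' := fun {x} h => by rwa [CharTwo.neg_eq] }
  obtain ⟨T, hr, hT'⟩ : ∃ T : Finset k[X], qq k ^ (γ - κ) < #T ∧ ∀ g ∈ T, g ∈ G ∧
      ∀ u : degreeLT k H, (∃ s, (u : k[X]) = g * s ^ 2) → ψ u = 1 :=
    ⟨_, hr, fun g hg => mem_filter.1 hg⟩
  have inj : Set.InjOn (fun g' => bb (g' * g)) T := fun g₁ h₁ g₂ h₂ e => by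
    obtain ⟨-, d1, m1⟩ := hp g₁ (hT' _ h₁).1
    obtain ⟨-, d2, m2⟩ := hp g₂ (hT' _ h₂).1
    obtain ⟨s, hs⟩ := ll_ker (t := g₁ - g₂) (hp g hg).1 (by
      rw [CharTwo.sub_eq_add, add_mul, bb_add, show bb (g₁ * g) = _ from e,
        CharTwo.add_self_eq_zero])
    by_contra ne
    have h3 := natDegree_le_of_dvd ⟨_, hs⟩ (sub_ne_zero.2 ne)
    have h4 := degree_sub_lt_left (degree_eq_natDegree m1.ne_zero ▸ degree_eq_natDegree m2.ne_zero ▸
      by rw [d1, d2]) m1.ne_zero (m1.trans m2.symm)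
    have := natDegree_lt_natDegree (sub_ne_zero.2 ne) h4
    have := (hp g hg).2.1
    omega
  obtain ⟨d, dm, dd, hd⟩ := maj_main K (σ := (H - γ + 1) / 2) (by omega) hκ (T.image fun g' => bb (g' * g))
    (fun x hx => by
    obtain ⟨g', hg', rfl⟩ := mem_image.1 hx
    obtain ⟨m, h⟩ := hT' _ hg'
    obtain ⟨i', d', m'⟩ := hp g' m
    refine ⟨bb_deg ?_, fun s hs => ⟨⟨g' * s ^ 2, mem_degreeLT.2
      ((ll_deg i'.ne_zero d' (by omega)).2 hs)⟩, ?_, h _ ⟨s, rfl⟩⟩⟩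
    · rw [degree_eq_natDegree (mul_ne_zero i'.ne_zero (hp g hg).1.ne_zero),
        natDegree_mul i'.ne_zero (hp g hg).1.ne_zero, d', (hp g hg).2.1]
      exact_mod_cast (by omega)
    · rw [← bb_mul_sq]
      congr 1
      ring) (by rwa [card_image_of_injOn inj])
  have hd' : d ∈ (range κ).biUnion (mon k) :=
    mem_biUnion.2 ⟨_, mem_range.2 dd, mem_mon.2 ⟨dm, rfl⟩⟩
  refine ⟨d, hd', fun s hs => ?_⟩
  obtain ⟨t, e, h⟩ := hd s ((mem_box.1 hs).trans_le (by exact_mod_cast (by omega)))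
  obtain ⟨r, hr⟩ := ll_ker (t := (y g d s - t : degreeLT k H)) (hp g hg).1 (by
    rw [Submodule.coe_sub, CharTwo.sub_eq_add, add_mul, bb_add, e, hy g d s hg hd' hs,
      CharTwo.add_self_eq_zero])
  rw [← sub_add_cancel (y g d s) t, AddChar.map_add_eq_mul, h, hψ _ ⟨r, hr⟩, one_mul]

theorem lln2 {γ H κ : ℕ} (h1 : 3 * γ + 1 ≤ H) (h2 : κ ≤ γ) (a : k[X]) (W : k[X] → ℝ) {D B : ℝ}
    (hB : ∀ g ∈ prs k γ, ∀ x ∈ box k ((H + γ) / 2), |W (bb (a * g) + x) - D| ≤ B) :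
    𝔼 t ∈ box k H, (∑ g ∈ prs k γ, (W (bb ((a + t) * g)) - D)) ^ 2 ≤
      (#(prs k γ) : ℝ) * B ^ 2 * (1 + qq k ^ (γ - κ)) +
      (#(prs k γ) : ℝ) * ∑ g ∈ prs k γ, ∑ i ∈ range (κ + 1), ∑ d ∈ mon k i,
        VV W D ((H + γ) / 2) ((H + γ) / 2 - κ) d (bb (a * g)) := by
  have q0 : (0 : ℝ) < qq k := two_pos.trans_le two_le_qq
  refine (ll_main (G := prs k γ) (L' := (H + γ) / 2 - κ) Subset.rfl h1 h2 (by omega)
    (fun x => W x - D) a (B := B) fun g hg t ht => ?_).trans (add_le_add ?_ ?_)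
  · rw [add_mul, bb_add]
    exact hB g hg _ (mem_box.2 (ll_mem (mem_mon.1 (mem_filter.1 hg).1).2 (mem_box.1 ht)))
  · have : (0 : ℝ) ≤ #(prs k γ) * B ^ 2 := by positivity
    linarith
  refine mul_le_mul_of_nonneg_left (sum_le_sum fun g _ => ?_) (by positivity)
  rw [sum_biUnion fun i _ j _ h => disjoint_left.2 fun d h1 h2 =>
    h ((mem_mon.1 h1).2.symm.trans (mem_mon.1 h2).2), sum_range_succ]
  refine le_add_of_le_of_nonneg (le_of_eq ?_)
    (sum_nonneg fun _ _ => expect_nonneg fun _ _ => sq_nonneg _)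
  simp only [VV, expect_sub_distrib, expect_const (box_nonempty (k := k) _)]

end Lln

end RowLLN_

section RowCELL_


section Cell
variable {k : Type} [Field k] [Fintype k]

omit [Fintype k] in
theorem ce_lt {a b : k[X]} {m n r : ℕ} (ha : a.degree < m) (hb : b.degree ≤ n) (h : m + n ≤ r) :
    (a * b).degree < r := by
  refine (degree_mul_le _ _).trans_lt ?_
  refine (add_le_add_right hb _).trans_lt ((WithBot.add_lt_add_right (by simp) ha).trans_le ?_)
  exact_mod_cast h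

theorem ce_div {f b : k[X]} {j β : ℕ} (hf : f ∈ mon k (j + β)) (hb : b ∈ mon k β) :
    f /ₘ b ∈ mon k j := by
  obtain ⟨f1, f2⟩ := mem_mon.1 hf
  obtain ⟨b1, b2⟩ := mem_mon.1 hb
  refine mem_mon.2 ⟨?_, by rw [natDegree_divByMonic _ b1, f2, b2, Nat.add_sub_cancel]⟩
  rw [Monic, leadingCoeff_divByMonic_of_monic b1 (by
    rw [degree_eq_natDegree f1.ne_zero, degree_eq_natDegree b1.ne_zero, f2, b2]
    exact_mod_cast (by omega))]
  exact f1

theorem ce_inj {f b b' : k[X]} {j β : ℕ} (hf : f ∈ mon k (j + β)) (hb : b ∈ mon k β)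
    (hb' : b' ∈ mon k β) (hj : β ≤ j) (h : (f /ₘ b' - f /ₘ b).degree < (j - β : ℕ)) : b = b' := by
  obtain ⟨a1, a2⟩ := mem_mon.1 (ce_div hf hb)
  obtain ⟨b1, b2⟩ := mem_mon.1 hb
  obtain ⟨c1, c2⟩ := mem_mon.1 hb'
  have e : f /ₘ b * (b - b') = (f %ₘ b' - f %ₘ b) + (f /ₘ b' - f /ₘ b) * b' := by
    linear_combination modByMonic_add_div f b - modByMonic_add_div f b'
  have r1 := degree_modByMonic_lt f b1
  have r2 := degree_modByMonic_lt f c1
  rw [degree_eq_natDegree b1.ne_zero, b2] at r1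
  rw [degree_eq_natDegree c1.ne_zero, c2] at r2
  have d : (f /ₘ b * (b - b')).degree < j := by
    rw [e]
    refine (degree_add_le _ _).trans_lt (max_lt ((degree_sub_le _ _).trans_lt
      ((max_lt r2 r1).trans_le (by exact_mod_cast hj))) ?_)
    exact ce_lt h (c2 ▸ degree_le_natDegree) (by omega)
  by_contra ne
  have n0 := mul_ne_zero a1.ne_zero (sub_ne_zero.2 ne)
  rw [← natDegree_lt_iff_degree_lt n0, natDegree_mul a1.ne_zero (sub_ne_zero.2 ne)] at d
  omega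

variable [CharP k 2]

theorem ce_cnt {f g : k[X]} {j β γ m L : ℕ} (hf : f ∈ mon k (j + β)) (hg : g ∈ mon k γ)
    (hj : β ≤ j) (hm : j + γ = 2 * m + 1) (hL : 2 * L + β ≤ 2 * m + 1) (z : k[X]) :
    (#{b ∈ mon k β | (z - bb (f /ₘ b * g)).degree < L} : ℝ) ≤ qq k ^ ((β + 1) / 2) := by
  obtain ⟨g1, g2⟩ := mem_mon.1 hg
  have hm' : ∀ b ∈ mon k β, f /ₘ b * g ∈ mon k (2 * m + 1) := fun b hb => by
    obtain ⟨a1, a2⟩ := mem_mon.1 (ce_div hf hb)
    exact mem_mon.2 ⟨a1.mul g1, by rw [a1.natDegree_mul g1, a2, g2, hm]⟩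
  obtain ⟨c, hc⟩ : ∃ c, c = m + 1 - (β + 1) / 2 := ⟨_, rfl⟩
  have hX := monic_X_pow (R := k) c
  rw [← card_box]
  refine Nat.cast_le.2 (card_le_card_of_injOn (fun b => aa (f /ₘ b * g) /ₘ X ^ c)
    (fun b hb => ?_) fun b hb b' hb' e => ?_)
  · have h1 := (bb_mon (hm' b (mem_filter.1 hb).1)).2
    refine mem_coe.2 (mem_box.2 ?_)
    beta_reduce
    by_cases h0 : aa (f /ₘ b * g) /ₘ X ^ c = 0
    · rw [h0, degree_zero]
      exact WithBot.bot_lt_coe _
    have h2 := natDegree_le_natDegree (not_lt.1 (mt (divByMonic_eq_zero_iff hX).2 h0))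
    rw [← natDegree_lt_iff_degree_lt h0, natDegree_divByMonic _ hX]
    rw [natDegree_X_pow] at *
    omega
  obtain ⟨m1, z1⟩ := mem_filter.1 hb
  obtain ⟨m2, z2⟩ := mem_filter.1 hb'
  refine ce_inj hf m1 m2 hj ?_
  have d1 : (aa (f /ₘ b' * g) - aa (f /ₘ b * g)).degree < c := by
    rw [← modByMonic_add_div (aa (f /ₘ b' * g)) (X ^ c), ← modByMonic_add_div (aa (f /ₘ b * g))
      (X ^ c), show aa (f /ₘ b * g) /ₘ X ^ c = _ from e, add_sub_add_right_eq_sub, ← degree_X_pow (R := k) c]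
    exact (degree_sub_le _ _).trans_lt
      (max_lt (degree_modByMonic_lt _ hX) (degree_modByMonic_lt _ hX))
  have d2 : (bb (f /ₘ b' * g) - bb (f /ₘ b * g)).degree < L := by
    rw [← sub_sub_sub_cancel_left _ _ z]
    exact (degree_sub_le _ _).trans_lt (max_lt z1 z2)
  have e2 : (f /ₘ b' - f /ₘ b) * g = (aa (f /ₘ b' * g) - aa (f /ₘ b * g)) ^ 2 +
      X * (bb (f /ₘ b' * g) - bb (f /ₘ b * g)) ^ 2 := by
    simp only [CharTwo.sub_eq_add, CharTwo.add_sq]
    linear_combination ab_spec (f /ₘ b' * g) + ab_spec (f /ₘ b * g)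
  generalize aa (f /ₘ b' * g) - aa (f /ₘ b * g) = u at *
  generalize bb (f /ₘ b' * g) - bb (f /ₘ b * g) = v at *
  generalize f /ₘ b' - f /ₘ b = w at *
  by_cases w0 : w = 0
  · rw [w0, degree_zero]
    exact WithBot.bot_lt_coe _
  have d3 : (w * g).degree < (2 * m + 1 - β : ℕ) := by
    rw [e2]
    refine (degree_add_le _ _).trans_lt (max_lt ?_ ?_)
    · by_cases u0 : u = 0
      · simp [u0]
      rw [← natDegree_lt_iff_degree_lt u0] at d1
      rw [← natDegree_lt_iff_degree_lt (pow_ne_zero _ u0), natDegree_pow]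
      omega
    · by_cases v0 : v = 0
      · simp [v0]
      rw [← natDegree_lt_iff_degree_lt v0] at d2
      rw [← natDegree_lt_iff_degree_lt (mul_ne_zero X_ne_zero (pow_ne_zero _ v0)),
        natDegree_X_mul (pow_ne_zero _ v0), natDegree_pow]
      omega
  rw [← natDegree_lt_iff_degree_lt (mul_ne_zero w0 g1.ne_zero), natDegree_mul w0 g1.ne_zero] at d3
  rw [← natDegree_lt_iff_degree_lt w0]
  omega

/-- The odd halves of the quotients do not concentrate on few cells. -/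
theorem ce_main {f g : k[X]} {j β γ m L : ℕ} (hf : f ∈ mon k (j + β)) (hg : g ∈ mon k γ)
    (hj : β ≤ j) (hm : j + γ = 2 * m + 1) (hL : 2 * L + β ≤ 2 * m + 1) (Φ : k[X] → ℝ)
    (hΦ : ∀ x, 0 ≤ Φ x) :
    𝔼 b ∈ mon k β, 𝔼 x ∈ box k L, Φ (bb (f /ₘ b * g) + x) ≤
      qq k ^ m / (qq k ^ L * qq k ^ (β / 2)) * 𝔼 z ∈ mon k m, Φ z := by
  have q0 : (0 : ℝ) < qq k := two_pos.trans_le two_le_qq
  obtain ⟨g1, g2⟩ := mem_mon.1 hg
  have h1 : ∀ b ∈ mon k β, ∑ x ∈ box k L, Φ (bb (f /ₘ b * g) + x) ≤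
      ∑ z ∈ mon k m, if (z - bb (f /ₘ b * g)).degree < L then Φ z else 0 := fun b hb => by
    obtain ⟨a1, a2⟩ := mem_mon.1 (ce_div hf hb)
    obtain ⟨y1, y2⟩ := mem_mon.1 (bb_mon (h := f /ₘ b * g) (m := m)
      (mem_mon.2 ⟨a1.mul g1, by rw [a1.natDegree_mul g1, a2, g2, hm]⟩)).1
    rw [← sum_filter, ← sum_image (s := box k L) (g := fun x => bb (f /ₘ b * g) + x)
      fun x _ y _ e => add_left_cancel e]
    refine sum_le_sum_of_subset_of_nonneg (fun z hz => ?_) fun _ _ _ => hΦ _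
    obtain ⟨x, hx, rfl⟩ := mem_image.1 hz
    have d : x.degree < (bb (f /ₘ b * g)).degree := by
      rw [degree_eq_natDegree y1.ne_zero, y2]
      exact (mem_box.1 hx).trans_le (by exact_mod_cast (by omega))
    refine mem_filter.2 ⟨mem_mon.2 ⟨y1.add_of_left d, ?_⟩, by simpa using mem_box.1 hx⟩
    rw [natDegree_add_eq_left_of_degree_lt d, y2]
  have h2 : ∑ b ∈ mon k β, ∑ x ∈ box k L, Φ (bb (f /ₘ b * g) + x) ≤
      qq k ^ ((β + 1) / 2) * ∑ z ∈ mon k m, Φ z := by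
    refine (sum_le_sum h1).trans ?_
    rw [sum_comm, mul_sum]
    refine sum_le_sum fun z _ => ?_
    rw [← sum_filter, sum_const, nsmul_eq_mul]
    exact mul_le_mul_of_nonneg_right (ce_cnt hf hg hj hm hL z) (hΦ z)
  simp only [expect_eq_sum_div_card, card_box, card_mon, ← sum_div]
  refine (div_le_div_of_nonneg_right (div_le_div_of_nonneg_right h2 (by positivity))
    (by positivity)).trans (le_of_eq ?_)
  have : qq k ^ β = qq k ^ ((β + 1) / 2) * qq k ^ (β / 2) := by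
    rw [← pow_add]
    congr 1
    omega
  rw [this]
  field_simp

theorem cell {N j β γ m L : ℕ} {f₀ g : k[X]} (hf : f₀ ∈ mon k N) (hg : g ∈ mon k γ)
    (h1 : j + β = N) (h2 : β ≤ j) (h3 : j + γ = 2 * m + 1) (h4 : 2 * L + β ≤ 2 * m + 1)
    (F : k[X] → ℝ) (hF : ∀ y, 0 ≤ F y) :
    𝔼 b ∈ mon k β, 𝔼 y ∈ box k L, F (bb (f₀ /ₘ b * g) + y) ≤
      qq k ^ (m - L) / qq k ^ (β / 2) * 𝔼 y ∈ mon k m, F y := by
  have q0 : qq k ≠ 0 := (two_pos.trans_le two_le_qq).ne'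
  refine (ce_main (h1 ▸ hf) hg h2 h3 h4 F hF).trans (le_of_eq ?_)
  rw [pow_sub₀ _ q0 (by omega)]
  field_simp

end Cell

end RowCELL_

section RowGEN_
variable {k : Type} [Field k] [Fintype k]

theorem gen_abs {Ω : Type} (s : Finset Ω) (f : Ω → ℝ) : |𝔼 t ∈ s, f t| ≤ 𝔼 t ∈ s, |f t| :=
  Finset.abs_expect_le s f

theorem gen_pt {Ω G : Type} {s : Finset Ω} (hs : s.Nonempty) (T : Finset G) (w : G → Ω → ℝ)
    (f : Ω → ℝ) (hf : ∀ t, |f t| ≤ 1) {D R Y : ℝ} (hD : 0 ≤ D) (hR : 0 < R)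
    (hw : ∀ g ∈ T, |𝔼 t ∈ s, w g t * f t| ≤ Y) :
    (#T : ℝ) * D * |𝔼 t ∈ s, f t| ≤
      #T * Y + (𝔼 t ∈ s, (∑ g ∈ T, (w g t - D)) ^ 2) / (2 * R) + R / 2 := by
  have e1 : (#T : ℝ) * D * 𝔼 t ∈ s, f t = ∑ g ∈ T, 𝔼 t ∈ s, w g t * f t -
      𝔼 t ∈ s, (∑ g ∈ T, (w g t - D)) * f t := by
    rw [← Finset.expect_sum_comm, ← Finset.expect_sub_distrib, Finset.mul_expect]
    refine Finset.expect_congr rfl fun t _ => ?_
    rw [Finset.sum_sub_distrib, ← Finset.sum_mul, Finset.sum_const, nsmul_eq_mul]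
    ring
  have e2 : |∑ g ∈ T, 𝔼 t ∈ s, w g t * f t| ≤ #T * Y := by
    refine (Finset.abs_sum_le_sum_abs _ _).trans ?_
    rw [← nsmul_eq_mul]
    exact Finset.sum_le_card_nsmul _ _ _ hw
  have e3 : |𝔼 t ∈ s, (∑ g ∈ T, (w g t - D)) * f t| ≤
      (𝔼 t ∈ s, (∑ g ∈ T, (w g t - D)) ^ 2) / (2 * R) + R / 2 := by
    refine (gen_abs _ _).trans ?_
    have e4 : (𝔼 t ∈ s, (∑ g ∈ T, (w g t - D)) ^ 2) / (2 * R) + R / 2 =
        𝔼 t ∈ s, ((∑ g ∈ T, (w g t - D)) ^ 2 / (2 * R) + R / 2) := by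
      rw [Finset.expect_add_distrib, Finset.expect_const hs, Finset.expect_div]
    rw [e4]
    refine Finset.expect_le_expect fun t _ => ?_
    generalize ∑ g ∈ T, (w g t - D) = z
    have h1 : |z * f t| ≤ |z| := by
      rw [abs_mul]; exact mul_le_of_le_one_right (abs_nonneg _) (hf t)
    refine h1.trans ?_
    rw [← sq_abs z, div_add_div _ _ (by positivity) (by positivity), le_div_iff₀ (by positivity)]
    nlinarith [sq_nonneg (|z| - R)]
  have e5 : (#T : ℝ) * D * |𝔼 t ∈ s, f t| = |(#T : ℝ) * D * 𝔼 t ∈ s, f t| := by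
    rw [abs_mul, abs_of_nonneg (show (0 : ℝ) ≤ #T * D by positivity)]
  rw [e5, e1]
  linarith [abs_sub (∑ g ∈ T, 𝔼 t ∈ s, w g t * f t) (𝔼 t ∈ s, (∑ g ∈ T, (w g t - D)) * f t)]

theorem gen_geom {κ : ℕ} (h : 0 < κ) : ∑ i ∈ range (κ + 1), qq k ^ i ≤ qq k ^ (2 * κ) := by
  have h2 : (2 : ℝ) ≤ qq k := two_le_qq
  have h3 : ∀ n : ℕ, ∑ i ∈ range n, qq k ^ i ≤ qq k ^ n := by
    intro n
    induction n with
    | zero => simp
    | succ n ih =>
      rw [Finset.sum_range_succ, pow_succ]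
      nlinarith [pow_pos (show 0 < qq k by linarith) n]
  exact (h3 _).trans (pow_le_pow_right₀ (by linarith) (by omega))

theorem gen_mon {m L : ℕ} {y x : k[X]} (hy : y ∈ mon k m) (hx : x ∈ box k L) (h : L ≤ m) :
    y + x ∈ mon k m := by
  obtain ⟨h1, h2⟩ := mem_mon.1 hy
  have h3 : x.degree < y.degree := by
    rw [degree_eq_natDegree h1.ne_zero, h2]
    exact (mem_box.1 hx).trans_le (by exact_mod_cast h)
  exact mem_mon.2 ⟨h1.add_of_left h3, by rw [natDegree_add_eq_left_of_degree_lt h3, h2]⟩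

theorem gen_ex (c : ℕ) : 2 ≤ ex c :=
  (pow_one 2).symm.le.trans (Nat.pow_le_pow_right (by norm_num) (by omega))

variable [CharP k 2]

theorem gen (ι : Type) [Fintype ι] [Nonempty ι] : ∃ c₀ : ℝ, 0 ≤ c₀ ∧
    ∀ (S : Finset k[X]) (a : k[X] → k[X]) (φ : k[X] → ℝ) (e : ι → ℕ) (κ j H γ m : ℕ) (π x : ℝ),
    S.Nonempty → (∀ i ∈ S, a i ∈ mon k j) → 0 < κ → Function.Injective e →
    (∀ i, 2 * κ ≤ e i ∧ e i ≤ 5 * κ) → κ + ∑ i, e i = m → j + γ = 2 * m + 1 → 16 * κ ≤ γ →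
    3 * γ + 1 ≤ H → H ≤ j → (∀ f, |φ f| ≤ 1) →
    (∀ g ∈ prs k γ, ∀ f ∈ mon k j,
      ∃ u, Kill 18 1 u ∧ ∀ s ∈ box k (10 * κ), φ (f + g * s ^ 2) = u s) →
    (∀ g ∈ prs k γ, ∀ F : k[X] → ℝ, (∀ y, 0 ≤ F y) →
      𝔼 i ∈ S, 𝔼 y ∈ box k ((H + γ) / 2), F (bb (a i * g) + y) ≤ π * 𝔼 y ∈ mon k m, F y) →
    0 ≤ π → 0 ≤ x → x ≤ 1 → 1 / qq k ^ κ ≤ x ^ ex (Fintype.card ι + 1) →
    π * qq k ^ (5 * κ) / qq k ^ ((H + γ) / 2) ≤ x ^ 2 →
    |𝔼 i ∈ S, 𝔼 t ∈ box k H, mu (a i + t) * φ (a i + t)| ≤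
      c₀ * ((j : ℝ) + 2) ^ (2 * Fintype.card ι + 1) * x := by
  obtain ⟨c₁, hc₁, hdir⟩ := dirE (k := k) ι
  refine ⟨2 ^ Fintype.card ι * (c₁ + 2), by positivity, ?_⟩
  intro S a φ e κ j H γ m π x hS ha hκ hinj he hm hj hγ hH hHj hφ hK hπ hπ0 hx0 hx1 hxe hxπ
  obtain ⟨c, hc⟩ : ∃ c, c = Fintype.card ι := ⟨_, rfl⟩
  obtain ⟨L, hL⟩ : ∃ L, L = (H + γ) / 2 := ⟨_, rfl⟩
  rw [← hc] at hdir hxe ⊢
  rw [← hL] at hπ hxπ
  have hx2 : 1 / qq k ^ κ ≤ x ^ 2 := hxe.trans (pow_le_pow_of_le_one hx0 hx1 (gen_ex _))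
  generalize ex (c + 1) = E at hdir hxe
  have hq2 : (2 : ℝ) ≤ qq k := two_le_qq
  have hq : 0 < qq k := by linarith
  have hLm : L ≤ m := by omega
  have hLκ : 2 * κ ≤ L := by omega
  have hγ0 : 0 < γ := by omega
  have hM := card_prs (k := k) hγ0
  obtain ⟨M, hMdef⟩ : ∃ M : ℝ, M = (#(prs k γ) : ℝ) := ⟨_, rfl⟩
  rw [← hMdef] at hM
  have hγR : (1 : ℝ) ≤ γ := by exact_mod_cast hγ0
  have hM0 : 0 < M := by
    by_contra hn
    have : M = 0 := le_antisymm (not_lt.1 hn) (hMdef ▸ Nat.cast_nonneg _)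
    rw [this, mul_zero] at hM
    exact absurd hM (not_le.2 (pow_pos hq _))
  have hei : ∀ i, 0 < e i ∧ e i ≤ m := fun i => ⟨by have := (he i).1; omega, by
    have := Finset.single_le_sum (f := e) (fun i _ => Nat.zero_le _) (Finset.mem_univ i); omega⟩
  have hm1 : (1 : ℝ) ≤ m := by exact_mod_cast (show 1 ≤ m by omega)
  have hD := DW_ge (k := k) hei
  have hD1 := DW_le (k := k) e
  rw [← hc] at hD
  obtain ⟨D, hDdef⟩ : ∃ D : ℝ, D = DW k e := ⟨_, rfl⟩
  rw [← hDdef] at hD hD1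
  have hD0 : 0 < D := lt_of_lt_of_le (by positivity) hD
  have hxp : 0 < x := by
    rcases hx0.eq_or_lt with h | h
    · rw [← h] at hx2
      exact absurd hx2 (not_le.2 (by simpa using pow_pos hq κ))
    · exact h
  have hbb : ∀ i ∈ S, ∀ g ∈ prs k γ, bb (a i * g) ∈ mon k m := fun i hi g hg =>
    (bb_mon (by rw [← hj]; exact equi_mul_mon (ha i hi) hg)).1
  have hB : ∀ i ∈ S, ∀ g ∈ prs k γ, ∀ y ∈ box k L,
      |WW κ e (bb (a i * g) + y) - D| ≤ (m : ℝ) ^ c := by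
    intro i hi g hg y hy
    obtain ⟨h1, h2⟩ := mem_mon.1 (gen_mon (hbb i hi g hg) hy hLm)
    have h3 := WW_le κ (fun i => (hei i).1) h1.ne_zero
    have h4 := WW_nonneg κ e (bb (a i * g) + y)
    have h5 : (1 : ℝ) ≤ (m : ℝ) ^ c := one_le_pow₀ hm1
    rw [h2, ← hc] at h3
    exact abs_le.2 ⟨by linarith, by linarith⟩
  have hV : ∀ g ∈ prs k γ, ∀ n ∈ range (κ + 1), ∀ d ∈ mon k n,
      𝔼 i ∈ S, VV (WW κ e) D L (L - κ) d (bb (a i * g)) ≤
        π * (((m : ℝ) + 2) ^ (2 * c) * qq k ^ (2 * κ) / qq k ^ (L - κ)) := by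
    intro g hg n hn d hd
    obtain ⟨h1, h2⟩ := mem_mon.1 hd
    have hn' : n ≤ κ := Nat.lt_succ_iff.1 (Finset.mem_range.1 hn)
    refine (hπ g hg (fun y => (𝔼 s ∈ box k (L - κ), WW κ e (y + d * s) - D) ^ 2)
      (fun y => sq_nonneg _)).trans (mul_le_mul_of_nonneg_left ?_ hπ0)
    rw [hDdef, hc]
    exact var h1 (by omega) (by omega) (by omega) (fun i => by have := (he i).1; omega) hm
  obtain ⟨P, hP⟩ : ∃ P : ℝ, P = ((m : ℝ) + 2) ^ c := ⟨_, rfl⟩
  have hP0 : 0 < P := by rw [hP]; positivity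
  have hmP : (m : ℝ) ^ c ≤ P := hP ▸ pow_le_pow_left₀ (by linarith) (by linarith) _
  have hV2 : ∀ g ∈ prs k γ, 𝔼 i ∈ S, ∑ n ∈ range (κ + 1), ∑ d ∈ mon k n,
      VV (WW κ e) D L (L - κ) d (bb (a i * g)) ≤ P ^ 2 * x ^ 2 := by
    intro g hg
    rw [Finset.expect_sum_comm]
    obtain ⟨V, hVdef⟩ : ∃ V : ℝ,
      V = π * (((m : ℝ) + 2) ^ (2 * c) * qq k ^ (2 * κ) / qq k ^ (L - κ)) := ⟨_, rfl⟩
    have hV0 : 0 ≤ V := by rw [hVdef]; positivity
    rw [← hVdef] at hV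
    calc _ ≤ ∑ n ∈ range (κ + 1), qq k ^ n * V := by
          refine Finset.sum_le_sum fun n hn => ?_
          rw [Finset.expect_sum_comm, ← card_mon, ← nsmul_eq_mul]
          exact Finset.sum_le_card_nsmul _ _ _ (hV g hg n hn)
      _ ≤ qq k ^ (2 * κ) * V := by
          rw [← Finset.sum_mul]
          exact mul_le_mul_of_nonneg_right (gen_geom hκ) hV0
      _ = P ^ 2 * (π * qq k ^ (5 * κ) / qq k ^ L) := by
          have h1 : qq k ^ L = qq k ^ (L - κ) * qq k ^ κ := by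
            rw [← pow_add]; congr 1; omega
          rw [hVdef, hP, h1, ← pow_mul, mul_comm c 2]
          field_simp
          ring
      _ ≤ _ := mul_le_mul_of_nonneg_left hxπ (by positivity)
  obtain ⟨R, hR⟩ : ∃ R : ℝ, R = M * x * P * (2 * γ + 1) := ⟨_, rfl⟩
  have hR0 : 0 < R := by rw [hR]; positivity
  have hZ : 𝔼 i ∈ S, 𝔼 t ∈ box k H, (∑ g ∈ prs k γ, (WW κ e (bb ((a i + t) * g)) - D)) ^ 2 ≤
      R ^ 2 := by
    have h1 : qq k ^ (γ - κ) ≤ 2 * γ * M * x ^ 2 := by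
      have h2 : qq k ^ (γ - κ) = qq k ^ γ * (1 / qq k ^ κ) := by
        rw [show qq k ^ γ = qq k ^ (γ - κ) * qq k ^ κ by rw [← pow_add]; congr 1; omega]
        field_simp
      rw [h2]
      exact mul_le_mul hM hx2 (by positivity) (by positivity)
    have h3 : (1 : ℝ) ≤ qq k ^ (γ - κ) := one_le_pow₀ (by linarith)
    have h4 : ((m : ℝ) ^ c) ^ 2 ≤ P ^ 2 := pow_le_pow_left₀ (by positivity) hmP 2
    calc _ ≤ 𝔼 i ∈ S, (M * ((m : ℝ) ^ c) ^ 2 * (1 + qq k ^ (γ - κ)) +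
            M * ∑ g ∈ prs k γ, ∑ n ∈ range (κ + 1), ∑ d ∈ mon k n,
              VV (WW κ e) D L (L - κ) d (bb (a i * g))) := by
          rw [hMdef, hL]
          exact Finset.expect_le_expect fun i hi =>
            lln2 hH (by omega) (a i) (WW κ e) (hL ▸ hB i hi)
      _ ≤ M * ((m : ℝ) ^ c) ^ 2 * (1 + qq k ^ (γ - κ)) + M * (M * (P ^ 2 * x ^ 2)) := by
          rw [Finset.expect_add_distrib, Finset.expect_const hS, ← Finset.mul_expect,
            Finset.expect_sum_comm]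
          refine add_le_add le_rfl (mul_le_mul_of_nonneg_left ?_ hM0.le)
          rw [hMdef, ← nsmul_eq_mul]
          exact Finset.sum_le_card_nsmul _ _ _ hV2
      _ ≤ M * P ^ 2 * (4 * γ * M * x ^ 2) + M * (M * (P ^ 2 * x ^ 2)) := by
          refine add_le_add (mul_le_mul (mul_le_mul_of_nonneg_left h4 hM0.le) (by linarith)
            (by positivity) (by positivity)) le_rfl
      _ = (M * x * P) ^ 2 * (4 * γ + 1) := by ring
      _ ≤ (M * x * P) ^ 2 * (2 * γ + 1) ^ 2 :=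
          mul_le_mul_of_nonneg_left (by nlinarith) (by positivity)
      _ = R ^ 2 := by rw [hR]; ring
  have hpt : ∀ i ∈ S, M * D * |𝔼 t ∈ box k H, mu (a i + t) * φ (a i + t)| ≤
      M * ((m : ℝ) ^ c * (c₁ * x)) + (𝔼 t ∈ box k H,
        (∑ g ∈ prs k γ, (WW κ e (bb ((a i + t) * g)) - D)) ^ 2) / (2 * R) + R / 2 := by
    intro i hi
    rw [hMdef]
    refine gen_pt (box_nonempty H) (prs k γ) (fun g t => WW κ e (bb ((a i + t) * g)))
      (fun t => mu (a i + t) * φ (a i + t)) (fun t => ?_) hD0.le hR0 fun g hg => ?_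
    · rw [abs_mul]
      exact mul_le_one₀ (abs_mu _) (abs_nonneg _) (hφ _)
    · exact hdir (a i) g φ e κ j H γ m x (ha i hi) hg hκ hinj he hm hj hγ (by omega) hHj hφ
        (hK g hg) hx0 hx1 hxe
  have hall : M * D * |𝔼 i ∈ S, 𝔼 t ∈ box k H, mu (a i + t) * φ (a i + t)| ≤
      M * ((m : ℝ) ^ c * (c₁ * x)) + R := by
    refine (mul_le_mul_of_nonneg_left (gen_abs _ _) (by positivity)).trans ?_
    rw [Finset.mul_expect]
    refine (Finset.expect_le_expect hpt).trans ?_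
    rw [Finset.expect_add_distrib, Finset.expect_add_distrib, Finset.expect_const hS,
      Finset.expect_const hS, ← Finset.expect_div]
    have : (𝔼 i ∈ S, 𝔼 t ∈ box k H,
        (∑ g ∈ prs k γ, (WW κ e (bb ((a i + t) * g)) - D)) ^ 2) / (2 * R) ≤ R / 2 := by
      rw [div_le_iff₀ (by positivity)]
      linarith [show R / 2 * (2 * R) = R ^ 2 by ring]
    linarith
  generalize |𝔼 i ∈ S, 𝔼 t ∈ box k H, mu (a i + t) * φ (a i + t)| = A at hall ⊢
  have h1 : D * A ≤ P * (c₁ + 2 * γ + 1) * x := by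
    refine le_of_mul_le_mul_left ?_ hM0
    have : M * ((m : ℝ) ^ c * (c₁ * x)) ≤ M * (P * (c₁ * x)) := by gcongr
    rw [hR] at hall
    linarith
  have hmj : (m : ℝ) ≤ j := by exact_mod_cast (show m ≤ j by omega)
  have hγj : (γ : ℝ) ≤ j := by exact_mod_cast (show γ ≤ j by omega)
  have h2 : 1 ≤ D * (2 * (m : ℝ)) ^ c := (div_le_iff₀ (by positivity)).1 hD
  have h3 : A ≤ (2 * (m : ℝ)) ^ c * (P * (c₁ + 2 * γ + 1) * x) := by
    rcases le_or_gt A 0 with h | h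
    · exact h.trans (by positivity)
    · calc A ≤ A * (D * (2 * (m : ℝ)) ^ c) := le_mul_of_one_le_right h.le h2
        _ = (2 * (m : ℝ)) ^ c * (D * A) := by ring
        _ ≤ _ := mul_le_mul_of_nonneg_left h1 (by positivity)
  refine h3.trans ?_
  have h4 : (2 * (m : ℝ)) ^ c ≤ 2 ^ c * ((j : ℝ) + 2) ^ c := by
    rw [← mul_pow]; exact pow_le_pow_left₀ (by linarith) (by linarith) _
  have h5 : P ≤ ((j : ℝ) + 2) ^ c := hP ▸ pow_le_pow_left₀ (by linarith) (by linarith) _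
  have h6 : c₁ + 2 * γ + 1 ≤ (c₁ + 2) * ((j : ℝ) + 2) := by nlinarith
  calc _ ≤ (2 ^ c * ((j : ℝ) + 2) ^ c) * (((j : ℝ) + 2) ^ c * ((c₁ + 2) * ((j : ℝ) + 2)) * x) := by
        gcongr
    _ = _ := by ring

end RowGEN_

end Pool.Agent.MP_2033ac_nt.SI
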