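import Pool.Agent.MP_2033ac_nt.SI.P3

/-! Choice of the parameters. -/

set_option autoImplicit false

open Polynomial Finset Filter
open scoped Classical BigOperators

noncomputable section
namespace Pool.Agent.MP_2033ac_nt.SI
open Pool.Agent.MP_a4a062_nt.C2 Pool.Agent.MP_f0209c_nt.FF
open Pool.Agent.MP_1609a8_nt.H76 (ch)

section RowNUM1_
variable {k : Type} [Field k] [Fintype k]

section NUM1

theorem num1_mon0 : mon k 0 = {1} := by
  ext a
  rw [mem_mon, mem_singleton]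
  constructor
  · rintro ⟨h1, h2⟩
    exact h1.natDegree_eq_zero.1 h2
  · rintro rfl
    simp

theorem num1_exp (N : ℕ) (F : k[X] → ℝ) :
    𝔼 a ∈ mon k N, F a = 𝔼 t ∈ box k N, F (X ^ N + t) := by
  unfold mon
  rw [expect_image]
  intro a _ b _ h
  exact add_left_cancel h

theorem num1_psi (c : k) : |psi c| ≤ 1 := by
  unfold psi
  split_ifs <;> simp

theorem num1_ex (c : ℕ) : 0 < ex c := by
  unfold ex
  positivity

variable [CharP k 2]

theorem r1fin : ∃ c₀ : ℝ, ∀ᶠ N : ℕ in atTop, ∀ (h j : ℕ) (f₀ : k[X]), f₀ ∈ mon k N →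
    49 * N ≤ 100 * h → h < j → 100 * j ≤ 51 * N →
    |SS f₀ h j| ≤ c₀ * (N : ℝ) ^ 21 * qq k ^ ((j : ℝ) - N / (121 * ex 11)) := by
  obtain ⟨c₀, hc₀, H⟩ := gen (k := k) (Fin 10)
  refine ⟨c₀, eventually_atTop.2 ⟨14520, fun N hN h j f₀ hf h1 h2 h3 => ?_⟩⟩
  obtain ⟨Y, hY, hS⟩ := SS_r1 hf h2
  have hq : 1 ≤ qq k := le_trans one_le_two two_le_qq
  have hq0 : 0 < qq k := lt_of_lt_of_le one_pos hq
  rw [Fintype.card_fin] at H
  have hE : 0 < ex 11 := num1_ex 11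
  have e11 : ex (10 + 1) = ex 11 := rfl
  rw [e11] at H
  generalize ex 11 = E at H hE ⊢
  obtain ⟨κ, hκ⟩ : ∃ κ, κ = N / 120 := ⟨_, rfl⟩
  obtain ⟨γ, m, hγ1, hγ2, hm⟩ : ∃ γ m, 16 * κ ≤ γ ∧ γ ≤ 16 * κ + 1 ∧ j + γ = 2 * m + 1 := by
    rcases Nat.even_or_odd' j with ⟨a, ha | ha⟩
    · exact ⟨16 * κ + 1, a + 8 * κ, by omega, by omega, by omega⟩
    · exact ⟨16 * κ, a + 8 * κ, by omega, by omega, by omega⟩
  obtain ⟨e, e1, e2, e3⟩ := deg_ex (u := 10) (κ := κ) (m := m - κ) (by omega) (by omega) (by omega)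
  have hX : (X ^ j : k[X]) ∈ mon k j := mem_mon.2 ⟨monic_X_pow j, natDegree_X_pow j⟩
  have hL : (j + γ) / 2 = m := by omega
  have hE1 : (1 : ℝ) ≤ E := by exact_mod_cast hE
  have hN0 : (0 : ℝ) ≤ N := Nat.cast_nonneg N
  obtain ⟨y, hy⟩ : ∃ y : ℝ, y = N / (121 * E) := ⟨_, rfl⟩
  have hy0 : 0 ≤ y := by rw [hy]; positivity
  have hyE : y * E = N / 121 := by rw [hy]; field_simp
  have hy1 : y ≤ N / 121 := by rw [← hyE]; nlinarith
  have hk1 : (N : ℝ) ≤ 121 * κ := by exact_mod_cast (by omega : N ≤ 121 * κ)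
  have hk2 : 2 * (N : ℝ) + 121 * (5 * κ) ≤ 121 * m := by
    exact_mod_cast (by omega : 2 * N + 121 * (5 * κ) ≤ 121 * m)
  have key := H (mon k 0) (fun b => X ^ j /ₘ b) (fun f => psi (tau f Y)) e κ j j γ m 1
    (qq k ^ (-y)) (mon_nonempty 0) (fun b hb => div_mem hX (add_zero j) hb) (by omega) e1 e2
    (by omega) hm hγ1 (by omega) le_rfl (fun f => num1_psi _)
    (fun g hg f hf => phase hf (mem_mon.1 (mem_filter.1 hg).1).2.le (by omega) (by omega))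
    (fun g hg F hF => by
      have := cell (N := j) (β := 0) (L := m) hX (mem_filter.1 hg).1 (add_zero j) (Nat.zero_le j)
        hm (by omega) F hF
      rw [hL]
      simpa using this)
    zero_le_one (by positivity) (Real.rpow_le_one_of_one_le_of_nonpos hq (by linarith))
    (by
      rw [← Real.rpow_natCast, ← Real.rpow_natCast, ← Real.rpow_mul hq0.le, one_div,
        ← Real.rpow_neg hq0.le]
      exact Real.rpow_le_rpow_of_exponent_le hq (by linarith))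
    (by
      rw [hL, one_mul, ← Real.rpow_natCast, ← Real.rpow_natCast, ← Real.rpow_natCast,
        ← Real.rpow_mul hq0.le, ← Real.rpow_sub hq0]
      refine Real.rpow_le_rpow_of_exponent_le hq ?_
      push_cast
      linarith)
  rw [num1_mon0, expect_singleton, divByMonic_one,
    ← num1_exp j fun a => mu a * psi (tau a Y)] at key
  have hj : (j : ℝ) + 2 ≤ N := by exact_mod_cast (by omega : j + 2 ≤ N)
  rw [← hy, sub_eq_add_neg, Real.rpow_add hq0, Real.rpow_natCast]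
  have h4 : c₀ * ((j : ℝ) + 2) ^ (2 * 10 + 1) * qq k ^ (-y) ≤ c₀ * (N : ℝ) ^ 21 * qq k ^ (-y) := by
    gcongr
  calc |SS f₀ h j| ≤ qq k ^ j * (c₀ * (N : ℝ) ^ 21 * qq k ^ (-y)) :=
        hS.trans (mul_le_mul_of_nonneg_left (key.trans h4) (by positivity))
    _ = _ := by ring

end NUM1

end RowNUM1_

section RowNUM2_


section Num2
variable {k : Type} [Field k] [Fintype k]

theorem num2_deg {u κ N m : ℕ} (hu : 100 ≤ u) (hκ : 4 * u ≤ κ) (h1 : 9 * (u * κ) ≤ N)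
    (h2 : N < 9 * (u * κ) + 9 * u) (h3 : N + 100 * κ ≤ 4 * m) (h4 : 2 * m ≤ N + 16 * κ) :
    u * (2 * κ + u) ≤ m - κ ∧ m - κ + u * u ≤ 5 * κ * u := by
  have a1 : 4 * (u * u) ≤ u * κ := by nlinarith
  have a2 : 100 * κ ≤ u * κ := Nat.mul_le_mul_right _ hu
  have e1 : u * (2 * κ + u) = 2 * (u * κ) + u * u := by ring
  have e2 : 5 * κ * u = 5 * (u * κ) := by ring
  rw [e1, e2]
  omega

theorem num2_pow {a b c d e : ℕ} (h : a + c + e ≤ b + d) :
    qq k ^ a / qq k ^ b * qq k ^ c / qq k ^ d ≤ 1 / qq k ^ e := by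
  have hq : (1 : ℝ) ≤ qq k := le_trans one_le_two two_le_qq
  have hq0 : (0 : ℝ) < qq k := lt_of_lt_of_le one_pos hq
  rw [div_mul_eq_mul_div, div_div, div_le_div_iff₀ (by positivity) (by positivity), one_mul,
    ← pow_add, ← pow_add, ← pow_add]
  exact pow_le_pow_right₀ hq h

theorem num2_x {N u κ z : ℕ} (hz : (0 : ℝ) < z) (hu : (0 : ℝ) < u) (h : N ≤ 10 * (u * κ)) :
    1 / qq k ^ κ ≤ (qq k ^ (-((N : ℝ) / (10 * u * z)))) ^ z := by
  have hq : (1 : ℝ) ≤ qq k := le_trans one_le_two two_le_qq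
  have hq0 : (0 : ℝ) < qq k := lt_of_lt_of_le one_pos hq
  have h1 : (N : ℝ) ≤ 10 * (u * κ) := by exact_mod_cast h
  have h2 : -((N : ℝ) / (10 * u * z)) * z = -(N / (10 * u)) := by
    field_simp
  rw [← Real.rpow_mul_natCast hq0.le, h2, one_div, ← Real.rpow_natCast (qq k) κ,
    ← Real.rpow_neg hq0.le]
  apply Real.rpow_le_rpow_of_exponent_le hq
  rw [neg_le_neg_iff, div_le_iff₀ (by positivity)]
  linarith

theorem num2_kill : Kill 18 (1 : k[X]) fun _ => (1 : ℝ) := by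
  intro A
  refine ⟨1, fun _ => 0, by simp, PDeg.const _ _, fun s => ?_⟩
  have : psi (0 : k) = 1 := by
    unfold psi
    rw [if_pos ⟨0, by simp⟩]
  rw [this, mul_one]

variable [CharP k 2]

theorem r2fin {u : ℕ} (hu : 100 ≤ u) : ∃ c₀ : ℝ, ∀ᶠ N : ℕ in atTop, ∀ (j : ℕ) (f₀ : k[X]),
    f₀ ∈ mon k N → N / 2 - N / (9 * u) + 52 * (N / (9 * u)) < j → j ≤ N →
    |SS f₀ (N / 2 - N / (9 * u)) j| ≤ c₀ * ((N : ℝ) + 2) ^ (2 * u + 1) *
      qq k ^ (((N / 2 - N / (9 * u) : ℕ) : ℝ) - N / (10 * u * ex (u + 1))) := by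
  have : Nonempty (Fin u) := ⟨⟨0, by omega⟩⟩
  obtain ⟨c₀, hc₀, hgen⟩ := gen (k := k) (Fin u)
  refine ⟨c₀, ?_⟩
  have hex : 2 ≤ ex (u + 1) := Nat.le_self_pow (by omega) 2
  rw [Fintype.card_fin] at hgen
  generalize ex (u + 1) = z at hgen hex ⊢
  filter_upwards [eventually_ge_atTop (9 * u * (4 * u))] with N hN j f₀ hf hj1 hj2
  have hq : (1 : ℝ) ≤ qq k := le_trans one_le_two two_le_qq
  have hq0 : (0 : ℝ) < qq k := lt_of_lt_of_le one_pos hq
  have hu0 : 0 < 9 * u := by omega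
  obtain ⟨κ, hκ⟩ : ∃ κ, κ = N / (9 * u) := ⟨_, rfl⟩
  rw [← hκ] at hj1 ⊢
  have hκ1 : 4 * u ≤ κ := by
    rw [hκ, Nat.le_div_iff_mul_le hu0, mul_comm]
    exact hN
  have hκ2 : 9 * (u * κ) ≤ N := by
    rw [hκ, ← mul_assoc]
    exact Nat.mul_div_le _ _
  have hκ3 : N < 9 * (u * κ) + 9 * u := by
    have := Nat.lt_mul_div_succ N hu0
    rw [← hκ, mul_add, mul_one, mul_assoc] at this
    exact this
  have hκ4 : 100 * κ ≤ u * κ := Nat.mul_le_mul_right _ hu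
  obtain ⟨h, hh⟩ : ∃ h, h = N / 2 - κ := ⟨_, rfl⟩
  rw [← hh] at hj1 ⊢
  obtain ⟨β, hβ⟩ : ∃ β, j + β = N := ⟨N - j, by omega⟩
  obtain ⟨H, hH⟩ : ∃ H, β + H = h := ⟨h - β, by omega⟩
  obtain ⟨γ, m, hγ1, hγ2, hm⟩ : ∃ γ m, 16 * κ ≤ γ ∧ γ ≤ 16 * κ + 1 ∧ j + γ = 2 * m + 1 := by
    rcases Nat.even_or_odd' j with ⟨r, hr | hr⟩
    · exact ⟨16 * κ + 1, r + 8 * κ, by omega, by omega, by omega⟩
    · exact ⟨16 * κ, r + 8 * κ, by omega, by omega, by omega⟩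
  obtain ⟨d1, d2⟩ := num2_deg (m := m) hu hκ1 hκ2 hκ3 (by omega) (by omega)
  obtain ⟨e, he1, he2, he3⟩ := deg_ex (by omega) d1 d2
  have hexR : (0 : ℝ) < z := by
    have : 0 < z := by omega
    exact_mod_cast this
  have huR : (0 : ℝ) < u := by
    have : 0 < u := by omega
    exact_mod_cast this
  obtain ⟨x, hx⟩ : ∃ x : ℝ, x = qq k ^ (-((N : ℝ) / (10 * u * z))) := ⟨_, rfl⟩
  have hx0 : 0 ≤ x := by rw [hx]; positivity
  have hx1 : x ≤ 1 := by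
    rw [hx]
    exact Real.rpow_le_one_of_one_le_of_nonpos hq (neg_nonpos.2 (by positivity))
  have hxe : 1 / qq k ^ κ ≤ x ^ z := by
    rw [hx]
    exact num2_x hexR huR (by omega)
  have hπ : qq k ^ (m - (H + γ) / 2) / qq k ^ (β / 2) * qq k ^ (5 * κ) / qq k ^ ((H + γ) / 2) ≤
      x ^ 2 :=
    ((num2_pow (by omega)).trans hxe).trans (pow_le_pow_of_le_one hx0 hx1 hex)
  have hmain := hgen (mon k β) (fun b => f₀ /ₘ b) (fun _ => 1) e κ j H γ m
    (qq k ^ (m - (H + γ) / 2) / qq k ^ (β / 2)) x (mon_nonempty β)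
    (fun b hb => div_mem hf hβ hb) (by omega) he1 he2 (by omega) hm hγ1 (by omega) (by omega)
    (fun _ => by simp) (fun _ _ _ _ => ⟨fun _ => 1, num2_kill, fun _ _ => rfl⟩)
    (fun g hg F hF => cell hf (mem_filter.1 hg).1 hβ (by omega) hm (by omega) F hF)
    (by positivity) hx0 hx1 hxe hπ
  simp only [mul_one] at hmain
  rw [SS_r2 hf hβ hH (by omega), abs_mul, abs_of_nonneg (pow_nonneg hq0.le _), sub_eq_add_neg,
    Real.rpow_add hq0, Real.rpow_natCast, ← hx]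
  have hjN : ((j : ℝ) + 2) ^ (2 * u + 1) ≤ ((N : ℝ) + 2) ^ (2 * u + 1) := by
    have : (j : ℝ) ≤ N := by exact_mod_cast hj2
    gcongr
  calc qq k ^ h * |𝔼 b ∈ mon k β, 𝔼 t ∈ box k H, mu (f₀ /ₘ b + t)|
      ≤ qq k ^ h * (c₀ * ((N : ℝ) + 2) ^ (2 * u + 1) * x) := by
        refine mul_le_mul_of_nonneg_left (hmain.trans ?_) (pow_nonneg hq0.le _)
        gcongr
    _ = c₀ * ((N : ℝ) + 2) ^ (2 * u + 1) * (qq k ^ h * x) := by ring

end Num2

end RowNUM2_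

section RowSHORT_


section SHORT

theorem short_poly (c : ℝ) {η : ℝ} (hη : 0 < η) (n : ℕ) :
    ∀ᶠ N : ℕ in atTop, c * ((N : ℝ) + 2) ^ n ≤ (2 : ℝ) ^ (η * N) := by
  have hb : 0 < η * Real.log 2 := mul_pos hη (Real.log_pos (by norm_num))
  have hc : 0 < 1 / ((|c| + 1) * 2 ^ n) := by positivity
  have h1 := (isLittleO_pow_exp_pos_mul_atTop n hb).def hc
  filter_upwards [tendsto_natCast_atTop_atTop.eventually h1, eventually_ge_atTop 2] with N hN h2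
  have h2' : (2 : ℝ) ≤ N := by exact_mod_cast h2
  rw [Real.norm_of_nonneg (by positivity), Real.norm_of_nonneg (Real.exp_pos _).le] at hN
  rw [Real.rpow_def_of_pos (by norm_num : (0 : ℝ) < 2)]
  have e1 : Real.log 2 * (η * N) = η * Real.log 2 * N := by ring
  rw [e1]
  have h3 : ((N : ℝ) + 2) ^ n ≤ 2 ^ n * (N : ℝ) ^ n := by
    rw [← mul_pow]
    exact pow_le_pow_left₀ (by positivity) (by linarith) n
  have h4 : (|c| + 1) * 2 ^ n * (N : ℝ) ^ n ≤ Real.exp (η * Real.log 2 * N) := by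
    rw [one_div, inv_mul_eq_div, le_div_iff₀ (by positivity)] at hN
    linarith
  calc c * ((N : ℝ) + 2) ^ n ≤ (|c| + 1) * ((N : ℝ) + 2) ^ n :=
        mul_le_mul_of_nonneg_right (by linarith [le_abs_self c]) (by positivity)
    _ ≤ (|c| + 1) * (2 ^ n * (N : ℝ) ^ n) := mul_le_mul_of_nonneg_left h3 (by positivity)
    _ ≤ _ := by rw [← mul_assoc]; exact h4

theorem short_gen {E E' u : ℕ} (hE : 0 < E) (hu : 100 ≤ u) (huE : 12 * (121 * E) ≤ u)
    {η : ℝ} (hη : 0 < η) (h1 : 2 * η ≤ 1 / (2 * (121 * E))) (h2 : 2 * η ≤ 1 / (10 * u * E'))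
    (h3 : 2 * η ≤ 1 / 10) (k : Type) [Field k] [Fintype k] [CharP k 2]
    (r1 : ∃ c₀ : ℝ, ∀ᶠ N : ℕ in atTop, ∀ (h j : ℕ) (f₀ : k[X]), f₀ ∈ mon k N →
      49 * N ≤ 100 * h → h < j → 100 * j ≤ 51 * N →
      |SS f₀ h j| ≤ c₀ * (N : ℝ) ^ 21 * qq k ^ ((j : ℝ) - N / (121 * E)))
    (r2 : ∃ c₀ : ℝ, ∀ᶠ N : ℕ in atTop, ∀ (j : ℕ) (f₀ : k[X]),
      f₀ ∈ mon k N → N / 2 - N / (9 * u) + 52 * (N / (9 * u)) < j → j ≤ N →
      |SS f₀ (N / 2 - N / (9 * u)) j| ≤ c₀ * ((N : ℝ) + 2) ^ (2 * u + 1) *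
        qq k ^ (((N / 2 - N / (9 * u) : ℕ) : ℝ) - N / (10 * u * E'))) :
    ∀ᶠ N : ℕ in atTop, ∀ f₀ ∈ mon k N,
      |(N : ℝ) * (#{t ∈ box k (N / 2 - N / (9 * u)) | Irreducible (f₀ + t)} : ℝ) -
        qq k ^ (N / 2 - N / (9 * u))| ≤ qq k ^ (((N / 2 - N / (9 * u) : ℕ) : ℝ) - η * N) := by
  obtain ⟨c₁, r1⟩ := r1
  obtain ⟨c₂, r2⟩ := r2
  filter_upwards [r1, r2, short_poly (|c₁| + |c₂| + 1) hη (2 * u + 3), eventually_ge_atTop 1000]
    with N r1 r2 hp hN f₀ hf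
  have q2 : (2 : ℝ) ≤ qq k := two_le_qq
  have q1 : (1 : ℝ) ≤ qq k := by linarith
  have q0 : (0 : ℝ) < qq k := by linarith
  obtain ⟨w, hw⟩ : ∃ w, w = N / (9 * u) := ⟨_, rfl⟩
  have hw1 : w * (9 * u) ≤ N := hw ▸ Nat.div_mul_le_self _ _
  have hw2 : 10000 * w ≤ N := by nlinarith
  rw [← hw] at r2 ⊢
  obtain ⟨h, hh⟩ : ∃ h, h = N / 2 - w := ⟨_, rfl⟩
  rw [← hh] at r2 ⊢
  have hh1 : 49 * N ≤ 100 * h := by omega
  have hh1' : (49 : ℝ) * N ≤ 100 * h := by exact_mod_cast hh1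
  have hN' : (1000 : ℝ) ≤ N := by exact_mod_cast hN
  have hEr : (0 : ℝ) < E := by exact_mod_cast hE
  obtain ⟨Q, hQ⟩ : ∃ Q, Q = qq k ^ ((h : ℝ) - 2 * η * N) := ⟨_, rfl⟩
  have hQ0 : 0 < Q := hQ ▸ Real.rpow_pos_of_pos q0 _
  have hle : ∀ y : ℝ, y ≤ h - 2 * η * N → qq k ^ y ≤ Q := fun y hy =>
    hQ ▸ Real.rpow_le_rpow_of_exponent_le q1 hy
  obtain ⟨P, hP⟩ : ∃ P, P = ((N : ℝ) + 2) ^ (2 * u + 1) := ⟨_, rfl⟩
  have hP1 : 1 ≤ P := hP ▸ one_le_pow₀ (by linarith)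
  rw [← hP] at r2
  have hS : ∀ j ∈ Ioc h N, (j : ℝ) * |SS f₀ h j| ≤ N * ((|c₁| + |c₂|) * P * Q) := by
    intro j hj
    rw [mem_Ioc] at hj
    refine mul_le_mul (by exact_mod_cast hj.2) ?_ (abs_nonneg _) (by positivity)
    by_cases hc : h + 52 * w < j
    · refine (r2 j f₀ hf hc hj.2).trans ?_
      have e2 : qq k ^ ((h : ℝ) - N / (10 * u * E')) ≤ Q := by
        refine hle _ ?_
        have : 2 * η * N ≤ 1 / (10 * u * E') * N := mul_le_mul_of_nonneg_right h2 (by linarith)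
        rw [one_div, inv_mul_eq_div] at this
        linarith
      refine mul_le_mul (mul_le_mul_of_nonneg_right ?_ (by linarith)) e2
        (Real.rpow_nonneg q0.le _) (by positivity)
      linarith [le_abs_self c₂, abs_nonneg c₁]
    · refine (r1 h j f₀ hf hh1 hj.1 (by omega)).trans ?_
      have e2 : qq k ^ ((j : ℝ) - N / (121 * E)) ≤ Q := by
        refine hle _ ?_
        have a1 : 2 * η * N ≤ 1 / (2 * (121 * E)) * N := mul_le_mul_of_nonneg_right h1 (by linarith)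
        have a2 : (j : ℝ) ≤ h + 52 * w := by exact_mod_cast not_lt.1 hc
        have a3 : 104 * w * (121 * E) ≤ N := by nlinarith
        have a4 : (104 : ℝ) * w * (121 * E) ≤ N := by exact_mod_cast a3
        have a5 : (104 : ℝ) * w ≤ N / (121 * E) := by
          rw [le_div_iff₀ (by positivity)]; exact a4
        have a6 : 1 / (2 * (121 * (E : ℝ))) * N = N / (121 * E) / 2 := by
          field_simp
        rw [a6] at a1
        linarith
      have e3 : (N : ℝ) ^ 21 ≤ P := by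
        rw [hP]
        exact (pow_le_pow_left₀ (by linarith) (by linarith) 21).trans
          (pow_le_pow_right₀ (by linarith) (by omega))
      refine mul_le_mul ?_ e2 (Real.rpow_nonneg q0.le _) (by positivity)
      calc c₁ * (N : ℝ) ^ 21 ≤ |c₁| * (N : ℝ) ^ 21 :=
            mul_le_mul_of_nonneg_right (le_abs_self _) (by positivity)
        _ ≤ (|c₁| + |c₂|) * P :=
            mul_le_mul (by linarith [abs_nonneg c₂]) e3 (by positivity) (by positivity)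
  have hη2 : 2 * η * N ≤ 1 / 10 * N := mul_le_mul_of_nonneg_right h3 (by linarith)
  have t1 : qq k ^ ((h + 1) / 2) ≤ Q := by
    rw [← Real.rpow_natCast]
    refine hle _ ?_
    have : 2 * ((h + 1) / 2) ≤ h + 1 := by omega
    have : (2 : ℝ) * ((h + 1) / 2 : ℕ) ≤ h + 1 := by exact_mod_cast this
    linarith
  have t2 : qq k ^ (N / 3) ≤ Q := by
    rw [← Real.rpow_natCast]
    refine hle _ ?_
    have : 3 * (N / 3) ≤ N := by omega
    have : (3 : ℝ) * (N / 3 : ℕ) ≤ N := by exact_mod_cast this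
    linarith
  have s1 := sum_le_card_nsmul _ _ _ hS
  rw [nsmul_eq_mul, Nat.card_Ioc] at s1
  have s2 : ((N - h : ℕ) : ℝ) ≤ N := by exact_mod_cast Nat.sub_le N h
  have hC : 0 ≤ (|c₁| + |c₂|) * P * Q := by positivity
  have s3 : ((N - h : ℕ) : ℝ) * (N * ((|c₁| + |c₂|) * P * Q)) ≤
      ((N : ℝ) + 2) ^ 2 * ((|c₁| + |c₂|) * P * Q) := by
    rw [← mul_assoc]
    refine mul_le_mul_of_nonneg_right ?_ hC
    nlinarith
  have s4 : (N : ℝ) * (qq k ^ ((h + 1) / 2) + N * qq k ^ (N / 3)) ≤ ((N : ℝ) + 2) ^ 2 * (P * Q) := by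
    calc (N : ℝ) * (qq k ^ ((h + 1) / 2) + N * qq k ^ (N / 3)) ≤ N * (Q + N * Q) := by gcongr
      _ = (N * (1 + N)) * Q := by ring
      _ ≤ ((N : ℝ) + 2) ^ 2 * (P * Q) :=
        mul_le_mul (by nlinarith) (le_mul_of_one_le_left hQ0.le hP1) hQ0.le (by positivity)
  have s5 : (2 : ℝ) ^ (η * N) ≤ qq k ^ (η * N) :=
    Real.rpow_le_rpow (by norm_num) q2 (by positivity)
  have s6 : qq k ^ ((h : ℝ) - η * N) = qq k ^ (η * N) * Q := by
    rw [hQ, ← Real.rpow_add q0]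
    congr 1
    ring
  have s7 : ((N : ℝ) + 2) ^ (2 * u + 3) = ((N : ℝ) + 2) ^ 2 * P := by
    rw [hP]; ring
  rw [s7] at hp
  refine (count_le hf (by omega) (by omega)).trans ?_
  rw [s6]
  calc _ ≤ ((N : ℝ) + 2) ^ 2 * ((|c₁| + |c₂|) * P * Q) + ((N : ℝ) + 2) ^ 2 * (P * Q) :=
        add_le_add (s1.trans s3) s4
    _ = (|c₁| + |c₂| + 1) * (((N : ℝ) + 2) ^ 2 * P) * Q := by ring
    _ ≤ _ := mul_le_mul_of_nonneg_right (hp.trans s5) hQ0.le

theorem short_eta {E E' u : ℕ} (hE : 0 < E) (hE' : 0 < E') (hu : 100 ≤ u) : ∃ η : ℝ, 0 < η ∧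
    2 * η ≤ 1 / (2 * (121 * E)) ∧ 2 * η ≤ 1 / (10 * u * E') ∧ 2 * η ≤ 1 / 10 := by
  have hur : (0 : ℝ) < u := by exact_mod_cast (by omega : 0 < u)
  have hEr : (0 : ℝ) < E := by exact_mod_cast hE
  have hEr' : (0 : ℝ) < E' := by exact_mod_cast hE'
  obtain ⟨m, hm⟩ : ∃ m : ℝ, m = min (min (1 / (2 * (121 * (E : ℝ)))) (1 / (10 * (u : ℝ) * E')))
    (1 / 10) := ⟨_, rfl⟩
  have hm0 : 0 < m := by
    rw [hm]
    exact lt_min (lt_min (by positivity) (by positivity)) (by norm_num)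
  have hm2 : 2 * (m / 2) = m := by ring
  refine ⟨m / 2, by positivity, ?_, ?_, ?_⟩
  · rw [hm2, hm]; exact (min_le_left _ _).trans (min_le_left _ _)
  · rw [hm2, hm]; exact (min_le_left _ _).trans (min_le_right _ _)
  · rw [hm2, hm]; exact min_le_right _ _

theorem short_ex (c : ℕ) : 0 < ex c := pow_pos (by norm_num) _

theorem short_u {E : ℕ} (hE : 0 < E) : ∃ u : ℕ, 100 ≤ u ∧ 12 * (121 * E) ≤ u :=
  ⟨12 * (121 * E), by omega, le_rfl⟩

theorem short : ∃ (u : ℕ) (η : ℝ), 0 < u ∧ 0 < η ∧ ∀ (k : Type) [Field k] [Fintype k] [CharP k 2],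
    ∀ᶠ N : ℕ in atTop, ∀ f₀ ∈ mon k N,
      |(N : ℝ) * (#{t ∈ box k (N / 2 - N / u) | Irreducible (f₀ + t)} : ℝ) -
        qq k ^ (N / 2 - N / u)| ≤ qq k ^ (((N / 2 - N / u : ℕ) : ℝ) - η * N) := by
  obtain ⟨u, hu1, hu2⟩ := short_u (short_ex 11)
  obtain ⟨η, h0, h1, h2, h3⟩ := short_eta (short_ex 11) (short_ex (u + 1)) hu1
  exact ⟨9 * u, η, Nat.mul_pos (by norm_num) (lt_of_lt_of_le (by norm_num) hu1), h0,
    fun k _ _ _ => short_gen (short_ex 11) hu1 hu2 h0 h1 h2 h3 k r1fin (r2fin hu1)⟩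

end SHORT

end RowSHORT_

section RowMAIN_


section

theorem main_add {k : Type} [Field k] [Fintype k] {N h : ℕ} {f t : k[X]} (hf : f ∈ mon k N)
    (ht : t ∈ box k h) (hh : h ≤ N) : f + t ∈ mon k N := by
  rw [mem_mon] at *
  rw [mem_box] at ht
  have h1 : t.degree < f.degree := by
    rw [degree_eq_natDegree hf.1.ne_zero, hf.2]
    exact ht.trans_le (by exact_mod_cast hh)
  exact ⟨hf.1.add_of_left h1, by rw [natDegree_add_eq_left_of_degree_lt h1, hf.2]⟩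

theorem main_avg {k : Type} [Field k] [Fintype k] {h₀ h : ℕ} (hh : h₀ ≤ h) (f : k[X]) :
    qq k ^ h₀ * (#{t ∈ box k h | Irreducible (f + t)} : ℝ) =
      ∑ t ∈ box k h, (#{s ∈ box k h₀ | Irreducible (f + t + s)} : ℝ) := by
  simp only [← Finset.sum_boole]
  rw [Finset.sum_comm, ← card_box, ← nsmul_eq_mul, ← Finset.sum_const]
  refine Finset.sum_congr rfl fun s hs => ?_
  have hs' : s.degree < h := (mem_box.1 hs).trans_le (by exact_mod_cast hh)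
  rw [← box_sum_shift hs' fun t => if Irreducible (f + t) then (1 : ℝ) else 0]
  simp only [add_assoc]

theorem main_up {k : Type} [Field k] [Fintype k] {N h₀ h : ℕ} {c : ℝ} (hh : h₀ ≤ h) (hN : h ≤ N)
    (H : ∀ f ∈ mon k N, |(N : ℝ) * (#{t ∈ box k h₀ | Irreducible (f + t)} : ℝ) - qq k ^ h₀| ≤
      qq k ^ ((h₀ : ℝ) - c)) {f : k[X]} (hf : f ∈ mon k N) :
    |(N : ℝ) * (#{t ∈ box k h | Irreducible (f + t)} : ℝ) - qq k ^ h| ≤ qq k ^ ((h : ℝ) - c) := by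
  have hq : 0 < qq k := by
    unfold qq
    exact_mod_cast Fintype.card_pos
  have h0 : 0 < qq k ^ h₀ := pow_pos hq _
  have e1 : qq k ^ h₀ * ((N : ℝ) * (#{t ∈ box k h | Irreducible (f + t)} : ℝ) - qq k ^ h) =
      ∑ t ∈ box k h, ((N : ℝ) * (#{s ∈ box k h₀ | Irreducible (f + t + s)} : ℝ) - qq k ^ h₀) := by
    rw [Finset.sum_sub_distrib, ← Finset.mul_sum, ← main_avg hh, Finset.sum_const, nsmul_eq_mul,
      card_box]
    ring
  have e2 : qq k ^ h₀ * |(N : ℝ) * (#{t ∈ box k h | Irreducible (f + t)} : ℝ) - qq k ^ h| ≤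
      qq k ^ h * qq k ^ ((h₀ : ℝ) - c) := by
    rw [← abs_of_pos h0, ← abs_mul, e1]
    refine (Finset.abs_sum_le_sum_abs _ _).trans ?_
    rw [← card_box h, ← nsmul_eq_mul, ← Finset.sum_const]
    exact Finset.sum_le_sum fun t ht => H _ (main_add hf ht hN)
  have e3 : qq k ^ h * qq k ^ ((h₀ : ℝ) - c) = qq k ^ h₀ * qq k ^ ((h : ℝ) - c) := by
    rw [← Real.rpow_natCast, ← Real.rpow_natCast (qq k) h₀, ← Real.rpow_add hq,
      ← Real.rpow_add hq]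
    congr 1
    ring
  rw [e3] at e2
  exact le_of_mul_le_mul_left e2 h0

theorem main : ∃ δ : ℝ, 0 < δ ∧ ∀ (F : Type) [Field F] [Finite F] [CharP F 2], ∃ N₀ : ℕ,
    ∀ N h : ℕ, N₀ ≤ N → (1 / 2 - δ) * N ≤ h → h ≤ N → ∀ f₀ : F[X], f₀.Monic → f₀.natDegree = N →
      |(N : ℝ) * ({f : F[X] | Irreducible f ∧ (f - f₀).degree < h}.ncard : ℝ) -
        (Nat.card F : ℝ) ^ h| ≤ (Nat.card F : ℝ) ^ ((h : ℝ) - δ * N) := by
  obtain ⟨u, η, hu, hη, H⟩ := short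
  have hu' : (0 : ℝ) < u := by exact_mod_cast hu
  refine ⟨min η (1 / (2 * u)), lt_min hη (by positivity), fun F _ _ _ => ?_⟩
  let _ : Fintype F := Fintype.ofFinite F
  obtain ⟨N₁, hN₁⟩ := eventually_atTop.1 (H F)
  refine ⟨max N₁ (4 * u), fun N h hN h1 h2 f₀ hm hd => ?_⟩
  have hq : (Nat.card F : ℝ) = qq F := by rw [Nat.card_eq_fintype_card]; rfl
  have hq1 : 1 ≤ qq F := by
    unfold qq
    exact_mod_cast Fintype.card_pos
  have hN0 : (0 : ℝ) ≤ N := Nat.cast_nonneg _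
  have hh : N / 2 - N / u ≤ h := by
    have a1 : ((N / 2 : ℕ) : ℝ) ≤ N / 2 := Nat.cast_div_le
    have a2 : (N : ℝ) < u * ((N / u : ℕ) : ℝ) + u := by
      have := Nat.lt_mul_div_succ N hu
      exact_mod_cast (by simpa [mul_add] using this)
    have a3 : (4 * u : ℝ) ≤ N := by exact_mod_cast (le_max_right _ _).trans hN
    have a4 : min η (1 / (2 * u)) * N ≤ 1 / (2 * u) * N :=
      mul_le_mul_of_nonneg_right (min_le_right _ _) hN0
    have a5 : 1 / (2 * u) * (N : ℝ) ≤ ((N / u : ℕ) : ℝ) := by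
      rw [one_div, inv_mul_le_iff₀ (by positivity)]
      nlinarith
    have a6 : ((N / 2 : ℕ) : ℝ) ≤ h + ((N / u : ℕ) : ℝ) := by linarith
    have a7 : N / 2 ≤ h + N / u := by exact_mod_cast a6
    omega
  have hc : {f : F[X] | Irreducible f ∧ (f - f₀).degree < h}.ncard =
      #{t ∈ box F h | Irreducible (f₀ + t)} := by
    rw [← Finset.card_image_of_injective _ (add_right_injective f₀), ← Set.ncard_coe_finset]
    congr 1
    ext f
    simp only [Set.mem_ofPred_eq, Finset.coe_image, Set.mem_image, Finset.mem_coe, Finset.mem_filter,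
      mem_box]
    constructor
    · rintro ⟨a, b⟩
      exact ⟨f - f₀, ⟨b, by simpa using a⟩, by ring⟩
    · rintro ⟨t, ⟨a, b⟩, rfl⟩
      exact ⟨b, by simpa using a⟩
  rw [hc, hq]
  refine (main_up hh h2 (hN₁ N ((le_max_left _ _).trans hN)) (mem_mon.2 ⟨hm, hd⟩)).trans ?_
  refine Real.rpow_le_rpow_of_exponent_le hq1 ?_
  have := mul_le_mul_of_nonneg_right (min_le_left η (1 / (2 * u))) hN0
  linarith

end

end RowMAIN_

end Pool.Agent.MP_2033ac_nt.SI
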